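import Mathlib

set_option autoImplicit false

/-!
# PAN: analysis for the path theorem on the generalised Casson conjecture (MP_7b8e17_gt), definitions

The double sine function with `b ^ 2 = 1 / N`, in elementary form.
-/

namespace Pool.Agent.PAN

open Finset

/-- `π (t - 1) cot (π t)`, value `1` at `t = 1` -/
noncomputable def gg (t : ℂ) : ℂ :=
  if t = 1 then 1
  else (Real.pi : ℂ) * (t - 1) * (Complex.cos (Real.pi * t) / Complex.sin (Real.pi * t))

/-- the primitive of `gg` on `0 < Re < 2` vanishing at `1` -/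
noncomputable def G1 (u : ℂ) : ℂ := (u - 1) * ∫ τ in (0 : ℝ)..1, gg (1 + (τ : ℂ) * (u - 1))

/-- logarithm of `gN` -/
noncomputable def LN (N : ℕ) (x : ℂ) : ℂ := ∑ k ∈ range N, G1 ((x + k) / N)

/-- the gamma function: `gN (x + 1) = 2 sin (π x / N) gN x`, `gN x * gN (N + 1 - x) = 1` -/
noncomputable def gN (N : ℕ) (x : ℂ) : ℂ := Complex.exp (LN N x)

/-- limit of `LN N ((N + 1) u) / N` -/
noncomputable def Ph (u : ℂ) : ℂ := ∫ τ in (0 : ℝ)..1, G1 (u + (τ : ℂ))

/-- the Lobachevsky function -/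
noncomputable def Lob (x : ℝ) : ℝ := -∫ t in (0 : ℝ)..x, Real.log |2 * Real.sin t|

/-- `Re 𝓛 (a + i y) - Λ (a)` for the complex Lobachevsky function `𝓛` -/
noncomputable def EE (a y : ℝ) : ℝ :=
  ∫ s in (0 : ℝ)..y, Real.arctan (Real.cos a / Real.sin a * Real.tanh s)

/-- weight of a tetrahedron with complex angles `w 0 + w 1 + w 2 = π` -/
noncomputable def WN (N : ℕ) (w : Fin 3 → ℂ) : ℂ := ∏ i, gN N ((N + 1) * w i / Real.pi)

/-- left side of the star-triangle relation -/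
noncomputable def II (N : ℕ) (a b : Fin 3 → ℂ) : ℂ :=
  ∫ y : ℝ, ∏ j, (gN N (a j + y * Complex.I) * gN N (b j - y * Complex.I))

/-- right side of the star-triangle relation -/
noncomputable def PP (N : ℕ) (a b : Fin 3 → ℂ) : ℂ := ∏ j, ∏ k, gN N (a j + b k)

/-- real angles of tetrahedra -/
def IsAng {J : Type} (α : J → Fin 3 → ℝ) : Prop := ∀ t, (∀ i, 0 < α t i) ∧ ∑ i, α t i = Real.pi

/-- volume -/
noncomputable def Vol {J : Type} [Fintype J] (α : J → Fin 3 → ℝ) : ℝ := ∑ t, ∑ i, Lob (α t i)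

/-- integrand of the state integral, `l` is the multiplier -/
noncomputable def zz {J : Type} [Fintype J] (N : ℕ) (l : (J → Fin 3 → ℝ) →ₗ[ℝ] ℝ)
    (α y : J → Fin 3 → ℝ) : ℂ :=
  (∏ t, WN N (fun i => (α t i : ℂ) + (y t i : ℂ) * Complex.I)) *
    Complex.exp (((N / Real.pi : ℝ) : ℂ) * ((l α : ℂ) + (l y : ℂ) * Complex.I))

end Pool.Agent.PAN
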