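import Mathlib
import Pool.Agent.PAN.Defs

set_option autoImplicit false

/-!
# PAN: statements of the modules
-/

namespace Pool.Agent.PAN

open Finset Filter

/-! ### The function `G1` -/

def St_GG : Prop :=
  (∀ t : ℂ, 0 < t.re → t.re < 2 → DifferentiableAt ℂ gg t) ∧
  (∀ t : ℂ, 0 < t.re → t.re < 2 → gg (2 - t) = gg t) ∧
  (∀ t : ℂ, gg ((starRingEnd ℂ) t) = (starRingEnd ℂ) (gg t)) ∧
  (∀ u : ℂ, 0 < u.re → u.re < 1 → gg (u + 1) - gg u =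
    Real.pi * (Complex.cos (Real.pi * u) / Complex.sin (Real.pi * u)))

def St_G1 : Prop :=
  (∀ u : ℂ, 0 < u.re → u.re < 2 → HasDerivAt G1 (gg u) u) ∧
  G1 1 = 0 ∧
  (∀ u : ℂ, 0 < u.re → u.re < 2 → G1 (2 - u) = -G1 u) ∧
  (∀ u : ℂ, 0 < u.re → u.re < 2 → G1 ((starRingEnd ℂ) u) = (starRingEnd ℂ) (G1 u))

def St_GL : Prop := ∀ u : ℂ, 0 < u.re → u.re < 1 →
  G1 (u + 1) - G1 u = Complex.log (2 * Complex.sin (Real.pi * u))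

/-- bounds for `gg` -/
def St_GB : Prop := ∀ δ : ℝ, 0 < δ → ∃ C : ℝ, 0 < C ∧ ∀ t : ℂ, δ ≤ t.re → t.re ≤ 2 - δ →
  |(gg t).im| ≤ C ∧ |(gg t).re| ≤ C * (1 + |t.im|) ∧
  (1 ≤ |t.im| → |(gg t).im * (t.im / |t.im|) + Real.pi * (t.re - 1)| ≤
    C * Real.exp (-|t.im|))

/-- vertical growth of `G1` -/
def St_GV : Prop := ∀ δ : ℝ, 0 < δ → ∃ C : ℝ, 0 < C ∧ ∀ u : ℂ, δ ≤ u.re → u.re ≤ 2 - δ →
  |(G1 u).re + Real.pi * (1 - u.re) * (|u.im|)| ≤ C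

/-! ### The function `gN` -/

def St_gN : Prop := ∀ N : ℕ, 1 ≤ N →
  (∀ x : ℂ, 0 < x.re → x.re < N + 1 → DifferentiableAt ℂ (gN N) x) ∧
  (∀ x : ℂ, 0 < x.re → x.re < N → gN N (x + 1) = 2 * Complex.sin (Real.pi * x / N) * gN N x) ∧
  (∀ x : ℂ, 0 < x.re → x.re < N + 1 → gN N x * gN N (N + 1 - x) = 1) ∧
  (∀ x : ℂ, 0 < x.re → x.re < N + 1 →
    gN N ((starRingEnd ℂ) x) = (starRingEnd ℂ) (gN N x)) ∧
  (∀ x : ℝ, 0 < x → x < N + 1 → ∃ r : ℝ, 0 < r ∧ gN N x = r)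

def St_gB : Prop := ∀ N : ℕ, 1 ≤ N → ∀ δ : ℝ, 0 < δ → ∃ C : ℝ, 0 < C ∧ ∀ x : ℂ, δ ≤ x.re →
  x.re ≤ N + 1 - δ →
  ‖gN N x‖ ≤ C * Real.exp (-(Real.pi / N) * ((N + 1) / 2 - x.re) * |x.im|) ∧
  Real.exp (-(Real.pi / N) * ((N + 1) / 2 - x.re) * |x.im|) ≤ C * ‖gN N x‖

/-! ### Star-triangle relation -/

def St_TR : Prop := ∀ (a b : Fin 3 → ℂ) (s : ℂ), ∑ j, (a j + b j) = Real.pi →
  Complex.sin (a 0 - a 1) * (∏ j, Complex.sin (a j + s) - ∏ j, Complex.sin (b j - s)) =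
    Complex.sin (a 1 + s) * ∏ k, Complex.sin (a 0 + b k) -
      Complex.sin (a 0 + s) * ∏ k, Complex.sin (a 1 + b k)

/-- moving the line of integration -/
def St_CS : Prop := ∀ (A B c C : ℝ) (h : ℂ → ℂ), A ≤ B → 0 < c →
  (∀ z : ℂ, A ≤ z.re → z.re ≤ B → DifferentiableAt ℂ h z ∧ ‖h z‖ ≤ C * Real.exp (-c * |z.im|)) →
  ∫ y : ℝ, h (A + y * Complex.I) = ∫ y : ℝ, h (B + y * Complex.I)

/-- theorem of Liouville for periodic functions in a strip -/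
def St_Lio : Prop := ∀ (A B x₀ θ C : ℝ) (f : ℂ → ℂ), A < x₀ → x₀ + 1 < B → θ < 1 →
  (∀ t : ℂ, A < t.re → t.re < B → DifferentiableAt ℂ f t) →
  (∀ t : ℂ, A < t.re → t.re + 1 < B → f (t + 1) = f t) →
  (∀ t : ℂ, x₀ ≤ t.re → t.re ≤ x₀ + 1 → ‖f t‖ ≤ C * Real.exp (2 * Real.pi * θ * |t.im|)) →
  ∀ s t : ℂ, A < s.re → s.re < B → A < t.re → t.re < B → f s = f t

/-- recurrence -/
def St_Rec : Prop := ∀ (N : ℕ) (a b : Fin 3 → ℂ), 1 ≤ N → (∀ j, 0 < (a j).re) →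
  (∀ j, 0 < (b j).re) → ∑ j, (a j + b j) = N →
  II N (Function.update a 0 (a 0 + 1)) b * PP N (Function.update a 1 (a 1 + 1)) b =
    II N (Function.update a 1 (a 1 + 1)) b * PP N (Function.update a 0 (a 0 + 1)) b

/-- the integral as a function of a transfer: analytic, upper bound -/
def St_Tra1 : Prop := ∀ (N : ℕ) (a b : Fin 3 → ℂ), 1 ≤ N → (∀ j, 0 < (a j).re) →
  (∀ j, 0 < (b j).re) → ∑ j, (a j + b j) = N + 1 →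
  (∀ t : ℂ, 0 < (a 0 + t).re → 0 < (a 1 - t).re →
    DifferentiableAt ℂ (fun t => II N (![a 0 + t, a 1 - t, a 2]) b) t) ∧
  (∀ x₀ x₁ : ℝ, -(a 0).re < x₀ → x₁ < (a 1).re → ∃ C : ℝ, ∀ t : ℂ, x₀ ≤ t.re → t.re ≤ x₁ →
    ‖II N (![a 0 + t, a 1 - t, a 2]) b‖ ≤
      C * Real.exp (-(Real.pi / N) * (N + 1 - (a 0).re - (a 1).re) * |t.im|))

/-- transfers between `a 0` and `a 1` -/
def St_Tra : Prop := ∀ (N : ℕ) (a b : Fin 3 → ℂ) (t : ℂ), 1 ≤ N → (∀ j, 0 < (a j).re) →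
  (∀ j, 0 < (b j).re) → ∑ j, (a j + b j) = N + 1 → 1 < (a 0 + a 1).re →
  0 < (a 0 + t).re → 0 < (a 1 - t).re →
  II N (![a 0 + t, a 1 - t, a 2]) b * PP N a b = II N a b * PP N (![a 0 + t, a 1 - t, a 2]) b

/-- symmetries and translations -/
def St_Sym : Prop := ∀ (N : ℕ) (a b : Fin 3 → ℂ), 1 ≤ N →
  (∀ σ : Equiv.Perm (Fin 3), II N (a ∘ σ) b = II N a b ∧ PP N (a ∘ σ) b = PP N a b) ∧
  II N b a = II N a b ∧ PP N b a = PP N a b ∧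
  (∀ c : ℂ, (∀ j, 0 < (a j).re) → (∀ j, 0 < (b j).re) → (∀ j, 0 < (a j + c).re) →
    (∀ j, 0 < (b j - c).re) → ∑ j, (a j + b j) = N + 1 →
    II N (fun j => a j + c) (fun j => b j - c) = II N a b ∧
      PP N (fun j => a j + c) (fun j => b j - c) = PP N a b)

/-- star-triangle relation -/
def St_Star : Prop := ∀ N : ℕ, 6 ≤ N → ∃ κ : ℝ, 0 < κ ∧ ∀ a b : Fin 3 → ℂ,
  (∀ j, 0 < (a j).re) → (∀ j, 0 < (b j).re) → ∑ j, (a j + b j) = N + 1 →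
  II N a b = κ * PP N a b

/-! ### Asymptotics -/

def St_Ph : Prop :=
  (∀ u : ℂ, 0 < u.re → u.re < 1 →
    HasDerivAt Ph (Complex.log (2 * Complex.sin (Real.pi * u))) u) ∧
  (∀ x : ℝ, 0 < x → x < 1 → Ph x = ((-(Lob (Real.pi * x) / Real.pi) : ℝ) : ℂ))

/-- local asymptotics -/
def St_D1 : Prop := ∀ (u₀ : ℂ) (u : ℕ → ℂ), 0 < u₀.re → u₀.re < 1 →
  Tendsto u atTop (nhds u₀) →
  Tendsto (fun N : ℕ => LN N ((N + 1) * u N) - N * Ph (u N)) atTop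
    (nhds ((u₀ - 1 / 2) * Complex.log (2 * Complex.sin (Real.pi * u₀))))

/-- uniform asymptotics of the modulus -/
def St_D2 : Prop := ∀ δ : ℝ, 0 < δ → ∃ C : ℝ, 0 < C ∧ ∀ N : ℕ, 1 ≤ N → ∀ u : ℂ, δ ≤ u.re →
  u.re ≤ 1 - δ → |(LN N ((N + 1) * u)).re - N * (Ph u).re| ≤ C * (1 + |u.im|)

def St_E0 : Prop := ∀ a y : ℝ, 0 < a → a < Real.pi →
  (Ph (((a : ℂ) + y * Complex.I) / Real.pi)).re = -(1 / Real.pi) * (Lob a + EE a y)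

def St_E1 : Prop := ∀ δ : ℝ, 0 < δ → ∃ C : ℝ, 0 < C ∧ ∀ a y : ℝ, δ ≤ a → a ≤ Real.pi - δ →
  |EE a y - (Real.pi / 2 - a) * (|y|)| ≤ C

/-- the tetrahedron inequality, infinitesimal form -/
def St_E2 : Prop := ∀ δ : ℝ, 0 < δ → ∃ c : ℝ, 0 < c ∧ ∀ a η : Fin 3 → ℝ, (∀ i, δ ≤ a i) →
  ∑ i, a i = Real.pi → ∑ i, η i = 0 → c * (‖η‖ * Real.tanh ‖η‖) ≤
    ∑ i, η i * Real.arctan (Real.cos (a i) / Real.sin (a i) * Real.tanh (η i))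

/-- the tetrahedron inequality -/
def St_E3 : Prop := ∀ δ : ℝ, 0 < δ → ∃ c : ℝ, 0 < c ∧ ∀ a η : Fin 3 → ℝ, (∀ i, δ ≤ a i) →
  ∑ i, a i = Real.pi → ∑ i, η i = 0 → c * min ‖η‖ (‖η‖ ^ 2) ≤ ∑ i, EE (a i) (η i)

/-! ### Interface -/

/-- uniform bound for the weight -/
def St_I2 : Prop := ∀ δ : ℝ, 0 < δ → ∃ (c C : ℝ) (N₀ : ℕ), 0 < c ∧ 0 < C ∧ 1 ≤ N₀ ∧
  ∀ N : ℕ, N₀ ≤ N → ∀ a η : Fin 3 → ℝ, (∀ i, δ ≤ a i) → ∑ i, a i = Real.pi → ∑ i, η i = 0 →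
    ‖WN N (fun i => (a i : ℂ) + (η i : ℂ) * Complex.I)‖ ≤
      C * Real.exp (-(N / Real.pi) * ∑ i, Lob (a i)) * Real.exp (-c * N * min ‖η‖ (‖η‖ ^ 2))

/-- uniform bound for the integrand of the state integral -/
def St_Z2 : Prop := ∀ (J : Type) [Fintype J] (δ : ℝ), 0 < δ → ∃ (c C : ℝ) (N₀ : ℕ), 0 < c ∧
  0 < C ∧ 1 ≤ N₀ ∧ ∀ N : ℕ, N₀ ≤ N → ∀ (l : (J → Fin 3 → ℝ) →ₗ[ℝ] ℝ) (α y : J → Fin 3 → ℝ),
    (∀ t i, δ ≤ α t i) → (∀ t, ∑ i, α t i = Real.pi) → (∀ t, ∑ i, y t i = 0) →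
    ‖zz N l α y‖ ≤ C * Real.exp ((N / Real.pi) * (l α - Vol α)) *
      Real.exp (-c * N * min ‖y‖ (‖y‖ ^ 2))

/-- lower bound at a critical point -/
def St_J3 : Prop := ∀ (J : Type) [Fintype J] (d : ℕ) (L : (Fin d → ℝ) →ₗ[ℝ] (J → Fin 3 → ℝ)),
  Function.Injective L → (∀ y t, ∑ i, L y t i = 0) → ∀ α : J → Fin 3 → ℝ, IsAng α →
  ∀ l : (J → Fin 3 → ℝ) →ₗ[ℝ] ℝ,
  (∀ y, l (L y) + ∑ t, ∑ i, L y t i * Real.log (2 * Real.sin (α t i)) = 0) →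
  ∃ (c : ℝ) (m N₀ : ℕ), 0 < c ∧ ∀ N : ℕ, N₀ ≤ N →
    c / (N : ℝ) ^ m * Real.exp ((N / Real.pi) * (l α - Vol α)) ≤
      ‖∫ y : Fin d → ℝ, (∏ t, WN N (fun i => (α t i : ℂ) + (L y t i : ℂ) * Complex.I)) *
        Complex.exp (((N / Real.pi : ℝ) : ℂ) * ((l α : ℂ) + (l (L y) : ℂ) * Complex.I))‖

/-- the 2-3 move -/
def St_J4 : Prop := ∃ κ : ℕ → ℝ, (∀ N : ℕ, 6 ≤ N → 0 < κ N ∧
    ∀ a b : Fin 3 → ℂ, (∀ j, 0 < (a j).re) → (∀ j, 0 < (b j).re) → ∑ j, (a j + b j) = Real.pi →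
    MeasureTheory.Integrable (fun s : ℝ =>
      ∏ j, (gN N ((N + 1) * (a j + s * Complex.I) / Real.pi) *
        gN N ((N + 1) * (b j - s * Complex.I) / Real.pi))) ∧
    ∫ s : ℝ, ∏ j, (gN N ((N + 1) * (a j + s * Complex.I) / Real.pi) *
      gN N ((N + 1) * (b j - s * Complex.I) / Real.pi)) =
    κ N * ∏ j, ∏ k, gN N ((N + 1) * (a j + b k) / Real.pi)) ∧
  ∀ ε : ℝ, 0 < ε → ∃ N₀ : ℕ, ∀ N : ℕ, N₀ ≤ N →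
    Real.exp (-(ε * N)) ≤ κ N ∧ κ N ≤ Real.exp (ε * N)

end Pool.Agent.PAN
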