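import Mathlib
import Pool.Agent.PAN.Stmts

set_option autoImplicit false

/-!
# PAN / CS: contour shift
-/

namespace Pool.Agent.PAN

open Finset Filter

/-- `exp (-c |y|)` is integrable -/
theorem cs_integrable {c : ℝ} (hc : 0 < c) :
    MeasureTheory.Integrable (fun y : ℝ => Real.exp (-c * |y|)) := by
  refine (integrable_inv_one_add_sq.const_mul (1 + 2 / c ^ 2)).mono' ?_ ?_
  · exact (Real.continuous_exp.comp (continuous_const.mul continuous_abs)).aestronglyMeasurable
  · refine Filter.Eventually.of_forall fun y => ?_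
    rw [Real.norm_eq_abs, abs_of_pos (Real.exp_pos _)]
    have h1 := Real.pow_div_factorial_le_exp (c * |y|) (by positivity) 2
    have h2 : 1 ≤ Real.exp (c * |y|) := Real.one_le_exp (by positivity)
    have h3 : Real.exp (-c * |y|) = (Real.exp (c * |y|))⁻¹ := by
      rw [← Real.exp_neg]; ring_nf
    rw [h3, ← div_eq_mul_inv, inv_le_comm₀ (Real.exp_pos _) (by positivity), inv_div,
      div_le_iff₀ (by positivity)]
    have h4 : (c * |y|) ^ 2 = c ^ 2 * y ^ 2 := by rw [mul_pow, sq_abs]
    rw [h4] at h1
    have h5 : c ^ 2 * y ^ 2 ≤ 2 * Real.exp (c * |y|) := by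
      have h6 : ((2 : ℕ).factorial : ℝ) = 2 := by norm_num [Nat.factorial]
      rw [h6, div_le_iff₀ two_pos] at h1
      linarith
    have h7 : y ^ 2 ≤ 2 / c ^ 2 * Real.exp (c * |y|) := by
      rw [div_mul_eq_mul_div, le_div_iff₀ (by positivity)]
      linarith
    nlinarith

private theorem cs_line {A c C : ℝ} {h : ℂ → ℂ} (hc : 0 < c)
    (hh : ∀ z : ℂ, z.re = A → DifferentiableAt ℂ h z ∧ ‖h z‖ ≤ C * Real.exp (-c * |z.im|)) :
    MeasureTheory.Integrable (fun y : ℝ => h (A + y * Complex.I)) := by
  refine ((cs_integrable hc).const_mul C).mono' ?_ ?_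
  · refine Continuous.aestronglyMeasurable ?_
    rw [continuous_iff_continuousAt]
    intro y
    have h1 : ContinuousAt h (A + y * Complex.I) := (hh _ (by simp)).1.continuousAt
    have h2 : ContinuousAt (fun y : ℝ => (A : ℂ) + y * Complex.I) y := by fun_prop
    exact ContinuousAt.comp (f := fun y : ℝ => (A : ℂ) + y * Complex.I) h1 h2
  · refine Filter.Eventually.of_forall fun y => ?_
    have := (hh (A + y * Complex.I) (by simp)).2
    simpa using this

/-- keep this signature -/
theorem thm_CS : St_CS := by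
  intro A B c C h hAB hc hh
  have hlA := cs_line (A := A) hc (fun z hz => hh z hz.ge (hz.le.trans hAB))
  have hlB := cs_line (A := B) hc (fun z hz => hh z (hAB.trans hz.ge) hz.le)
  have tA := MeasureTheory.intervalIntegral_tendsto_integral hlA
    (tendsto_neg_atTop_atBot (G := ℝ)) tendsto_id
  have tB := MeasureTheory.intervalIntegral_tendsto_integral hlB
    (tendsto_neg_atTop_atBot (G := ℝ)) tendsto_id
  -- horizontal sides
  have hbound : ∀ (T s : ℝ), |s| = |T| → ‖∫ x : ℝ in A..B, h (x + (s : ℂ) * Complex.I)‖ ≤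
      C * Real.exp (-c * |T|) * (B - A) := by
    intro T s hs
    refine (intervalIntegral.norm_integral_le_of_norm_le_const
      (C := C * Real.exp (-c * |T|)) fun x hx => ?_).trans ?_
    · rw [Set.uIoc_of_le hAB] at hx
      have := (hh (x + (s : ℂ) * Complex.I) (by simpa using hx.1.le) (by simpa using hx.2)).2
      have e : ((x : ℂ) + (s : ℂ) * Complex.I).im = s := by simp
      rwa [e, hs] at this
    · rw [abs_of_nonneg (sub_nonneg.2 hAB)]
  have hz : Tendsto (fun T : ℝ => C * Real.exp (-c * |T|) * (B - A)) atTop (nhds 0) := by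
    have h1 : Tendsto (fun T : ℝ => Real.exp (-c * |T|)) atTop (nhds 0) := by
      refine Real.tendsto_exp_atBot.comp ?_
      refine Tendsto.const_mul_atTop_of_neg (by linarith) ?_
      exact tendsto_abs_atTop_atTop
    have h2 := (h1.const_mul C).mul_const (B - A)
    simpa using h2
  have hrect : ∀ T : ℝ, (∫ y : ℝ in (-T)..T, h (B + y * Complex.I)) -
      (∫ y : ℝ in (-T)..T, h (A + y * Complex.I)) =
      -Complex.I * ((∫ x : ℝ in A..B, h (x + (T : ℂ) * Complex.I)) -
        ∫ x : ℝ in A..B, h (x + ((-T : ℝ) : ℂ) * Complex.I)) := by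
    intro T
    have H := Complex.integral_boundary_rect_eq_zero_of_differentiableOn h
      (⟨A, -T⟩ : ℂ) (⟨B, T⟩ : ℂ) (by
        intro z hz
        have hz1 : z.re ∈ Set.uIcc A B := hz.1
        rw [Set.uIcc_of_le hAB] at hz1
        exact (hh z hz1.1 hz1.2).1.differentiableWithinAt)
    simp only [smul_eq_mul] at H
    linear_combination -Complex.I * H +
      ((∫ y : ℝ in (-T)..T, h (B + y * Complex.I)) -
        (∫ y : ℝ in (-T)..T, h (A + y * Complex.I))) * Complex.I_mul_I
  have hdiff : Tendsto (fun T : ℝ => (∫ y : ℝ in (-T)..T, h (B + y * Complex.I)) -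
      (∫ y : ℝ in (-T)..T, h (A + y * Complex.I))) atTop (nhds 0) := by
    refine squeeze_zero_norm (a := fun T : ℝ => 2 * (C * Real.exp (-c * |T|) * (B - A)))
      (fun T => ?_) (by simpa using hz.const_mul 2)
    rw [hrect T, norm_mul, norm_neg, Complex.norm_I, one_mul]
    refine (norm_sub_le _ _).trans ?_
    have h1 := hbound T T rfl
    have h2 := hbound T (-T) (abs_neg T)
    linarith
  have huniq := tendsto_nhds_unique hdiff (tB.sub tA)
  exact (sub_eq_zero.1 huniq.symm).symm

end Pool.Agent.PAN
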