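import Mathlib
import Pool.Agent.PAN.Stmts

set_option autoImplicit false

/-!
# PAN / D1: local asymptotics
-/

namespace Pool.Agent.PAN

open Finset Filter

/-- a compact rectangle in the strip -/
private def d1_K (δ M : ℝ) : Set ℂ := {z | δ ≤ z.re ∧ z.re ≤ 2 - δ ∧ |z.im| ≤ M}

private theorem d1_K_eq (δ M : ℝ) : d1_K δ M = Set.Icc δ (2 - δ) ×ℂ Set.Icc (-M) M := by
  ext z
  rw [Complex.mem_reProdIm, Set.mem_Icc, Set.mem_Icc, ← abs_le, and_assoc]
  exact Iff.rfl

private theorem d1_K_compact (δ M : ℝ) : IsCompact (d1_K δ M) := by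
  rw [d1_K_eq]
  exact isCompact_Icc.reProdIm isCompact_Icc

private theorem d1_K_convex (δ M : ℝ) : Convex ℝ (d1_K δ M) := by
  intro z hz w hw a b ha hb hab
  have e1 : (a • z + b • w).re = a * z.re + b * w.re := by simp
  have e2 : (a • z + b • w).im = a * z.im + b * w.im := by simp
  have hb' : b = 1 - a := by linarith
  refine ⟨?_, ?_, ?_⟩
  · rw [e1]
    have h1 := mul_le_mul_of_nonneg_left hz.1 ha
    have h2 := mul_le_mul_of_nonneg_left hw.1 hb
    have h3 : a * δ + b * δ = δ := by rw [← add_mul, hab, one_mul]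
    linarith
  · rw [e1]
    have h1 := mul_le_mul_of_nonneg_left hz.2.1 ha
    have h2 := mul_le_mul_of_nonneg_left hw.2.1 hb
    have h3 : a * (2 - δ) + b * (2 - δ) = 2 - δ := by rw [← add_mul, hab, one_mul]
    linarith
  · rw [e2]
    refine (abs_add_le _ _).trans ?_
    rw [abs_mul, abs_mul, abs_of_nonneg ha, abs_of_nonneg hb]
    have h1 := mul_le_mul_of_nonneg_left hz.2.2 ha
    have h2 := mul_le_mul_of_nonneg_left hw.2.2 hb
    have h3 : a * M + b * M = M := by rw [← add_mul, hab, one_mul]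
    linarith

private theorem d1_lip (h1 : St_GG) (δ M : ℝ) (hδ : 0 < δ) :
    ∃ C : ℝ, 0 ≤ C ∧ ∀ z w : ℂ, z ∈ d1_K δ M → w ∈ d1_K δ M →
      ‖gg z - gg w‖ ≤ C * ‖z - w‖ := by
  have hopen : IsOpen {z : ℂ | 0 < z.re ∧ z.re < 2} :=
    (isOpen_lt continuous_const Complex.continuous_re).inter
      (isOpen_lt Complex.continuous_re continuous_const)
  have hd : DifferentiableOn ℂ gg {z : ℂ | 0 < z.re ∧ z.re < 2} := fun z hz =>
    (h1.1 z hz.1 hz.2).differentiableWithinAt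
  have hd2 := hd.deriv hopen
  have hsub : d1_K δ M ⊆ {z : ℂ | 0 < z.re ∧ z.re < 2} := by
    intro z hz
    exact ⟨by linarith [hz.1], by linarith [hz.2.1]⟩
  obtain ⟨C, hC⟩ := (d1_K_compact δ M).exists_bound_of_continuousOn
    (hd2.continuousOn.mono hsub)
  refine ⟨max C 0, le_max_right _ _, fun z w hz hw => ?_⟩
  refine Convex.norm_image_sub_le_of_norm_deriv_le (s := d1_K δ M) ?_ ?_ (d1_K_convex δ M) hw hz
  · intro x hx
    exact h1.1 x (hsub hx).1 (hsub hx).2
  · intro x hx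
    exact (hC x hx).trans (le_max_left _ _)

private theorem d1_tay (h2 : St_G1) (δ M C : ℝ) (hδ : 0 < δ) (hC0 : 0 ≤ C)
    (hC : ∀ z w : ℂ, z ∈ d1_K δ M → w ∈ d1_K δ M → ‖gg z - gg w‖ ≤ C * ‖z - w‖)
    (p h : ℂ) (hp : p ∈ d1_K δ M) (hph : p + h ∈ d1_K δ M) :
    ‖G1 (p + h) - G1 p - h * gg p‖ ≤ C * ‖h‖ ^ 2 := by
  have hseg : segment ℝ p (p + h) ⊆ d1_K δ M := (d1_K_convex δ M).segment_subset hp hph
  have hb : ∀ z ∈ segment ℝ p (p + h), ‖gg z - gg p‖ ≤ C * ‖h‖ := by
    intro z hz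
    refine (hC z p (hseg hz) hp).trans (mul_le_mul_of_nonneg_left ?_ hC0)
    rw [segment_eq_image'] at hz
    obtain ⟨t, ht, rfl⟩ := hz
    have : p + t • (p + h - p) - p = t • h := by rw [add_sub_cancel_left, add_sub_cancel_left]
    rw [this, norm_smul, Real.norm_eq_abs, abs_of_nonneg ht.1]
    exact mul_le_of_le_one_left (norm_nonneg _) ht.2
  have hderiv : ∀ z ∈ segment ℝ p (p + h),
      HasDerivWithinAt (fun z => G1 z - z * gg p) (gg z - gg p) (segment ℝ p (p + h)) z := by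
    intro z hz
    have hz' := hseg hz
    have e1 := h2.1 z (by linarith [hz'.1]) (by linarith [hz'.2.1])
    have e2 : HasDerivAt (fun z : ℂ => z * gg p) (1 * gg p) z := (hasDerivAt_id z).mul_const _
    rw [one_mul] at e2
    exact (e1.sub e2).hasDerivWithinAt
  have := Convex.norm_image_sub_le_of_norm_hasDerivWithin_le hderiv hb
    (convex_segment _ _) (left_mem_segment ℝ p (p + h)) (right_mem_segment ℝ p (p + h))
  have e3 : G1 (p + h) - (p + h) * gg p - (G1 p - p * gg p) = G1 (p + h) - G1 p - h * gg p := by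
    ring
  have e4 : p + h - p = h := by ring
  simp only [e3, e4] at this
  calc _ ≤ C * ‖h‖ * ‖h‖ := this
    _ = C * ‖h‖ ^ 2 := by ring

private theorem d1_cont (h2 : St_G1) (p q : ℂ) (hp0 : 0 < p.re) (hp1 : p.re < 2)
    (hq0 : 0 < (p + q).re) (hq1 : (p + q).re < 2) :
    IntervalIntegrable (fun τ : ℝ => G1 (p + (τ : ℂ) * q)) MeasureTheory.volume 0 1 := by
  refine ContinuousOn.intervalIntegrable ?_
  rw [Set.uIcc_of_le zero_le_one]
  intro τ hτ
  have e : 0 < (p + (τ : ℂ) * q).re ∧ (p + (τ : ℂ) * q).re < 2 := by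
    rw [Complex.add_re] at hq0 hq1
    have : (p + (τ : ℂ) * q).re = p.re + τ * q.re := by simp
    rw [this]
    constructor
    · nlinarith [hτ.1, hτ.2, mul_nonneg hτ.1 hq0.le, mul_nonneg (sub_nonneg.2 hτ.2) hp0.le]
    · nlinarith [hτ.1, hτ.2, mul_nonneg hτ.1 (sub_nonneg.2 hq1.le),
        mul_nonneg (sub_nonneg.2 hτ.2) (sub_nonneg.2 hp1.le)]
  have h3 : ContinuousAt G1 (p + (τ : ℂ) * q) := (h2.1 _ e.1 e.2).continuousAt
  have h4 : ContinuousAt (fun τ : ℝ => p + (τ : ℂ) * q) τ := by fun_prop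
  exact (ContinuousAt.comp (f := fun τ : ℝ => p + (τ : ℂ) * q) h3 h4).continuousWithinAt

/-- the mean of `G1` over a short interval -/
private theorem d1_mean (h2 : St_G1) (δ M C : ℝ) (hδ : 0 < δ) (hC0 : 0 ≤ C)
    (hC : ∀ z w : ℂ, z ∈ d1_K δ M → w ∈ d1_K δ M → ‖gg z - gg w‖ ≤ C * ‖z - w‖)
    (p q : ℂ) (hp : p ∈ d1_K δ M) (hpq : p + q ∈ d1_K δ M) :
    ‖(∫ τ in (0 : ℝ)..1, G1 (p + (τ : ℂ) * q)) - G1 p - (1 / 2) * q * gg p‖ ≤ C * ‖q‖ ^ 2 := by
  have hi := d1_cont h2 p q (by linarith [hp.1]) (by linarith [hp.2.1]) (by linarith [hpq.1])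
    (by linarith [hpq.2.1])
  have hmean : (∫ τ in (0 : ℝ)..1, (G1 p + (τ : ℂ) * (q * gg p))) =
      G1 p + (1 / 2) * q * gg p := by
    rw [intervalIntegral.integral_add (by simp) (by
      exact (Continuous.intervalIntegrable (by fun_prop) _ _))]
    rw [intervalIntegral.integral_mul_const, intervalIntegral.integral_ofReal, integral_id]
    simp
    ring
  have e : (∫ τ in (0 : ℝ)..1, G1 (p + (τ : ℂ) * q)) - G1 p - (1 / 2) * q * gg p =
      ∫ τ in (0 : ℝ)..1, (G1 (p + (τ : ℂ) * q) - G1 p - ((τ : ℂ) * q) * gg p) := by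
    have : (fun τ : ℝ => G1 (p + (τ : ℂ) * q) - G1 p - ((τ : ℂ) * q) * gg p) =
        fun τ : ℝ => G1 (p + (τ : ℂ) * q) - (G1 p + (τ : ℂ) * (q * gg p)) := by
      funext τ
      ring
    rw [this, intervalIntegral.integral_sub hi (Continuous.intervalIntegrable (by fun_prop) _ _),
      hmean]
    ring
  rw [e]
  have := intervalIntegral.norm_integral_le_of_norm_le_const (a := (0 : ℝ)) (b := 1)
    (C := C * ‖q‖ ^ 2)
    (f := fun τ : ℝ => G1 (p + (τ : ℂ) * q) - G1 p - ((τ : ℂ) * q) * gg p) ?_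
  · simpa using this
  · intro τ hτ
    rw [Set.uIoc_of_le zero_le_one] at hτ
    have hmem : p + (τ : ℂ) * q ∈ d1_K δ M := by
      have := (d1_K_convex δ M).segment_subset hp hpq
      refine this ?_
      rw [segment_eq_image']
      refine ⟨τ, ⟨hτ.1.le, hτ.2⟩, ?_⟩
      simp only [add_sub_cancel_left, Complex.real_smul]
    refine (d1_tay h2 δ M C hδ hC0 hC p _ hp hmem).trans (mul_le_mul_of_nonneg_left ?_ hC0)
    rw [norm_mul, Complex.norm_real, Real.norm_eq_abs, abs_of_nonneg hτ.1.le]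
    have e5 : τ * ‖q‖ ≤ ‖q‖ := mul_le_of_le_one_left (norm_nonneg q) hτ.2
    exact pow_le_pow_left₀ (mul_nonneg hτ.1.le (norm_nonneg q)) e5 2

/-- `N * Ph` as a sum -/
private theorem d1_Ph (h2 : St_G1) (N : ℕ) (hN : 0 < N) (u : ℂ) (hu0 : 0 < u.re)
    (hu1 : u.re < 1) :
    (N : ℂ) * Ph u = ∑ k ∈ range N, ∫ τ in (0 : ℝ)..1, G1 (u + k / N + (τ : ℂ) * (1 / N)) := by
  have hN' : (0 : ℝ) < N := Nat.cast_pos.2 hN
  have hNc : (N : ℂ) ≠ 0 := by exact_mod_cast hN.ne'
  have hterm : ∀ k ∈ range N, (∫ τ in (0 : ℝ)..1, G1 (u + k / N + (τ : ℂ) * (1 / N))) =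
      ∫ x in ((k : ℕ) : ℝ)..((k + 1 : ℕ) : ℝ), G1 (u + ((x / N : ℝ) : ℂ)) := by
    intro k _
    have := intervalIntegral.integral_comp_add_right (a := (0 : ℝ)) (b := 1)
      (f := fun x : ℝ => G1 (u + ((x / N : ℝ) : ℂ))) (k : ℝ)
    rw [zero_add] at this
    rw [Nat.cast_add, Nat.cast_one, add_comm (k : ℝ) 1, ← this]
    refine intervalIntegral.integral_congr fun τ _ => ?_
    show G1 _ = G1 _
    congr 1
    push_cast
    ring
  rw [sum_congr rfl hterm]
  rw [intervalIntegral.sum_integral_adjacent_intervals (a := fun k : ℕ => (k : ℝ))]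
  · simp only [Nat.cast_zero]
    have := intervalIntegral.integral_comp_div (a := (0 : ℝ)) (b := N)
      (f := fun x : ℝ => G1 (u + (x : ℂ))) hN'.ne'
    rw [this, zero_div, div_self hN'.ne']
    show _ = (N : ℝ) • Ph u
    rw [Complex.real_smul]
    simp
  · intro k hk
    refine ContinuousOn.intervalIntegrable ?_
    have hle : ((k : ℕ) : ℝ) ≤ ((k + 1 : ℕ) : ℝ) := by push_cast; linarith
    rw [Set.uIcc_of_le hle]
    intro x hx
    have hx0 : 0 ≤ x := le_trans (Nat.cast_nonneg k) hx.1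
    have hx1 : x ≤ N := hx.2.trans (by exact_mod_cast hk)
    have hre : (u + ((x / N : ℝ) : ℂ)).re = u.re + x / N := by
      rw [Complex.add_re, Complex.ofReal_re]
    have e : 0 < (u + ((x / N : ℝ) : ℂ)).re ∧ (u + ((x / N : ℝ) : ℂ)).re < 2 := by
      rw [hre]
      have h1 : 0 ≤ x / N := by positivity
      have h2 : x / N ≤ 1 := (div_le_one hN').2 hx1
      constructor <;> linarith
    have h3 : ContinuousAt G1 (u + ((x / N : ℝ) : ℂ)) := (h2.1 _ e.1 e.2).continuousAt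
    have h4 : ContinuousAt (fun x : ℝ => u + ((x / N : ℝ) : ℂ)) x := by fun_prop
    exact (ContinuousAt.comp (f := fun x : ℝ => u + ((x / N : ℝ) : ℂ)) h3 h4).continuousWithinAt

/-- the main estimate -/
private theorem d1_main (h2 : St_G1) (δ M C : ℝ) (hδ : 0 < δ) (hC0 : 0 ≤ C)
    (hC : ∀ z w : ℂ, z ∈ d1_K δ M → w ∈ d1_K δ M → ‖gg z - gg w‖ ≤ C * ‖z - w‖)
    (N : ℕ) (hN : 0 < N) (u : ℂ) (hu0 : δ ≤ u.re) (hu1 : u.re ≤ 1 - δ) (hM : 2 * |u.im| ≤ M) :
    ‖(LN N ((N + 1) * u) - N * Ph u) - (u - 1 / 2) * (G1 (u + 1) - G1 u)‖ ≤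
      (C * ‖u‖ ^ 2 + C + ‖u - 1 / 2‖ * C) / N := by
  have hN' : (0 : ℝ) < N := Nat.cast_pos.2 hN
  have hN1 : (1 : ℝ) ≤ N := by exact_mod_cast hN
  have hNc : (N : ℂ) ≠ 0 := by exact_mod_cast hN.ne'
  have hM0 : |u.im| ≤ M := by linarith [abs_nonneg u.im]
  -- the points
  have hpk : ∀ k : ℕ, k ≤ N → u + k / N ∈ d1_K δ M := by
    intro k hk
    have hre : (u + k / N : ℂ).re = u.re + k / N := by
      have : (k / N : ℂ) = ((k / N : ℝ) : ℂ) := by push_cast; rfl
      rw [this, Complex.add_re, Complex.ofReal_re]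
    have him : (u + k / N : ℂ).im = u.im := by
      have : (k / N : ℂ) = ((k / N : ℝ) : ℂ) := by push_cast; rfl
      rw [this, Complex.add_im, Complex.ofReal_im, add_zero]
    have h1 : (0 : ℝ) ≤ k / N := by positivity
    have h2 : (k : ℝ) / N ≤ 1 := (div_le_one hN').2 (by exact_mod_cast hk)
    refine ⟨?_, ?_, ?_⟩
    · rw [hre]; linarith
    · rw [hre]; linarith
    · rw [him]; exact hM0
  have hstep : ∀ k : ℕ, u + ((k + 1 : ℕ) : ℂ) / N = u + k / N + 1 / N := by
    intro k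
    push_cast
    ring
  have hqk : ∀ k ∈ range N, u + k / N + u / N ∈ d1_K δ M := by
    intro k hk
    have hk' : k + 1 ≤ N := mem_range.1 hk
    have e1 : (u + k / N + u / N : ℂ).re = u.re + (k + u.re) / N := by
      have : (u + k / N + u / N : ℂ) = u + ((1 / N : ℝ) : ℂ) * (k + u) := by
        push_cast
        ring
      rw [this, Complex.add_re, Complex.re_ofReal_mul, Complex.add_re, Complex.natCast_re]
      ring
    have e2 : (u + k / N + u / N : ℂ).im = u.im + u.im / N := by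
      have : (u + k / N + u / N : ℂ) = u + ((1 / N : ℝ) : ℂ) * (k + u) := by
        push_cast
        ring
      rw [this, Complex.add_im, Complex.im_ofReal_mul, Complex.add_im, Complex.natCast_im]
      ring
    have h1 : (0 : ℝ) ≤ (k + u.re) / N := by
      have : 0 ≤ u.re := by linarith
      positivity
    have h2 : ((k : ℝ) + u.re) / N ≤ 1 := by
      rw [div_le_one hN']
      have : ((k : ℝ) + 1) ≤ N := by exact_mod_cast hk'
      linarith
    refine ⟨?_, ?_, ?_⟩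
    · rw [e1]; linarith
    · rw [e1]; linarith
    · rw [e2]
      refine (abs_add_le _ _).trans ?_
      have : |u.im / N| ≤ |u.im| := by
        rw [abs_div, abs_of_pos hN']
        exact div_le_self (abs_nonneg _) hN1
      linarith
  -- termwise
  have hLN : LN N ((N + 1) * u) = ∑ k ∈ range N, G1 (u + k / N + u / N) := by
    unfold LN
    refine sum_congr rfl fun k _ => ?_
    congr 1
    field_simp
    ring
  have hPh := d1_Ph h2 N hN u (by linarith) (by linarith)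
  have htel : G1 (u + 1) - G1 u = ∑ k ∈ range N, (G1 (u + k / N + 1 / N) - G1 (u + k / N)) := by
    have := sum_range_sub (fun k : ℕ => G1 (u + k / N)) N
    simp only [Nat.cast_zero, zero_div, add_zero, div_self hNc] at this
    rw [← this]
    refine sum_congr rfl fun k _ => ?_
    rw [hstep]
  have hall : (LN N ((N + 1) * u) - N * Ph u) - (u - 1 / 2) * (G1 (u + 1) - G1 u) =
      ∑ k ∈ range N, ((G1 (u + k / N + u / N) - G1 (u + k / N) - u / N * gg (u + k / N)) -
        ((∫ τ in (0 : ℝ)..1, G1 (u + k / N + (τ : ℂ) * (1 / N))) - G1 (u + k / N) -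
          (1 / 2) * (1 / N) * gg (u + k / N)) -
        (u - 1 / 2) * (G1 (u + k / N + 1 / N) - G1 (u + k / N) - 1 / N * gg (u + k / N))) := by
    rw [hLN, hPh, htel, ← sum_sub_distrib, mul_sum, ← sum_sub_distrib]
    refine sum_congr rfl fun k _ => ?_
    ring
  rw [hall]
  have hn1 : ‖(1 / N : ℂ)‖ = 1 / N := by
    rw [norm_div, norm_one, Complex.norm_natCast]
  have hn2 : ‖(u / N : ℂ)‖ = ‖u‖ / N := by
    rw [norm_div, Complex.norm_natCast]
  have hbound : ∀ k ∈ range N,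
      ‖(G1 (u + k / N + u / N) - G1 (u + k / N) - u / N * gg (u + k / N)) -
        ((∫ τ in (0 : ℝ)..1, G1 (u + k / N + (τ : ℂ) * (1 / N))) - G1 (u + k / N) -
          (1 / 2) * (1 / N) * gg (u + k / N)) -
        (u - 1 / 2) * (G1 (u + k / N + 1 / N) - G1 (u + k / N) - 1 / N * gg (u + k / N))‖ ≤
      (C * ‖u‖ ^ 2 + C + ‖u - 1 / 2‖ * C) / N ^ 2 := by
    intro k hk
    have hk' : k + 1 ≤ N := mem_range.1 hk
    have b1 := d1_tay h2 δ M C hδ hC0 hC (u + k / N) (u / N) (hpk k (by omega)) (hqk k hk)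
    have hmem1 : u + k / N + 1 / N ∈ d1_K δ M := by
      rw [← hstep]
      exact hpk (k + 1) hk'
    have b2 := d1_mean h2 δ M C hδ hC0 hC (u + k / N) (1 / N) (hpk k (by omega)) hmem1
    have b3 := d1_tay h2 δ M C hδ hC0 hC (u + k / N) (1 / N) (hpk k (by omega)) hmem1
    rw [hn2] at b1
    rw [hn1] at b2 b3
    refine (norm_sub_le _ _).trans ?_
    refine (add_le_add_left (norm_sub_le _ _) _).trans ?_
    rw [norm_mul]
    have b4 := mul_le_mul_of_nonneg_left b3 (norm_nonneg (u - 1 / 2))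
    calc _ ≤ C * (‖u‖ / N) ^ 2 + C * (1 / N) ^ 2 + ‖u - 1 / 2‖ * (C * (1 / N) ^ 2) :=
          add_le_add (add_le_add b1 b2) b4
      _ = _ := by
          field_simp
  refine (norm_sum_le _ _).trans ((sum_le_sum hbound).trans ?_)
  rw [sum_const, card_range, nsmul_eq_mul]
  apply le_of_eq
  field_simp

/-- keep this signature -/
theorem thm_D1 (h1 : St_GG) (h2 : St_G1) (h3 : St_GL) : St_D1 := by
  intro u₀ u hu0 hu1 hu
  obtain ⟨δ, hδ, hδ0, hδ1⟩ : ∃ δ : ℝ, 0 < δ ∧ δ < u₀.re ∧ u₀.re < 1 - δ := by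
    refine ⟨min u₀.re (1 - u₀.re) / 2, by
      have : 0 < min u₀.re (1 - u₀.re) := lt_min hu0 (by linarith)
      linarith, ?_, ?_⟩
    · have := min_le_left u₀.re (1 - u₀.re)
      linarith
    · have := min_le_right u₀.re (1 - u₀.re)
      linarith
  obtain ⟨C, hC0, hC⟩ := d1_lip h1 δ (2 * |u₀.im| + 2) hδ
  rw [← h3 u₀ hu0 hu1]
  have hre : Tendsto (fun N => (u N).re) atTop (nhds u₀.re) :=
    (Complex.continuous_re.tendsto u₀).comp hu
  have him : Tendsto (fun N => |(u N).im|) atTop (nhds |u₀.im|) :=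
    ((continuous_abs.comp Complex.continuous_im).tendsto u₀).comp hu
  -- the main term
  have hc1 : ContinuousAt G1 (u₀ + 1) := by
    refine (h2.1 (u₀ + 1) ?_ ?_).continuousAt
    · rw [Complex.add_re, Complex.one_re]; linarith
    · rw [Complex.add_re, Complex.one_re]; linarith
  have hc2 : ContinuousAt G1 u₀ := (h2.1 u₀ hu0 (by linarith)).continuousAt
  have hmain : Tendsto (fun N => (u N - 1 / 2) * (G1 (u N + 1) - G1 (u N))) atTop
      (nhds ((u₀ - 1 / 2) * (G1 (u₀ + 1) - G1 u₀))) := by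
    refine (hu.sub_const _).mul (Tendsto.sub ?_ (hc2.tendsto.comp hu))
    exact hc1.tendsto.comp (hu.add_const 1)
  -- the error
  have herr : Tendsto (fun N : ℕ => (LN N ((N + 1) * u N) - N * Ph (u N)) -
      (u N - 1 / 2) * (G1 (u N + 1) - G1 (u N))) atTop (nhds 0) := by
    rw [tendsto_zero_iff_norm_tendsto_zero]
    have hlim : Tendsto (fun N : ℕ => (C * ‖u N‖ ^ 2 + C + ‖u N - 1 / 2‖ * C) / N) atTop
        (nhds 0) := by
      have hnum : Tendsto (fun N : ℕ => C * ‖u N‖ ^ 2 + C + ‖u N - 1 / 2‖ * C) atTop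
          (nhds (C * ‖u₀‖ ^ 2 + C + ‖u₀ - 1 / 2‖ * C)) := by
        refine Tendsto.add (Tendsto.add ?_ tendsto_const_nhds) ?_
        · exact (hu.norm.pow 2).const_mul C
        · exact ((hu.sub_const _).norm).mul_const C
      exact hnum.div_atTop tendsto_natCast_atTop_atTop
    refine squeeze_zero' (Eventually.of_forall fun _ => norm_nonneg _) ?_ hlim
    have ev1 : ∀ᶠ N in atTop, δ < (u N).re := hre.eventually_const_lt hδ0
    have ev2 : ∀ᶠ N in atTop, (u N).re < 1 - δ := hre.eventually_lt_const hδ1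
    have ev3 : ∀ᶠ N in atTop, |(u N).im| < |u₀.im| + 1 := him.eventually_lt_const (by linarith)
    filter_upwards [ev1, ev2, ev3, eventually_gt_atTop 0] with N e1 e2 e3 hN
    exact d1_main h2 δ _ C hδ hC0 hC N hN (u N) e1.le e2.le (by linarith)
  have := herr.add hmain
  rw [zero_add] at this
  refine this.congr fun N => ?_
  ring

end Pool.Agent.PAN
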