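import Mathlib
import Pool.Agent.PAN.Stmts

set_option autoImplicit false

/-!
# PAN / E0: real part of the limit function
-/

namespace Pool.Agent.PAN

open Finset Filter

private theorem e0_arg {w : ℂ} (h : 0 < w.re) : w.arg = Real.arctan (w.im / w.re) := by
  have h1 : |w.arg| < Real.pi / 2 := Complex.abs_arg_lt_pi_div_two_iff.2 (Or.inl h)
  rw [← Complex.tan_arg]
  exact (Real.arctan_tan (abs_lt.1 h1).1 (abs_lt.1 h1).2).symm

/-- keep this signature -/
theorem thm_E0 (h : St_Ph) : St_E0 := by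
  intro a y ha0 ha1
  have hpi := Real.pi_pos
  have hpic : (Real.pi : ℂ) ≠ 0 := by exact_mod_cast hpi.ne'
  have hsa : 0 < Real.sin a := Real.sin_pos_of_pos_of_lt_pi ha0 ha1
  have hre : ∀ s : ℝ, (((a : ℂ) + (s : ℂ) * Complex.I) / Real.pi).re = a / Real.pi := by
    intro s
    rw [Complex.div_ofReal_re]; simp
  have hder : ∀ s : ℝ, HasDerivAt
      (fun s : ℝ => (Ph (((a : ℂ) + (s : ℂ) * Complex.I) / Real.pi)).re)
      (-(1 / Real.pi) * Real.arctan (Real.cos a / Real.sin a * Real.tanh s)) s := by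
    intro s
    have a1 := h.1 (((a : ℂ) + (s : ℂ) * Complex.I) / Real.pi)
      (by rw [hre]; positivity) (by rw [hre, div_lt_one hpi]; exact ha1)
    have a2 : HasDerivAt (fun s : ℝ => ((a : ℂ) + (s : ℂ) * Complex.I) / Real.pi)
        (Complex.I / Real.pi) s := by
      have a3 : HasDerivAt (fun s : ℝ => (s : ℂ)) 1 s := Complex.ofRealCLM.hasDerivAt
      simpa using ((a3.mul_const Complex.I).const_add (a : ℂ)).div_const (Real.pi : ℂ)
    have a4 := HasDerivAt.comp s a1 a2
    have a5 : HasDerivAt (fun s : ℝ => (Ph (((a : ℂ) + (s : ℂ) * Complex.I) / Real.pi)).re)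
        (Complex.log (2 * Complex.sin (Real.pi * (((a : ℂ) + (s : ℂ) * Complex.I) / Real.pi))) *
          (Complex.I / Real.pi)).re s := Complex.reCLM.hasFDerivAt.comp_hasDerivAt s a4
    refine a5.congr_deriv ?_
    have e1 : (Real.pi : ℂ) * (((a : ℂ) + (s : ℂ) * Complex.I) / Real.pi) =
        (a : ℂ) + (s : ℂ) * Complex.I := by field_simp
    have e2 : 2 * Complex.sin ((a : ℂ) + (s : ℂ) * Complex.I) =
        ((2 * (Real.sin a * Real.cosh s) : ℝ) : ℂ) +
        ((2 * (Real.cos a * Real.sinh s) : ℝ) : ℂ) * Complex.I := by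
      rw [Complex.sin_add, Complex.cos_mul_I, Complex.sin_mul_I, ← Complex.ofReal_sin,
        ← Complex.ofReal_cos, ← Complex.ofReal_cosh, ← Complex.ofReal_sinh]
      push_cast
      ring
    have e3 : (2 * Complex.sin ((a : ℂ) + (s : ℂ) * Complex.I)).re =
        2 * (Real.sin a * Real.cosh s) := by
      rw [e2, Complex.add_re, Complex.ofReal_re, Complex.re_ofReal_mul, Complex.I_re, mul_zero,
        add_zero]
    have e4 : (2 * Complex.sin ((a : ℂ) + (s : ℂ) * Complex.I)).im =
        2 * (Real.cos a * Real.sinh s) := by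
      rw [e2, Complex.add_im, Complex.ofReal_im, Complex.im_ofReal_mul, Complex.I_im, mul_one,
        zero_add]
    have hc := Real.cosh_pos s
    have e5 : Complex.I / (Real.pi : ℂ) = ((1 / Real.pi : ℝ) : ℂ) * Complex.I := by
      push_cast; ring
    rw [e1, e5]
    have e6 : ∀ z : ℂ, (z * (((1 / Real.pi : ℝ) : ℂ) * Complex.I)).re = -(1 / Real.pi) * z.im := by
      intro z
      have e7 : z * (((1 / Real.pi : ℝ) : ℂ) * Complex.I) =
          ((1 / Real.pi : ℝ) : ℂ) * (z * Complex.I) := by ring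
      rw [e7, Complex.re_ofReal_mul, Complex.mul_I_re]
      ring
    rw [e6, Complex.log_im, e0_arg (by rw [e3]; positivity), e3, e4, Real.tanh_eq_sinh_div_cosh]
    congr 2
    field_simp
  have hcont : Continuous (fun s : ℝ =>
      -(1 / Real.pi) * Real.arctan (Real.cos a / Real.sin a * Real.tanh s)) := by
    have h1 : Continuous Real.tanh := by
      have : Real.tanh = fun x => Real.sinh x / Real.cosh x :=
        funext Real.tanh_eq_sinh_div_cosh
      rw [this]
      exact Real.continuous_sinh.div Real.continuous_cosh fun x => (Real.cosh_pos x).ne'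
    exact continuous_const.mul (Real.continuous_arctan.comp (continuous_const.mul h1))
  have hftc := intervalIntegral.integral_eq_sub_of_hasDerivAt (a := (0 : ℝ)) (b := y)
    (fun s _ => hder s) (hcont.intervalIntegrable _ _)
  rw [intervalIntegral.integral_const_mul] at hftc
  have h0 : (Ph (((a : ℂ) + ((0 : ℝ) : ℂ) * Complex.I) / Real.pi)).re = -(Lob a / Real.pi) := by
    have e1 : ((a : ℂ) + ((0 : ℝ) : ℂ) * Complex.I) / Real.pi = ((a / Real.pi : ℝ) : ℂ) := by
      push_cast; ring
    rw [e1, h.2 (a / Real.pi) (by positivity) (by rw [div_lt_one hpi]; exact ha1),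
      Complex.ofReal_re]
    have e2 : Real.pi * (a / Real.pi) = a := by field_simp
    rw [e2]
  rw [h0] at hftc
  have h2 : EE a y = ∫ s in (0 : ℝ)..y, Real.arctan (Real.cos a / Real.sin a * Real.tanh s) := rfl
  rw [h2]
  have h3 : (Ph (((a : ℂ) + (y : ℂ) * Complex.I) / Real.pi)).re = -(Lob a / Real.pi) +
      -(1 / Real.pi) * ∫ s in (0 : ℝ)..y, Real.arctan (Real.cos a / Real.sin a * Real.tanh s) := by
    rw [hftc]; ring
  rw [h3]
  ring

end Pool.Agent.PAN
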