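import Mathlib
import Pool.Agent.PAN.Stmts

set_option autoImplicit false

/-!
# PAN / E1: growth of EE
-/

namespace Pool.Agent.PAN

open Finset Filter

/-- `arctan` is 1-Lipschitz -/
theorem e1_lip (x y : ℝ) : |Real.arctan x - Real.arctan y| ≤ |x - y| := by
  have h := Convex.norm_image_sub_le_of_norm_deriv_le (𝕜 := ℝ) (f := Real.arctan)
    (s := Set.univ) (C := 1) (x := y) (y := x)
    (fun z _ => (Real.hasDerivAt_arctan z).differentiableAt)
    (fun z _ => by
      rw [(Real.hasDerivAt_arctan z).deriv, Real.norm_eq_abs, abs_of_pos (by positivity),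
        div_le_one (by positivity)]
      nlinarith [sq_nonneg z])
    convex_univ (Set.mem_univ _) (Set.mem_univ _)
  rwa [one_mul, Real.norm_eq_abs, Real.norm_eq_abs] at h

theorem e1_cont_tanh : Continuous Real.tanh := by
  have : Real.tanh = fun x => Real.sinh x / Real.cosh x :=
    funext Real.tanh_eq_sinh_div_cosh
  rw [this]
  exact Real.continuous_sinh.div Real.continuous_cosh fun x => (Real.cosh_pos x).ne'

theorem e1_cont (a : ℝ) : Continuous
    (fun s : ℝ => Real.arctan (Real.cos a / Real.sin a * Real.tanh s)) :=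
  Real.continuous_arctan.comp (continuous_const.mul e1_cont_tanh)

theorem e1_deriv (a y : ℝ) : HasDerivAt (fun y => EE a y)
    (Real.arctan (Real.cos a / Real.sin a * Real.tanh y)) y :=
  intervalIntegral.integral_hasDerivAt_right ((e1_cont a).intervalIntegrable _ _)
    (e1_cont a).stronglyMeasurable.stronglyMeasurableAtFilter (e1_cont a).continuousAt

theorem e1_even (a y : ℝ) : EE a (-y) = EE a y := by
  have h := intervalIntegral.integral_comp_neg (a := (0 : ℝ)) (b := y)
    (fun s : ℝ => Real.arctan (Real.cos a / Real.sin a * Real.tanh s))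
  unfold EE
  rw [neg_zero] at h
  rw [intervalIntegral.integral_symm, ← h, ← intervalIntegral.integral_neg]
  refine intervalIntegral.integral_congr fun s _ => ?_
  show -Real.arctan (Real.cos a / Real.sin a * Real.tanh (-s)) =
    Real.arctan (Real.cos a / Real.sin a * Real.tanh s)
  rw [Real.tanh_neg, mul_neg, Real.arctan_neg, neg_neg]

theorem e1_arctan {a : ℝ} (h0 : 0 < a) (h1 : a < Real.pi) :
    Real.arctan (Real.cos a / Real.sin a) = Real.pi / 2 - a := by
  have h2 : Real.cos a / Real.sin a = Real.tan (Real.pi / 2 - a) := by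
    rw [Real.tan_eq_sin_div_cos, Real.sin_pi_div_two_sub, Real.cos_pi_div_two_sub]
  rw [h2, Real.arctan_tan (by linarith) (by linarith)]

theorem e1_tanh {s : ℝ} (hs : 0 ≤ s) : |1 - Real.tanh s| ≤ Real.exp (-s) := by
  have hc := Real.one_le_cosh s
  have e : 1 - Real.tanh s = Real.exp (-s) / Real.cosh s := by
    rw [Real.tanh_eq_sinh_div_cosh, ← Real.cosh_sub_sinh]
    field_simp
  rw [e, abs_of_pos (by positivity)]
  exact div_le_self (Real.exp_pos _).le hc

/-- keep this signature -/
theorem thm_E1 : St_E1 := by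
  intro δ hδ
  have hcont : ContinuousOn (fun a : ℝ => Real.cos a / Real.sin a) (Set.Icc δ (Real.pi - δ)) := by
    refine ContinuousOn.div Real.continuous_cos.continuousOn Real.continuous_sin.continuousOn ?_
    intro a ha
    exact (Real.sin_pos_of_pos_of_lt_pi (by linarith [ha.1]) (by linarith [ha.2])).ne'
  obtain ⟨M, hM⟩ := isCompact_Icc.exists_bound_of_continuousOn hcont
  have key : ∀ a y : ℝ, δ ≤ a → a ≤ Real.pi - δ → 0 ≤ y →
      |EE a y - (Real.pi / 2 - a) * y| ≤ |M| := by
    intro a y h1 h2 hy
    have hk : |Real.cos a / Real.sin a| ≤ |M| := (hM a ⟨h1, h2⟩).trans (le_abs_self M)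
    have hat := e1_arctan (a := a) (by linarith) (by linarith)
    have hB := image_norm_le_of_norm_deriv_right_le_deriv_boundary (a := (0 : ℝ)) (b := y)
      (f := fun y : ℝ => EE a y - (Real.pi / 2 - a) * y)
      (f' := fun y : ℝ => Real.arctan (Real.cos a / Real.sin a * Real.tanh y) -
        (Real.pi / 2 - a))
      (B := fun y : ℝ => |M| * (1 - Real.exp (-y)))
      (B' := fun y : ℝ => |M| * Real.exp (-y))
      (fun y _ => ((e1_deriv a y).sub ((hasDerivAt_id y).const_mul
        (Real.pi / 2 - a))).continuousAt.continuousWithinAt)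
      (fun y _ => by
        have h3 := (e1_deriv a y).sub ((hasDerivAt_id y).const_mul (Real.pi / 2 - a))
        rw [mul_one] at h3
        exact h3.hasDerivWithinAt)
      (by
        have h3 : EE a 0 = 0 := by unfold EE; simp
        rw [h3]; simp)
      (fun y => by
        have h3 : HasDerivAt (fun y : ℝ => Real.exp (-y)) (Real.exp (-y) * (-1)) y :=
          (hasDerivAt_neg y).exp
        have h4 := (h3.const_sub 1).const_mul |M|
        refine h4.congr_deriv ?_
        ring)
      (fun s hs => by
        rw [Real.norm_eq_abs, ← hat]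
        refine (e1_lip _ _).trans ?_
        have e1 : Real.cos a / Real.sin a * Real.tanh s - Real.cos a / Real.sin a =
            -(Real.cos a / Real.sin a * (1 - Real.tanh s)) := by ring
        rw [e1, abs_neg, abs_mul]
        exact mul_le_mul hk (e1_tanh hs.1) (abs_nonneg _) (abs_nonneg _))
      (x := y) ⟨hy, le_refl _⟩
    rw [Real.norm_eq_abs] at hB
    refine hB.trans ?_
    have h5 := Real.exp_pos (-y)
    nlinarith [abs_nonneg M]
  refine ⟨|M| + 1, by positivity, fun a y h1 h2 => ?_⟩
  rcases le_total 0 y with h3 | h3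
  · rw [abs_of_nonneg h3]
    linarith [key a y h1 h2 h3]
  · rw [abs_of_nonpos h3, ← e1_even]
    linarith [key a (-y) h1 h2 (by linarith)]

end Pool.Agent.PAN
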