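import Mathlib
import Pool.Agent.PAN.Stmts

set_option autoImplicit false

/-!
# PAN / E2: the tetrahedron inequality, infinitesimal form
-/

namespace Pool.Agent.PAN

open Finset Filter

private lemma e2_arctan {M u w : ℝ} (hu : |u| ≤ M) (hw : |w| ≤ M) (h : w ≤ u) :
    (u - w) / (1 + M ^ 2) ≤ Real.arctan u - Real.arctan w := by
  have h1 := (convex_Icc (-M) M).mul_sub_le_image_sub_of_le_deriv (f := Real.arctan)
    (C := 1 / (1 + M ^ 2)) Real.continuous_arctan.continuousOn
    Real.differentiable_arctan.differentiableOn (by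
      intro x hx
      rw [interior_Icc] at hx
      rw [Real.deriv_arctan]
      apply one_div_le_one_div_of_le (by positivity)
      have : x ^ 2 ≤ M ^ 2 := by
        apply sq_le_sq'
        · exact hx.1.le
        · exact hx.2.le
      linarith) w (abs_le.1 hw) u (abs_le.1 hu) h
  calc (u - w) / (1 + M ^ 2) = 1 / (1 + M ^ 2) * (u - w) := by ring
    _ ≤ _ := h1

private lemma e2_sinh_le {t : ℝ} (ht : 0 ≤ t) : Real.sinh t ≤ t * Real.cosh t := by
  have h1 : MonotoneOn (fun t : ℝ => t * Real.cosh t - Real.sinh t) (Set.Ici 0) := by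
    apply monotoneOn_of_deriv_nonneg (convex_Ici 0)
    · exact ((continuous_id.mul Real.continuous_cosh).sub Real.continuous_sinh).continuousOn
    · exact ((differentiable_id.mul Real.differentiable_cosh).sub
        Real.differentiable_sinh).differentiableOn
    · intro x hx
      rw [interior_Ici] at hx
      have h2 : HasDerivAt (fun t : ℝ => t * Real.cosh t - Real.sinh t)
          (1 * Real.cosh x + x * Real.sinh x - Real.cosh x) x :=
        ((hasDerivAt_id x).mul (Real.hasDerivAt_cosh x)).sub (Real.hasDerivAt_sinh x)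
      rw [h2.deriv]
      have h3 : 0 ≤ x * Real.sinh x := mul_nonneg (le_of_lt hx) (Real.sinh_nonneg_iff.2 (le_of_lt hx))
      linarith
  have h2 := h1 (Set.mem_Ici.2 le_rfl) (Set.mem_Ici.2 ht) ht
  simp only [zero_mul, Real.sinh_zero, sub_zero] at h2
  linarith

/-- concavity of `tanh` -/
private lemma e2_conc {s t : ℝ} (hs : 0 ≤ s) (ht : 0 ≤ t) :
    s * Real.tanh (s + t) ≤ (s + t) * Real.tanh s := by
  rw [Real.tanh_eq_sinh_div_cosh, Real.tanh_eq_sinh_div_cosh, ← mul_div_assoc, ← mul_div_assoc,
    div_le_div_iff₀ (Real.cosh_pos _) (Real.cosh_pos _)]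
  have h1 : Real.sinh (s + t) * Real.cosh s - Real.cosh (s + t) * Real.sinh s = Real.sinh t := by
    rw [← Real.sinh_sub]; congr 1; ring
  have h2 : s ≤ Real.sinh s := Real.self_le_sinh_iff.2 hs
  have h3 := e2_sinh_le ht
  have h4 : Real.cosh t ≤ Real.cosh (s + t) := by
    rw [Real.cosh_le_cosh, abs_of_nonneg ht, abs_of_nonneg (by linarith)]
    linarith
  have h5 : s * Real.sinh t ≤ t * Real.sinh s * Real.cosh (s + t) := by
    have hst : 0 ≤ Real.sinh t := Real.sinh_nonneg_iff.2 ht
    have hss : 0 ≤ Real.sinh s := Real.sinh_nonneg_iff.2 hs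
    calc s * Real.sinh t ≤ Real.sinh s * (t * Real.cosh t) :=
          mul_le_mul h2 h3 hst hss
      _ ≤ Real.sinh s * (t * Real.cosh (s + t)) := by
          apply mul_le_mul_of_nonneg_left _ hss
          exact mul_le_mul_of_nonneg_left h4 ht
      _ = t * Real.sinh s * Real.cosh (s + t) := by ring
  nlinarith

private lemma e2_tanh_nonneg {s : ℝ} (hs : 0 ≤ s) : 0 ≤ Real.tanh s := by
  rw [Real.tanh_eq_sinh_div_cosh]
  exact div_nonneg (Real.sinh_nonneg_iff.2 hs) (Real.cosh_pos _).le

private lemma e2_tanh_lt (s : ℝ) : Real.tanh s < 1 :=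
  (Real.tanh_bijOn.mapsTo (Set.mem_univ s)).2

private lemma e2_tanh_mono {s t : ℝ} (ht : 0 ≤ t) : Real.tanh s ≤ Real.tanh (s + t) := by
  rw [Real.tanh_eq_sinh_div_cosh, Real.tanh_eq_sinh_div_cosh,
    div_le_div_iff₀ (Real.cosh_pos _) (Real.cosh_pos _)]
  have h1 : Real.sinh (s + t) * Real.cosh s - Real.cosh (s + t) * Real.sinh s = Real.sinh t := by
    rw [← Real.sinh_sub]; congr 1; ring
  have hst : 0 ≤ Real.sinh t := Real.sinh_nonneg_iff.2 ht
  nlinarith

private lemma e2_convex : ConvexOn ℝ Set.univ (fun x : ℝ => x * Real.arctan x) := by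
  have hd : ∀ x : ℝ, HasDerivAt (fun x : ℝ => x * Real.arctan x)
      (1 * Real.arctan x + x * (1 / (1 + x ^ 2))) x := fun x =>
    (hasDerivAt_id x).mul (Real.hasDerivAt_arctan x)
  have hd2 : ∀ x : ℝ, HasDerivAt (fun x : ℝ => 1 * Real.arctan x + x * (1 / (1 + x ^ 2)))
      (2 / (1 + x ^ 2) ^ 2) x := by
    intro x
    have hne : (1 + x ^ 2) ≠ 0 := by positivity
    have h1 : HasDerivAt (fun x : ℝ => 1 + x ^ 2) (2 * x) x := by
      have := (hasDerivAt_pow 2 x).const_add 1
      simpa using this
    have h2 : HasDerivAt (fun x : ℝ => x / (1 + x ^ 2))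
        ((1 * (1 + x ^ 2) - x * (2 * x)) / (1 + x ^ 2) ^ 2) x :=
      (hasDerivAt_id x).div h1 hne
    have h3 := (Real.hasDerivAt_arctan x).add h2
    have h4 : (fun x : ℝ => 1 * Real.arctan x + x * (1 / (1 + x ^ 2))) =
        (Real.arctan + fun x : ℝ => x / (1 + x ^ 2)) := by
      funext y
      simp only [Pi.add_apply]
      ring
    rw [h4]
    refine h3.congr_deriv ?_
    field_simp
    ring
  have hderiv : deriv (fun x : ℝ => x * Real.arctan x) =
      fun x : ℝ => 1 * Real.arctan x + x * (1 / (1 + x ^ 2)) := funext fun x => (hd x).deriv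
  apply MonotoneOn.convexOn_of_deriv convex_univ
  · exact (continuous_id.mul Real.continuous_arctan).continuousOn
  · exact fun x _ => (hd x).differentiableAt.differentiableWithinAt
  · rw [hderiv]
    apply Monotone.monotoneOn
    apply monotone_of_deriv_nonneg
    · exact fun x => (hd2 x).differentiableAt
    · intro x
      rw [(hd2 x).deriv]
      positivity

/-- Jensen's inequality for `x arctan x` -/
private lemma e2_jensen {X Y p q : ℝ} (hX : 0 ≤ X) (hY : 0 ≤ Y) (hp : 0 ≤ p) (hq : 0 ≤ q)
    (hpq : p + q = 1) : Real.arctan (X * Y / (X + Y)) ≤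
      p * Real.arctan (p * X) + q * Real.arctan (q * Y) := by
  have hnn : 0 ≤ p * Real.arctan (p * X) + q * Real.arctan (q * Y) := by
    apply add_nonneg
    · exact mul_nonneg hp (Real.arctan_nonneg.2 (mul_nonneg hp hX))
    · exact mul_nonneg hq (Real.arctan_nonneg.2 (mul_nonneg hq hY))
  rcases eq_or_lt_of_le hX with h | hX0
  · rw [← h]; simpa using (by rw [← h] at hnn; simpa using hnn)
  · rcases eq_or_lt_of_le hY with h | hY0
    · rw [← h, mul_zero, zero_div, Real.arctan_zero]
      rw [← h] at hnn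
      exact hnn
    · have hS : 0 < X + Y := by linarith
      have h1 := e2_convex.2 (Set.mem_univ (p * X)) (Set.mem_univ (q * Y))
        (show 0 ≤ Y / (X + Y) by positivity) (show 0 ≤ X / (X + Y) by positivity)
        (by rw [← add_div, add_comm, div_self hS.ne'])
      simp only [smul_eq_mul] at h1
      have h2 : Y / (X + Y) * (p * X) + X / (X + Y) * (q * Y) = X * Y / (X + Y) := by
        have : Y / (X + Y) * (p * X) + X / (X + Y) * (q * Y) = (p + q) * (X * Y / (X + Y)) := by
          ring
        rw [this, hpq, one_mul]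
      rw [h2] at h1
      have hr : 0 < X * Y / (X + Y) := by positivity
      have h3 : Y / (X + Y) * (p * X * Real.arctan (p * X)) +
          X / (X + Y) * (q * Y * Real.arctan (q * Y)) =
          X * Y / (X + Y) * (p * Real.arctan (p * X) + q * Real.arctan (q * Y)) := by ring
      rw [h3] at h1
      exact le_of_mul_le_mul_left h1 hr

private lemma e2_sin {δ x : ℝ} (hδ : 0 < δ) (h1 : δ ≤ x) (h2 : x ≤ Real.pi - δ) :
    Real.sin δ ≤ Real.sin x := by
  rcases le_or_gt x (Real.pi / 2) with h | h
  · exact Real.sin_le_sin_of_le_of_le_pi_div_two (by linarith [Real.pi_pos]) h h1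
  · rw [← Real.sin_pi_sub x]
    exact Real.sin_le_sin_of_le_of_le_pi_div_two (by linarith [Real.pi_pos]) (by linarith)
      (by linarith)

private lemma e2_cot {δ x : ℝ} (hδ : 0 < δ) (hsδ : 0 < Real.sin δ) (h1 : δ ≤ x)
    (h2 : x ≤ Real.pi - δ) : |Real.cos x / Real.sin x| ≤ 1 / Real.sin δ := by
  have h3 := e2_sin hδ h1 h2
  rw [abs_div, abs_of_pos (lt_of_lt_of_le hsδ h3)]
  exact div_le_div₀ zero_le_one (Real.abs_cos_le_one x) hsδ h3

/-- case of two cotangents `≥ 0` -/
private lemma e2_i {K ka kb kc s t : ℝ} (hK : 0 < K) (ha : 0 ≤ ka) (hb : 0 ≤ kb) (haK : ka ≤ K)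
    (hbK : kb ≤ K) (hcK : |kc| ≤ K) (hab : 0 < ka + kb) (hc : kc = (1 - ka * kb) / (ka + kb))
    (hs : 0 ≤ s) (ht : 0 ≤ t) :
    (s + t) * Real.tanh (s + t) / (2 * K * (1 + K ^ 2)) ≤
      s * Real.arctan (ka * Real.tanh s) + t * Real.arctan (kb * Real.tanh t) +
        (s + t) * Real.arctan (kc * Real.tanh (s + t)) := by
  rcases eq_or_lt_of_le (add_nonneg hs ht) with h0 | h0
  · have hs0 : s = 0 := by linarith
    have ht0 : t = 0 := by linarith
    subst hs0 ht0
    simp
  · set T := Real.tanh (s + t) with hT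
    have hT0 : 0 ≤ T := e2_tanh_nonneg h0.le
    have hTpos : 0 < T := by
      rw [hT, Real.tanh_eq_sinh_div_cosh]
      exact div_pos (Real.sinh_pos_iff.2 h0) (Real.cosh_pos _)
    have hT1 : T < 1 := e2_tanh_lt _
    set p := s / (s + t) with hp
    set q := t / (s + t) with hq
    have hp0 : 0 ≤ p := div_nonneg hs h0.le
    have hq0 : 0 ≤ q := div_nonneg ht h0.le
    have hpq : p + q = 1 := by rw [hp, hq, ← add_div, div_self h0.ne']
    have h1 : p * T ≤ Real.tanh s := by
      rw [hp, div_mul_eq_mul_div, div_le_iff₀ h0, mul_comm (Real.tanh s)]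
      exact e2_conc hs ht
    have h2 : q * T ≤ Real.tanh t := by
      rw [hq, div_mul_eq_mul_div, div_le_iff₀ h0, mul_comm (Real.tanh t)]
      have := e2_conc ht hs
      rw [add_comm t s] at this
      exact this
    have h3 : s * Real.arctan (p * (ka * T)) ≤ s * Real.arctan (ka * Real.tanh s) := by
      apply mul_le_mul_of_nonneg_left _ hs
      apply Real.arctan_strictMono.monotone
      calc p * (ka * T) = ka * (p * T) := by ring
        _ ≤ ka * Real.tanh s := mul_le_mul_of_nonneg_left h1 ha
    have h4 : t * Real.arctan (q * (kb * T)) ≤ t * Real.arctan (kb * Real.tanh t) := by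
      apply mul_le_mul_of_nonneg_left _ ht
      apply Real.arctan_strictMono.monotone
      calc q * (kb * T) = kb * (q * T) := by ring
        _ ≤ kb * Real.tanh t := mul_le_mul_of_nonneg_left h2 hb
    have h5 := e2_jensen (mul_nonneg ha hT0) (mul_nonneg hb hT0) hp0 hq0 hpq
    set u := ka * T * (kb * T) / (ka * T + kb * T) with hu
    have hu1 : u = ka * kb * T / (ka + kb) := by
      rw [hu]
      field_simp
    have hw1 : -(kc * T) = u - T / (ka + kb) := by
      rw [hu1, hc]
      field_simp
      ring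
    have hu0 : 0 ≤ u := by rw [hu1]; positivity
    have huK : u ≤ K := by
      rw [hu1, div_le_iff₀ hab]
      have h6 : ka * kb * T ≤ ka * kb * 1 := mul_le_mul_of_nonneg_left hT1.le (mul_nonneg ha hb)
      have h7 : ka * kb ≤ K * kb := mul_le_mul_of_nonneg_right haK hb
      nlinarith
    have hwK : |-(kc * T)| ≤ K := by
      rw [abs_neg, abs_mul, abs_of_nonneg hT0]
      calc |kc| * T ≤ K * 1 := mul_le_mul hcK hT1.le hT0 hK.le
        _ = K := mul_one K
    have h6 : -(kc * T) ≤ u := by
      rw [hw1]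
      have : 0 ≤ T / (ka + kb) := by positivity
      linarith
    have h7 := e2_arctan (M := K) (by rw [abs_of_nonneg hu0]; exact huK) hwK h6
    have h7e : Real.arctan u - Real.arctan (-(kc * T)) = Real.arctan u + Real.arctan (kc * T) := by
      rw [Real.arctan_neg]; ring
    rw [h7e] at h7
    have h8 : T / (2 * K * (1 + K ^ 2)) ≤ (u - -(kc * T)) / (1 + K ^ 2) := by
      rw [hw1]
      have h9 : u - (u - T / (ka + kb)) = T / (ka + kb) := by ring
      rw [h9, div_div]
      apply div_le_div_of_nonneg_left hT0 (by positivity)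
      apply mul_le_mul_of_nonneg_right _ (by positivity)
      linarith
    have h10 : s * Real.arctan (p * (ka * T)) + t * Real.arctan (q * (kb * T)) =
        (s + t) * (p * Real.arctan (p * (ka * T)) + q * Real.arctan (q * (kb * T))) := by
      have e1 : (s + t) * p = s := by rw [hp, mul_div_cancel₀ _ h0.ne']
      have e2 : (s + t) * q = t := by rw [hq, mul_div_cancel₀ _ h0.ne']
      calc s * Real.arctan (p * (ka * T)) + t * Real.arctan (q * (kb * T)) =
          ((s + t) * p) * Real.arctan (p * (ka * T)) +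
            ((s + t) * q) * Real.arctan (q * (kb * T)) := by rw [e1, e2]
        _ = _ := by ring
    have h11 : (s + t) * Real.arctan u ≤
        (s + t) * (p * Real.arctan (p * (ka * T)) + q * Real.arctan (q * (kb * T))) :=
      mul_le_mul_of_nonneg_left h5 h0.le
    have h12 : (s + t) * (T / (2 * K * (1 + K ^ 2))) ≤
        (s + t) * (Real.arctan u + Real.arctan (kc * T)) :=
      mul_le_mul_of_nonneg_left (h8.trans h7) h0.le
    calc (s + t) * T / (2 * K * (1 + K ^ 2)) = (s + t) * (T / (2 * K * (1 + K ^ 2))) := by ring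
      _ ≤ (s + t) * (Real.arctan u + Real.arctan (kc * T)) := h12
      _ = (s + t) * Real.arctan u + (s + t) * Real.arctan (kc * T) := by ring
      _ ≤ _ := by linarith

/-- case of a negative cotangent -/
private lemma e2_ii {K m ka kb kc s t : ℝ} (hK : 0 < K) (hm : 0 < m) (ha : ka ≤ 0)
    (haK : |ka| ≤ K) (hb : 0 ≤ kb) (hcK : |kc| ≤ K) (hc : m ≤ kc + ka)
    (hs : 0 ≤ s) (ht : 0 ≤ t) :
    m * ((s + t) * Real.tanh (s + t)) / (4 * (1 + K ^ 2)) ≤
      s * Real.arctan (ka * Real.tanh s) + t * Real.arctan (kb * Real.tanh t) +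
        (s + t) * Real.arctan (kc * Real.tanh (s + t)) := by
  have h0 : 0 ≤ s + t := add_nonneg hs ht
  set T := Real.tanh (s + t) with hT
  set S := Real.tanh s with hS
  have hT0 : 0 ≤ T := e2_tanh_nonneg h0
  have hT1 : T < 1 := e2_tanh_lt _
  have hS0 : 0 ≤ S := e2_tanh_nonneg hs
  have hS1 : S < 1 := e2_tanh_lt _
  have hST : S ≤ T := e2_tanh_mono ht
  have hkc : m ≤ kc := by linarith
  have hkc0 : 0 ≤ kc := by linarith
  have habs : ∀ k x : ℝ, |k| ≤ K → 0 ≤ x → x < 1 → |k * x| ≤ K := by
    intro k x hk hx hx1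
    rw [abs_mul, abs_of_nonneg hx]
    calc |k| * x ≤ K * 1 := mul_le_mul hk hx1.le hx hK.le
      _ = K := mul_one K
  -- the term in `b`
  have h1 : 0 ≤ t * Real.arctan (kb * Real.tanh t) :=
    mul_nonneg ht (Real.arctan_nonneg.2 (mul_nonneg hb (e2_tanh_nonneg ht)))
  -- lower bound for the term in `c`
  have h2 : m * T / (1 + K ^ 2) ≤ Real.arctan (kc * T) := by
    have h3 := e2_arctan (M := K) (habs kc T hcK hT0 hT1) (w := 0) (by simpa using hK.le)
      (mul_nonneg hkc0 hT0)
    rw [sub_zero, Real.arctan_zero, sub_zero] at h3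
    refine le_trans ?_ h3
    apply div_le_div_of_nonneg_right _ (by positivity)
    exact mul_le_mul_of_nonneg_right hkc hT0
  have h3 : m * S / (1 + K ^ 2) ≤ Real.arctan (kc * T) + Real.arctan (ka * S) := by
    have h4 : kc * S ≤ kc * T := mul_le_mul_of_nonneg_left hST hkc0
    have h5 := Real.arctan_strictMono.monotone h4
    have h6 : -(ka * S) ≤ kc * S := by nlinarith
    have h7 := e2_arctan (M := K) (habs kc S hcK hS0 hS1) (w := -(ka * S))
      (by rw [abs_neg]; exact habs ka S haK hS0 hS1) h6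
    have h7e : Real.arctan (kc * S) - Real.arctan (-(ka * S)) =
        Real.arctan (kc * S) + Real.arctan (ka * S) := by
      rw [Real.arctan_neg]; ring
    rw [h7e] at h7
    have h8 : m * S / (1 + K ^ 2) ≤ (kc * S - -(ka * S)) / (1 + K ^ 2) := by
      apply div_le_div_of_nonneg_right _ (by positivity)
      nlinarith
    linarith
  have h4 : (s + t) * T ≤ 4 * (t * T + s * S) := by
    rcases le_or_gt s t with h | h
    · nlinarith [mul_nonneg hs hS0, mul_nonneg ht hT0]
    · have h5 : T ≤ 2 * S := by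
        have h6 := e2_conc (s := (s + t) / 2) (t := (s + t) / 2) (by linarith) (by linarith)
        rw [add_halves, ← hT] at h6
        have h7 : Real.tanh ((s + t) / 2) ≤ S := by
          have := e2_tanh_mono (s := (s + t) / 2) (t := (s - t) / 2) (by linarith)
          have e : (s + t) / 2 + (s - t) / 2 = s := by ring
          rw [e] at this
          exact this
        rcases eq_or_lt_of_le h0 with h8 | h8
        · have : T = 0 := by rw [hT, ← h8, Real.tanh_zero]
          rw [this]; linarith
        · have h9 : (s + t) / 2 * T ≤ (s + t) / 2 * (2 * Real.tanh ((s + t) / 2)) := by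
            calc (s + t) / 2 * T ≤ (s + t) * Real.tanh ((s + t) / 2) := h6
              _ = _ := by ring
          have h10 := le_of_mul_le_mul_left h9 (by linarith)
          linarith
      nlinarith [mul_nonneg ht hT0, mul_nonneg hs hS0]
  have h5 : t * (m * T / (1 + K ^ 2)) ≤ t * Real.arctan (kc * T) :=
    mul_le_mul_of_nonneg_left h2 ht
  have h6 : s * (m * S / (1 + K ^ 2)) ≤ s * (Real.arctan (kc * T) + Real.arctan (ka * S)) :=
    mul_le_mul_of_nonneg_left h3 hs
  calc m * ((s + t) * T) / (4 * (1 + K ^ 2)) ≤ m * (4 * (t * T + s * S)) / (4 * (1 + K ^ 2)) := by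
        apply div_le_div_of_nonneg_right _ (by positivity)
        exact mul_le_mul_of_nonneg_left h4 hm.le
    _ = t * (m * T / (1 + K ^ 2)) + s * (m * S / (1 + K ^ 2)) := by
        field_simp
    _ ≤ t * Real.arctan (kc * T) + s * (Real.arctan (kc * T) + Real.arctan (ka * S)) :=
        add_le_add h5 h6
    _ ≤ _ := by linarith

private lemma e2_core {δ a b c s t : ℝ} (hδ : 0 < δ) (_hδ1 : δ ≤ 1) (ha : δ ≤ a) (hb : δ ≤ b)
    (hc : δ ≤ c) (habc : a + b + c = Real.pi) (hs : 0 ≤ s) (ht : 0 ≤ t) :
    Real.sin δ / (4 * (1 + (1 / Real.sin δ) ^ 2)) * ((s + t) * Real.tanh (s + t)) ≤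
      s * Real.arctan (Real.cos a / Real.sin a * Real.tanh s) +
      t * Real.arctan (Real.cos b / Real.sin b * Real.tanh t) +
      (s + t) * Real.arctan (Real.cos c / Real.sin c * Real.tanh (s + t)) := by
  have hsδ : 0 < Real.sin δ := Real.sin_pos_of_pos_of_lt_pi hδ (by linarith [Real.pi_gt_three])
  have hsa : Real.sin δ ≤ Real.sin a := e2_sin hδ ha (by linarith)
  have hsb : Real.sin δ ≤ Real.sin b := e2_sin hδ hb (by linarith)
  have hsc : Real.sin δ ≤ Real.sin c := e2_sin hδ hc (by linarith)
  have hka := e2_cot hδ hsδ ha (by linarith)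
  have hkb := e2_cot hδ hsδ hb (by linarith)
  have hkc := e2_cot hδ hsδ hc (by linarith)
  have hK : 0 < 1 / Real.sin δ := by positivity
  have hsa0 : 0 < Real.sin a := by linarith
  have hsb0 : 0 < Real.sin b := by linarith
  have hsc0 : 0 < Real.sin c := by linarith
  have hT0 : 0 ≤ (s + t) * Real.tanh (s + t) :=
    mul_nonneg (by linarith) (e2_tanh_nonneg (by linarith))
  -- sums of cotangents
  have hsum : ∀ x y z : ℝ, x + y + z = Real.pi → 0 < Real.sin x → 0 < Real.sin y →
      Real.cos x / Real.sin x + Real.cos y / Real.sin y =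
        Real.sin z / (Real.sin x * Real.sin y) := by
    intro x y z h hx hy
    have h1 : Real.sin z = Real.sin (x + y) := by
      rw [show z = Real.pi - (x + y) by linarith, Real.sin_pi_sub]
    rw [h1, Real.sin_add]
    field_simp
    ring
  have hge : ∀ x y z : ℝ, x + y + z = Real.pi → 0 < Real.sin x → 0 < Real.sin y →
      Real.sin δ ≤ Real.sin z →
      Real.sin δ ≤ Real.cos x / Real.sin x + Real.cos y / Real.sin y := by
    intro x y z h hx hy hz
    rw [hsum x y z h hx hy, le_div_iff₀ (by positivity)]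
    have h1 : Real.sin x * Real.sin y ≤ 1 := by
      calc Real.sin x * Real.sin y ≤ 1 * 1 :=
            mul_le_mul (Real.sin_le_one x) (Real.sin_le_one y) hy.le zero_le_one
        _ = 1 := mul_one 1
    nlinarith
  rcases le_or_gt 0 (Real.cos a / Real.sin a) with h1 | h1
  · rcases le_or_gt 0 (Real.cos b / Real.sin b) with h2 | h2
    · have h3 := hge a b c habc hsa0 hsb0 hsc
      have h4 : Real.cos c / Real.sin c = (1 - Real.cos a / Real.sin a * (Real.cos b / Real.sin b)) /
          (Real.cos a / Real.sin a + Real.cos b / Real.sin b) := by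
        have hc1 : Real.cos c = -(Real.cos a * Real.cos b - Real.sin a * Real.sin b) := by
          rw [← Real.cos_add, show c = Real.pi - (a + b) by linarith, Real.cos_pi_sub]
        have hc2 : Real.sin c = Real.sin a * Real.cos b + Real.cos a * Real.sin b := by
          rw [← Real.sin_add, show c = Real.pi - (a + b) by linarith, Real.sin_pi_sub]
        have h5 := hsum a b c habc hsa0 hsb0
        rw [h5, hc1]
        field_simp
        ring
      have h5 := e2_i hK h1 h2 ((le_abs_self _).trans hka) ((le_abs_self _).trans hkb) hkc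
        (by linarith) h4 hs ht
      refine le_trans ?_ h5
      have h6 : (s + t) * Real.tanh (s + t) / (2 * (1 / Real.sin δ) * (1 + (1 / Real.sin δ) ^ 2)) =
          2 * (Real.sin δ / (4 * (1 + (1 / Real.sin δ) ^ 2)) *
            ((s + t) * Real.tanh (s + t))) := by
        field_simp
        ring
      rw [h6]
      have h7 : 0 ≤ Real.sin δ / (4 * (1 + (1 / Real.sin δ) ^ 2)) *
            ((s + t) * Real.tanh (s + t)) := by positivity
      linarith
    · have h3 := hge c b a (by linarith) hsc0 hsb0 hsa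
      have h5 := e2_ii (K := 1 / Real.sin δ) (m := Real.sin δ)
        (ka := Real.cos b / Real.sin b) (kb := Real.cos a / Real.sin a)
        (kc := Real.cos c / Real.sin c) (s := t) (t := s) hK hsδ h2.le hkb h1 hkc h3 ht hs
      rw [add_comm t s] at h5
      calc _ = Real.sin δ * ((s + t) * Real.tanh (s + t)) / (4 * (1 + (1 / Real.sin δ) ^ 2)) := by
            ring
        _ ≤ _ := h5
        _ = _ := by ring
  · have h2 : 0 ≤ Real.cos b / Real.sin b := by
      have h3 := hge a b c habc hsa0 hsb0 hsc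
      linarith
    have h3 := hge c a b (by linarith) hsc0 hsa0 hsb
    have h5 := e2_ii (K := 1 / Real.sin δ) (m := Real.sin δ)
      (ka := Real.cos a / Real.sin a) (kb := Real.cos b / Real.sin b)
      (kc := Real.cos c / Real.sin c) (s := s) (t := t) hK hsδ h1.le hka h2 hkc h3 hs ht
    calc _ = Real.sin δ * ((s + t) * Real.tanh (s + t)) / (4 * (1 + (1 / Real.sin δ) ^ 2)) := by
          ring
      _ ≤ _ := h5

/-- the core with signs -/
private lemma e2_signed {δ a b c x y : ℝ} (hδ : 0 < δ) (hδ1 : δ ≤ 1) (ha : δ ≤ a) (hb : δ ≤ b)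
    (hc : δ ≤ c) (habc : a + b + c = Real.pi) (hxy : 0 ≤ x * y) :
    Real.sin δ / (4 * (1 + (1 / Real.sin δ) ^ 2)) * (|x + y| * Real.tanh |x + y|) ≤
      x * Real.arctan (Real.cos a / Real.sin a * Real.tanh x) +
      y * Real.arctan (Real.cos b / Real.sin b * Real.tanh y) +
      (-(x + y)) * Real.arctan (Real.cos c / Real.sin c * Real.tanh (-(x + y))) := by
  have hodd : ∀ k z : ℝ, (-z) * Real.arctan (k * Real.tanh (-z)) =
      z * Real.arctan (k * Real.tanh z) := by
    intro k z
    rw [Real.tanh_neg, mul_neg, Real.arctan_neg]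
    ring
  rw [hodd]
  rcases le_or_gt 0 x with h | h
  · rcases le_or_gt 0 y with h' | h'
    · rw [abs_of_nonneg (add_nonneg h h')]
      exact e2_core hδ hδ1 ha hb hc habc h h'
    · have hx : x = 0 := by
        by_contra hne
        have : 0 < x := lt_of_le_of_ne h (Ne.symm hne)
        nlinarith
      subst hx
      have h1 := e2_core hδ hδ1 ha hb hc habc le_rfl (s := 0) (t := -y) (by linarith)
      rw [zero_add] at h1 ⊢
      rw [hodd, hodd] at h1
      rw [abs_of_neg h']
      exact h1
  · have h' : y ≤ 0 := by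
      by_contra hne
      push Not at hne
      nlinarith
    have h1 := e2_core hδ hδ1 ha hb hc habc (s := -x) (t := -y) (by linarith) (by linarith)
    have e : -x + -y = -(x + y) := by ring
    rw [e, hodd, hodd, hodd] at h1
    rw [abs_of_nonpos (by linarith)]
    exact h1

/-- keep this signature -/
theorem thm_E2 : St_E2 := by
  intro δ₀ hδ₀
  set δ := min δ₀ 1 with hδdef
  have hδ : 0 < δ := lt_min hδ₀ one_pos
  have hδ1 : δ ≤ 1 := min_le_right _ _
  have hδ' : δ ≤ δ₀ := min_le_left _ _
  have hsδ : 0 < Real.sin δ := Real.sin_pos_of_pos_of_lt_pi hδ (by linarith [Real.pi_gt_three])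
  refine ⟨Real.sin δ / (4 * (1 + (1 / Real.sin δ) ^ 2)), by positivity, ?_⟩
  intro a η ha hsum hη
  rw [Fin.sum_univ_three] at hsum hη
  rw [Fin.sum_univ_three]
  have h0 : δ ≤ a 0 := hδ'.trans (ha 0)
  have h1 : δ ≤ a 1 := hδ'.trans (ha 1)
  have h2 : δ ≤ a 2 := hδ'.trans (ha 2)
  have hnorm : ∀ r : ℝ, (∀ i, |η i| ≤ r) → (∃ i, |η i| = r) → ‖η‖ = r := by
    intro r hr hi
    obtain ⟨i, hi⟩ := hi
    apply le_antisymm
    · rw [pi_norm_le_iff_of_nonneg (by rw [← hi]; exact abs_nonneg _)]
      intro j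
      rw [Real.norm_eq_abs]
      exact hr j
    · rw [← hi, ← Real.norm_eq_abs]
      exact norm_le_pi_norm η i
  have habs : ∀ x y : ℝ, 0 ≤ x * y → |x| ≤ |x + y| ∧ |y| ≤ |x + y| := by
    intro x y hxy
    constructor
    · apply sq_le_sq.1
      nlinarith [sq_nonneg y]
    · apply sq_le_sq.1
      nlinarith [sq_nonneg x]
  -- two entries have the same sign
  have hcases : 0 ≤ η 0 * η 1 ∨ 0 ≤ η 1 * η 2 ∨ 0 ≤ η 0 * η 2 := by
    by_contra hcon
    push Not at hcon
    obtain ⟨c1, c2, c3⟩ := hcon
    have h3 : 0 < (η 0 * η 1) * (η 1 * η 2) := mul_pos_of_neg_of_neg c1 c2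
    have h4 : (η 0 * η 1) * (η 1 * η 2) * (η 0 * η 2) < 0 := mul_neg_of_pos_of_neg h3 c3
    nlinarith [sq_nonneg (η 0 * η 1 * η 2)]
  rcases hcases with h | h | h
  · have e : η 2 = -(η 0 + η 1) := by linarith
    obtain ⟨b1, b2⟩ := habs _ _ h
    have hn : ‖η‖ = |η 0 + η 1| := by
      apply hnorm
      · intro i
        fin_cases i
        · exact b1
        · exact b2
        · change |η 2| ≤ _
          rw [e, abs_neg]
      · exact ⟨2, by rw [e, abs_neg]⟩
    rw [hn, e]
    exact e2_signed hδ hδ1 h0 h1 h2 hsum h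
  · have e : η 0 = -(η 1 + η 2) := by linarith
    obtain ⟨b1, b2⟩ := habs _ _ h
    have hn : ‖η‖ = |η 1 + η 2| := by
      apply hnorm
      · intro i
        fin_cases i
        · change |η 0| ≤ _
          rw [e, abs_neg]
        · exact b1
        · exact b2
      · exact ⟨0, by rw [e, abs_neg]⟩
    have h3 := e2_signed hδ hδ1 h1 h2 h0 (by linarith) h
    rw [hn, e]
    refine h3.trans (le_of_eq ?_)
    ring
  · have e : η 1 = -(η 0 + η 2) := by linarith
    obtain ⟨b1, b2⟩ := habs _ _ h
    have hn : ‖η‖ = |η 0 + η 2| := by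
      apply hnorm
      · intro i
        fin_cases i
        · exact b1
        · change |η 1| ≤ _
          rw [e, abs_neg]
        · exact b2
      · exact ⟨1, by rw [e, abs_neg]⟩
    have h3 := e2_signed hδ hδ1 h0 h2 h1 (by linarith) h
    rw [hn, e]
    refine h3.trans (le_of_eq ?_)
    ring

end Pool.Agent.PAN
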