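import Mathlib
import Pool.Agent.PAN.Stmts
import Pool.Agent.PAN.E1

set_option autoImplicit false

/-!
# PAN / E3: the tetrahedron inequality
-/

namespace Pool.Agent.PAN

open Finset Filter

private theorem e3_tanh {x : ℝ} (hx : 0 ≤ x) : x / (1 + x) ≤ Real.tanh x := by
  have h1 := Real.add_one_le_exp (2 * x)
  have h2 := Real.exp_pos x
  have h3 := Real.exp_pos (-x)
  have h4 : Real.exp x * Real.exp (-x) = 1 := by rw [← Real.exp_add]; simp
  have h5 : Real.exp (2 * x) = Real.exp x * Real.exp x := by rw [← Real.exp_add]; ring_nf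
  rw [Real.tanh_eq_sinh_div_cosh, Real.sinh_eq, Real.cosh_eq]
  rw [div_le_div_iff₀ (by linarith) (by positivity)]
  rw [h5] at h1
  -- multiply by exp x
  have h6 : 0 ≤ Real.exp x * ((Real.exp x - Real.exp (-x)) / 2 * (1 + x) -
      x * ((Real.exp x + Real.exp (-x)) / 2)) := by
    have e : Real.exp x * ((Real.exp x - Real.exp (-x)) / 2 * (1 + x) -
      x * ((Real.exp x + Real.exp (-x)) / 2)) =
      (Real.exp x * Real.exp x - (1 + 2 * x) * (Real.exp x * Real.exp (-x))) / 2 := by ring
    rw [e, h4]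
    linarith
  have h7 := nonneg_of_mul_nonneg_right h6 h2
  linarith

private theorem e3_g {x : ℝ} (hx : 0 ≤ x) : HasDerivAt (fun x : ℝ => x ^ 2 / (4 * (1 + x)))
    ((2 * x + x ^ 2) / (4 * (1 + x) ^ 2)) x := by
  have h1 : HasDerivAt (fun x : ℝ => x ^ 2) (2 * x) x := by
    simpa using hasDerivAt_pow 2 x
  have h2 : HasDerivAt (fun x : ℝ => 4 * (1 + x)) 4 x := by
    simpa using ((hasDerivAt_id x).const_add 1).const_mul (4 : ℝ)
  have h3 := h1.div h2 (by positivity : (4 * (1 + x) : ℝ) ≠ 0)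
  refine h3.congr_deriv ?_
  have : (1 + x : ℝ) ≠ 0 := by positivity
  field_simp
  ring

private theorem e3_g' {x : ℝ} (hx : 0 ≤ x) :
    (2 * x + x ^ 2) / (4 * (1 + x) ^ 2) ≤ Real.tanh x := by
  refine le_trans ?_ (e3_tanh hx)
  rw [div_le_div_iff₀ (by positivity) (by positivity)]
  nlinarith [mul_nonneg hx hx, mul_nonneg hx (mul_nonneg hx hx)]

private theorem e3_min {R : ℝ} (hR : 0 ≤ R) : min R (R ^ 2) / 8 ≤ R ^ 2 / (4 * (1 + R)) := by
  rw [div_le_div_iff₀ (by norm_num) (by positivity)]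
  rcases le_total R 1 with h | h
  · have h1 := min_le_right R (R ^ 2)
    have h2 : 0 ≤ min R (R ^ 2) := le_min hR (by positivity)
    nlinarith
  · have h1 := min_le_left R (R ^ 2)
    have h2 : 0 ≤ min R (R ^ 2) := le_min hR (by positivity)
    nlinarith

/-- keep this signature -/
theorem thm_E3 (h : St_E2) : St_E3 := by
  intro δ hδ
  obtain ⟨c, hc, hb⟩ := h δ hδ
  refine ⟨c / 8, by positivity, fun a η ha hs hη => ?_⟩
  set R : ℝ := ‖η‖ with hR
  have hR0 : 0 ≤ R := norm_nonneg _
  have hF : ∀ r : ℝ, HasDerivAt (fun r : ℝ => ∑ i, EE (a i) (r * η i))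
      (∑ i, Real.arctan (Real.cos (a i) / Real.sin (a i) * Real.tanh (r * η i)) * η i) r := by
    intro r
    refine HasDerivAt.fun_sum fun i _ => ?_
    have h1 : HasDerivAt (fun r : ℝ => r * η i) (η i) r := by
      simpa using (hasDerivAt_id r).mul_const (η i)
    exact HasDerivAt.comp (h₂ := fun y => EE (a i) y) r (e1_deriv (a i) (r * η i)) h1
  have hG : ∀ r : ℝ, 0 ≤ r → HasDerivAt (fun r : ℝ => c * ((r * R) ^ 2 / (4 * (1 + r * R))))
      (c * ((2 * (r * R) + (r * R) ^ 2) / (4 * (1 + r * R) ^ 2) * R)) r := by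
    intro r hr
    have h1 : HasDerivAt (fun r : ℝ => r * R) R r := by
      simpa using (hasDerivAt_id r).mul_const R
    have h0 : HasDerivAt (fun x : ℝ => x ^ 2 / (4 * (1 + x)))
        ((2 * (r * R) + (r * R) ^ 2) / (4 * (1 + r * R) ^ 2)) (r * R) :=
      e3_g (mul_nonneg hr hR0)
    have h2 := HasDerivAt.comp r h0 h1
    exact h2.const_mul c
  have hmono : MonotoneOn (fun r : ℝ => (∑ i, EE (a i) (r * η i)) -
      c * ((r * R) ^ 2 / (4 * (1 + r * R)))) (Set.Icc 0 1) := by
    refine monotoneOn_of_hasDerivWithinAt_nonneg (convex_Icc 0 1)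
      (f' := fun r => (∑ i, Real.arctan (Real.cos (a i) / Real.sin (a i) *
        Real.tanh (r * η i)) * η i) -
        c * ((2 * (r * R) + (r * R) ^ 2) / (4 * (1 + r * R) ^ 2) * R)) ?_ ?_ ?_
    · intro r hr
      exact ((hF r).sub (hG r hr.1)).continuousAt.continuousWithinAt
    · intro r hr
      rw [interior_Icc] at hr
      exact ((hF r).sub (hG r hr.1.le)).hasDerivWithinAt
    · intro r hr
      rw [interior_Icc] at hr
      have hr0 : 0 < r := hr.1
      have h1 := hb a (r • η) ha hs (by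
        simp only [Pi.smul_apply, smul_eq_mul, ← Finset.mul_sum, hη, mul_zero])
      rw [norm_smul, Real.norm_eq_abs, abs_of_pos hr0, ← hR] at h1
      simp only [Pi.smul_apply, smul_eq_mul] at h1
      have h2 : ∑ i, r * η i * Real.arctan (Real.cos (a i) / Real.sin (a i) *
          Real.tanh (r * η i)) = r * ∑ i, Real.arctan (Real.cos (a i) / Real.sin (a i) *
          Real.tanh (r * η i)) * η i := by
        rw [Finset.mul_sum]
        exact Finset.sum_congr rfl fun i _ => by ring
      rw [h2] at h1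
      have h3 : c * (R * Real.tanh (r * R)) ≤ ∑ i, Real.arctan (Real.cos (a i) /
          Real.sin (a i) * Real.tanh (r * η i)) * η i := by
        refine le_of_mul_le_mul_left ?_ hr0
        calc r * (c * (R * Real.tanh (r * R))) = c * (r * R * Real.tanh (r * R)) := by ring
          _ ≤ _ := h1
      have h4 := e3_g' (mul_nonneg hr0.le hR0)
      have h5 : c * ((2 * (r * R) + (r * R) ^ 2) / (4 * (1 + r * R) ^ 2) * R) ≤
          c * (R * Real.tanh (r * R)) := by
        refine mul_le_mul_of_nonneg_left ?_ hc.le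
        rw [mul_comm R]
        exact mul_le_mul_of_nonneg_right h4 hR0
      linarith
  have hfin := hmono (Set.left_mem_Icc.2 zero_le_one) (Set.right_mem_Icc.2 zero_le_one) zero_le_one
  have h0 : ∑ i, EE (a i) (0 * η i) = 0 := by
    refine Finset.sum_eq_zero fun i _ => ?_
    rw [zero_mul]; unfold EE; simp
  simp only [h0, one_mul] at hfin
  have h6 : c * ((0 * R) ^ 2 / (4 * (1 + 0 * R))) = 0 := by ring
  rw [h6] at hfin
  have h7 := e3_min hR0
  calc c / 8 * min R (R ^ 2) = c * (min R (R ^ 2) / 8) := by ring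
    _ ≤ c * (R ^ 2 / (4 * (1 + R))) := mul_le_mul_of_nonneg_left h7 hc.le
    _ ≤ _ := by linarith

end Pool.Agent.PAN
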