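import Mathlib
import Pool.Agent.PAN.Stmts

set_option autoImplicit false

/-!
# PAN / G1M: the primitive G1
-/

namespace Pool.Agent.PAN

open Finset Filter

/-- primitive on a star-shaped open set -/
private theorem g1_prim {U : Set ℂ} (hU : IsOpen U) (hc : Convex ℝ U) {c : ℂ} (hcU : c ∈ U)
    {f : ℂ → ℂ} (hf : DifferentiableOn ℂ f U) {u : ℂ} (hu : u ∈ U) :
    HasDerivAt (fun u => (u - c) * ∫ τ in (0 : ℝ)..1, f (c + (τ : ℂ) * (u - c))) (f u) u := by
  -- points of the segment
  have hseg : ∀ v ∈ U, ∀ τ : ℝ, 0 ≤ τ → τ ≤ 1 → c + (τ : ℂ) * (v - c) ∈ U := by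
    intro v hv τ h0 h1
    have := hc hcU hv (sub_nonneg.2 h1) h0 (by ring)
    have e : (1 - τ) • c + τ • v = c + (τ : ℂ) * (v - c) := by
      rw [Complex.real_smul, Complex.real_smul]; push_cast; ring
    rwa [e] at this
  have hfd : ∀ z ∈ U, HasDerivAt f (deriv f z) z := fun z hz =>
    (hf.differentiableAt (hU.mem_nhds hz)).hasDerivAt
  have hd1 : DifferentiableOn ℂ (deriv f) U := hf.deriv hU
  obtain ⟨r, hr, hball⟩ := Metric.isOpen_iff.1 hU u hu
  have hr2 : 0 < r / 2 := by linarith
  have hcb : Metric.closedBall u (r / 2) ⊆ U := fun z hz =>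
    hball (Metric.mem_ball.2 (lt_of_le_of_lt (Metric.mem_closedBall.1 hz) (by linarith)))
  -- compact set of all the points used
  let K : Set ℂ := (fun p : ℝ × ℂ => c + (p.1 : ℂ) * (p.2 - c)) ''
    (Set.Icc (0 : ℝ) 1 ×ˢ Metric.closedBall u (r / 2))
  have hK : IsCompact K := by
    refine (isCompact_Icc.prod (isCompact_closedBall u (r / 2))).image ?_
    fun_prop
  have hKU : K ⊆ U := by
    rintro _ ⟨⟨τ, v⟩, ⟨h1, h2⟩, rfl⟩
    exact hseg v (hcb h2) τ h1.1 h1.2
  obtain ⟨M, hM⟩ := hK.exists_bound_of_continuousOn (hd1.continuousOn.mono hKU)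
  have hcont : ∀ v ∈ Metric.closedBall u (r / 2), ContinuousOn
      (fun τ : ℝ => f (c + (τ : ℂ) * (v - c))) (Set.Icc 0 1) := by
    intro v hv
    refine hf.continuousOn.comp (by fun_prop) ?_
    intro τ hτ
    exact hseg v (hcb hv) τ hτ.1 hτ.2
  have hcont' : ContinuousOn (fun τ : ℝ => (τ : ℂ) * deriv f (c + (τ : ℂ) * (u - c)))
      (Set.Icc 0 1) := by
    refine ContinuousOn.mul (by fun_prop) ?_
    refine hd1.continuousOn.comp (by fun_prop) ?_
    intro τ hτ
    exact hseg u hu τ hτ.1 hτ.2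
  have hder := intervalIntegral.hasDerivAt_integral_of_dominated_loc_of_deriv_le
    (μ := MeasureTheory.volume) (a := (0 : ℝ)) (b := 1) (bound := fun _ => M)
    (F := fun (v : ℂ) (τ : ℝ) => f (c + (τ : ℂ) * (v - c)))
    (F' := fun (v : ℂ) (τ : ℝ) => (τ : ℂ) * deriv f (c + (τ : ℂ) * (v - c)))
    (x₀ := u) (s := Metric.ball u (r / 2)) (Metric.ball_mem_nhds u hr2)
    (by
      filter_upwards [Metric.ball_mem_nhds u hr2] with v hv
      have := (hcont v (Metric.ball_subset_closedBall hv)).mono (by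
        rw [Set.uIoc_of_le zero_le_one]; exact Set.Ioc_subset_Icc_self : Set.uIoc (0 : ℝ) 1 ⊆ _)
      exact this.aestronglyMeasurable measurableSet_uIoc)
    (by
      refine ContinuousOn.intervalIntegrable ?_
      rw [Set.uIcc_of_le zero_le_one]
      exact hcont u (Metric.mem_closedBall_self hr2.le))
    (by
      have := hcont'.mono (by
        rw [Set.uIoc_of_le zero_le_one]; exact Set.Ioc_subset_Icc_self : Set.uIoc (0 : ℝ) 1 ⊆ _)
      exact this.aestronglyMeasurable measurableSet_uIoc)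
    (by
      refine Filter.Eventually.of_forall fun τ hτ v hv => ?_
      rw [Set.uIoc_of_le zero_le_one] at hτ
      rw [norm_mul, Complex.norm_real, Real.norm_eq_abs, abs_of_pos hτ.1]
      have h1 := hM (c + (τ : ℂ) * (v - c)) ⟨(τ, v), ⟨⟨hτ.1.le, hτ.2⟩,
        Metric.ball_subset_closedBall hv⟩, rfl⟩
      have h2 := norm_nonneg (deriv f (c + (τ : ℂ) * (v - c)))
      nlinarith [hτ.2])
    (by
      exact intervalIntegrable_const)
    (by
      refine Filter.Eventually.of_forall fun τ hτ v hv => ?_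
      rw [Set.uIoc_of_le zero_le_one] at hτ
      have h1 := hfd (c + (τ : ℂ) * (v - c)) (hseg v (hcb (Metric.ball_subset_closedBall hv)) τ
        hτ.1.le hτ.2)
      have h2 : HasDerivAt (fun v : ℂ => c + (τ : ℂ) * (v - c)) (τ : ℂ) v := by
        simpa using (((hasDerivAt_id v).sub_const c).const_mul (τ : ℂ)).const_add c
      have h3 := HasDerivAt.comp v h1 h2
      rwa [mul_comm] at h3)
  have hprod := ((hasDerivAt_id u).sub_const c).mul hder.2
  refine hprod.congr_deriv ?_
  -- evaluate the integral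
  have hftc : ∫ τ in (0 : ℝ)..1, (f (c + (τ : ℂ) * (u - c)) +
      (u - c) * ((τ : ℂ) * deriv f (c + (τ : ℂ) * (u - c)))) = f u := by
    have h1 : ∀ τ ∈ Set.uIcc (0 : ℝ) 1, HasDerivAt
        (fun τ : ℝ => (τ : ℂ) * f (c + (τ : ℂ) * (u - c)))
        (f (c + (τ : ℂ) * (u - c)) + (u - c) * ((τ : ℂ) * deriv f (c + (τ : ℂ) * (u - c)))) τ := by
      intro τ hτ
      rw [Set.uIcc_of_le zero_le_one] at hτ
      have h2 := hfd (c + (τ : ℂ) * (u - c)) (hseg u hu τ hτ.1 hτ.2)
      have h3 : HasDerivAt (fun τ : ℝ => (τ : ℂ)) 1 τ := Complex.ofRealCLM.hasDerivAt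
      have h4 : HasDerivAt (fun τ : ℝ => c + (τ : ℂ) * (u - c)) (u - c) τ := by
        simpa using (h3.mul_const (u - c)).const_add c
      have h5 := HasDerivAt.comp τ h2 h4
      have h6 := h3.mul h5
      refine h6.congr_deriv ?_
      simp only [Function.comp_apply, one_mul]
      ring
    rw [intervalIntegral.integral_eq_sub_of_hasDerivAt h1]
    · simp
    · refine ContinuousOn.intervalIntegrable ?_
      rw [Set.uIcc_of_le zero_le_one]
      exact (hcont u (Metric.mem_closedBall_self hr2.le)).add (continuousOn_const.mul hcont')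
  rw [intervalIntegral.integral_add] at hftc
  · rw [intervalIntegral.integral_const_mul] at hftc
    simp only [id_eq, one_mul]
    exact hftc
  · refine ContinuousOn.intervalIntegrable ?_
    rw [Set.uIcc_of_le zero_le_one]
    exact hcont u (Metric.mem_closedBall_self hr2.le)
  · refine ContinuousOn.intervalIntegrable ?_
    rw [Set.uIcc_of_le zero_le_one]
    exact continuousOn_const.mul hcont'

/-- keep this signature -/
theorem thm_G1 (h : St_GG) : St_G1 := by
  obtain ⟨hd, hr, hcj, -⟩ := h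
  refine ⟨fun u h0 h2 => ?_, ?_, fun u h0 h2 => ?_, fun u h0 h2 => ?_⟩
  · have hU : IsOpen {z : ℂ | 0 < z.re ∧ z.re < 2} :=
      (isOpen_lt continuous_const Complex.continuous_re).inter
        (isOpen_lt Complex.continuous_re continuous_const)
    have hC : Convex ℝ {z : ℂ | 0 < z.re ∧ z.re < 2} :=
      (convex_halfSpace_re_gt 0).inter (convex_halfSpace_re_lt 2)
    have := g1_prim hU hC (c := 1) (by simp) (f := gg)
      (fun z hz => (hd z hz.1 hz.2).differentiableWithinAt) (u := u) ⟨h0, h2⟩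
    exact this
  · unfold G1; simp
  · unfold G1
    have e : ∫ τ in (0 : ℝ)..1, gg (1 + (τ : ℂ) * (2 - u - 1)) =
        ∫ τ in (0 : ℝ)..1, gg (1 + (τ : ℂ) * (u - 1)) := by
      refine intervalIntegral.integral_congr fun τ hτ => ?_
      rw [Set.uIcc_of_le zero_le_one] at hτ
      have h3 : 1 + (τ : ℂ) * (2 - u - 1) = 2 - (1 + (τ : ℂ) * (u - 1)) := by ring
      rw [h3]
      refine hr _ ?_ ?_
      · have : (1 + (τ : ℂ) * (u - 1)).re = 1 + τ * (u.re - 1) := by simp
        rw [this]
        nlinarith [hτ.1, hτ.2]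
      · have : (1 + (τ : ℂ) * (u - 1)).re = 1 + τ * (u.re - 1) := by simp
        rw [this]
        nlinarith [hτ.1, hτ.2]
    rw [e]; ring
  · unfold G1
    rw [map_mul, map_sub, map_one]
    congr 1
    rw [intervalIntegral.integral_of_le zero_le_one, intervalIntegral.integral_of_le zero_le_one,
      ← integral_conj]
    refine MeasureTheory.integral_congr_ae (Filter.Eventually.of_forall fun τ => ?_)
    simp only
    rw [← hcj]
    congr 1
    simp

end Pool.Agent.PAN
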