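import Mathlib
import Pool.Agent.PAN.Stmts

set_option autoImplicit false

/-!
# PAN / GB: bounds for gg
-/

namespace Pool.Agent.PAN

open Finset Filter

private theorem gb_pos {t : ℂ} (h1 : 1 ≤ t.im) (h2 : |t.re - 1| ≤ 1) :
    ‖gg t + Complex.I * (Real.pi * (t - 1))‖ ≤ 4 * Real.pi * Real.exp (-t.im) := by
  have hpi := Real.pi_pos
  have hpi3 := Real.pi_gt_three
  have hne : t ≠ 1 := by
    intro h; rw [h] at h1; simp at h1; linarith
  have hw1 : (((Real.pi : ℂ) * t) * Complex.I).re = -(Real.pi * t.im) := by simp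
  have hw2 : (-((Real.pi : ℂ) * t) * Complex.I).re = Real.pi * t.im := by simp
  have hsin : Real.exp (Real.pi * t.im) / 4 ≤ ‖Complex.sin (Real.pi * t)‖ := by
    unfold Complex.sin
    rw [norm_div, norm_mul, Complex.norm_I, mul_one]
    have h3 := norm_sub_norm_le (Complex.exp (-((Real.pi : ℂ) * t) * Complex.I))
      (Complex.exp (((Real.pi : ℂ) * t) * Complex.I))
    rw [Complex.norm_exp, Complex.norm_exp, hw1, hw2] at h3
    have h4 : Real.exp (-(Real.pi * t.im)) ≤ Real.exp (Real.pi * t.im) / 2 := by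
      have h5 : Real.exp (-(Real.pi * t.im)) ≤ 1 := Real.exp_le_one_iff.2 (by nlinarith)
      have h6 := Real.add_one_le_exp (Real.pi * t.im)
      nlinarith
    have h7 : ‖(2 : ℂ)‖ = 2 := by simp
    rw [h7]
    linarith
  have hsin0 : Complex.sin (Real.pi * t) ≠ 0 := by
    intro h
    rw [h, norm_zero] at hsin
    have := Real.exp_pos (Real.pi * t.im)
    linarith
  have e : gg t + Complex.I * (Real.pi * (t - 1)) =
      Real.pi * (t - 1) * (Complex.exp ((Real.pi * t) * Complex.I) / Complex.sin (Real.pi * t)) := by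
    unfold gg
    rw [if_neg hne, Complex.exp_mul_I]
    field_simp
  rw [e, norm_mul, norm_mul, norm_div, Complex.norm_exp, hw1, Complex.norm_real, Real.norm_eq_abs,
    abs_of_pos hpi]
  have h3 : ‖t - 1‖ ≤ Real.exp t.im := by
    have h4 := Complex.norm_le_abs_re_add_abs_im (t - 1)
    have h5 : (t - 1).re = t.re - 1 := by simp
    have h6 : (t - 1).im = t.im := by simp
    rw [h5, h6, abs_of_pos (by linarith : 0 < t.im)] at h4
    have h7 := Real.add_one_le_exp t.im
    linarith
  have h4 : Real.exp (-(Real.pi * t.im)) / ‖Complex.sin (Real.pi * t)‖ ≤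
      4 * Real.exp (-(2 * t.im)) := by
    have h5 : 0 < Real.exp (Real.pi * t.im) / 4 := by positivity
    calc Real.exp (-(Real.pi * t.im)) / ‖Complex.sin (Real.pi * t)‖
        ≤ Real.exp (-(Real.pi * t.im)) / (Real.exp (Real.pi * t.im) / 4) :=
          div_le_div_of_nonneg_left (Real.exp_pos _).le h5 hsin
      _ = 4 * (Real.exp (-(Real.pi * t.im)) * Real.exp (-(Real.pi * t.im))) := by
          rw [Real.exp_neg]; field_simp
      _ ≤ 4 * Real.exp (-(2 * t.im)) := by
          rw [← Real.exp_add]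
          refine mul_le_mul_of_nonneg_left (Real.exp_le_exp.2 ?_) (by norm_num)
          nlinarith
  calc Real.pi * ‖t - 1‖ * (Real.exp (-(Real.pi * t.im)) / ‖Complex.sin (Real.pi * t)‖)
      ≤ Real.pi * Real.exp t.im * (4 * Real.exp (-(2 * t.im))) := by
        refine mul_le_mul (mul_le_mul_of_nonneg_left h3 hpi.le) h4 (by positivity) (by positivity)
    _ = 4 * Real.pi * (Real.exp t.im * Real.exp (-(2 * t.im))) := by ring
    _ = 4 * Real.pi * Real.exp (-t.im) := by
        rw [← Real.exp_add]; congr 2; ring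

private theorem gb_pos' {t : ℂ} (h1 : 1 ≤ t.im) (h2 : |t.re - 1| ≤ 1) :
    |(gg t).im + Real.pi * (t.re - 1)| ≤ 4 * Real.pi * Real.exp (-t.im) ∧
    |(gg t).re| ≤ Real.pi * t.im + 4 * Real.pi := by
  have h := gb_pos h1 h2
  have hpi := Real.pi_pos
  have e1 : (gg t + Complex.I * (Real.pi * (t - 1))).im = (gg t).im + Real.pi * (t.re - 1) := by
    simp
  have e2 : (gg t + Complex.I * (Real.pi * (t - 1))).re = (gg t).re - Real.pi * t.im := by
    simp
    ring
  constructor
  · rw [← e1]; exact (Complex.abs_im_le_norm _).trans h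
  · have h3 := (Complex.abs_re_le_norm _).trans h
    rw [e2] at h3
    have h4 : Real.exp (-t.im) ≤ 1 := Real.exp_le_one_iff.2 (by linarith)
    have h5 := abs_le.1 h3
    rw [abs_le]
    constructor <;> nlinarith [h5.1, h5.2]

/-- keep this signature -/
theorem thm_GB (h : St_GG) : St_GB := by
  intro δ hδ
  have hpi := Real.pi_pos
  have hK : IsCompact (Set.Icc δ (2 - δ) ×ℂ Set.Icc (-1 : ℝ) 1) :=
    isCompact_Icc.reProdIm isCompact_Icc
  have hcont : ContinuousOn gg (Set.Icc δ (2 - δ) ×ℂ Set.Icc (-1 : ℝ) 1) := by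
    intro z hz
    have hz1 : z.re ∈ Set.Icc δ (2 - δ) := hz.1
    exact (h.1 z (by linarith [hz1.1]) (by linarith [hz1.2])).continuousAt.continuousWithinAt
  obtain ⟨M, hM⟩ := hK.exists_bound_of_continuousOn hcont
  have hbig : ∀ t : ℂ, δ ≤ t.re → t.re ≤ 2 - δ → 1 ≤ |t.im| →
      |(gg t).im * (t.im / |t.im|) + Real.pi * (t.re - 1)| ≤ 4 * Real.pi * Real.exp (-|t.im|) ∧
      |(gg t).re| ≤ Real.pi * |t.im| + 4 * Real.pi := by
    intro t h1 h2 h3
    have h4 : |t.re - 1| ≤ 1 := by rw [abs_le]; constructor <;> linarith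
    rcases le_abs.1 h3 with h5 | h5
    · have h6 : |t.im| = t.im := abs_of_pos (by linarith)
      rw [h6, div_self (by linarith : t.im ≠ 0), mul_one]
      exact gb_pos' h5 h4
    · have h6 : |t.im| = -t.im := abs_of_neg (by linarith)
      have h7 : t.im / -t.im = -1 := by
        rw [div_neg, div_self (by linarith : t.im ≠ 0)]
      rw [h6, h7]
      have h8 := gb_pos' (t := (starRingEnd ℂ) t) (by simpa using h5) (by simpa using h4)
      rw [h.2.2.1] at h8
      simpa using h8
  refine ⟨|M| + 5 * Real.pi, by positivity, fun t h1 h2 => ⟨?_, ?_, ?_⟩⟩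
  · rcases le_or_gt 1 |t.im| with h3 | h3
    · have h4 := (hbig t h1 h2 h3).1
      have h5 : Real.exp (-|t.im|) ≤ 1 := Real.exp_le_one_iff.2 (by linarith)
      have h6 : |(gg t).im| = |(gg t).im * (t.im / |t.im|)| := by
        rw [abs_mul, abs_div, abs_abs, div_self (by linarith : |t.im| ≠ 0), mul_one]
      rw [h6]
      have h7 : |Real.pi * (t.re - 1)| ≤ Real.pi := by
        rw [abs_mul, abs_of_pos hpi]
        have : |t.re - 1| ≤ 1 := by rw [abs_le]; constructor <;> linarith
        nlinarith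
      have h8 : |(gg t).im * (t.im / |t.im|)| ≤
          |(gg t).im * (t.im / |t.im|) + Real.pi * (t.re - 1)| + |Real.pi * (t.re - 1)| := by
        have := abs_sub ((gg t).im * (t.im / |t.im|) + Real.pi * (t.re - 1))
          (Real.pi * (t.re - 1))
        rwa [add_sub_cancel_right] at this
      nlinarith [abs_nonneg M]
    · have h4 := hM t ⟨⟨h1, h2⟩, ⟨by linarith [(abs_lt.1 h3).1], by linarith [(abs_lt.1 h3).2]⟩⟩
      have h5 := Complex.abs_im_le_norm (gg t)
      linarith [le_abs_self M]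
  · rcases le_or_gt 1 |t.im| with h3 | h3
    · have h4 := (hbig t h1 h2 h3).2
      nlinarith [abs_nonneg M, abs_nonneg t.im]
    · have h4 := hM t ⟨⟨h1, h2⟩, ⟨by linarith [(abs_lt.1 h3).1], by linarith [(abs_lt.1 h3).2]⟩⟩
      have h5 := Complex.abs_re_le_norm (gg t)
      have h6 := le_abs_self M
      have h7 : 0 ≤ (|M| + 5 * Real.pi) * |t.im| := by positivity
      nlinarith
  · intro h3
    refine (hbig t h1 h2 h3).1.trans ?_
    have h5 := Real.exp_pos (-|t.im|)
    have h6 : 4 * Real.pi ≤ |M| + 5 * Real.pi := by linarith [abs_nonneg M]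
    exact mul_le_mul_of_nonneg_right h6 h5.le

end Pool.Agent.PAN
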