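import Mathlib
import Pool.Agent.PAN.Stmts

set_option autoImplicit false

/-!
# PAN / GBm: vertical growth of gN
-/

namespace Pool.Agent.PAN

open Finset Filter

/-- keep this signature -/
theorem thm_gB (h : St_GV) : St_gB := by
  intro N hN δ hδ
  have hN0 : (0 : ℝ) < N := by exact_mod_cast hN
  have hpi := Real.pi_pos
  obtain ⟨C, hC, hb⟩ := h (δ / N) (by positivity)
  have key : ∀ x : ℂ, δ ≤ x.re → x.re ≤ N + 1 - δ →
      |(LN N x).re + (Real.pi / N) * ((N + 1) / 2 - x.re) * (|x.im|)| ≤ N * C := by
    intro x hx1 hx2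
    have hsum : ∑ k ∈ range N, Real.pi * (1 - (x.re + k) / N) * (|x.im| / N) =
        (Real.pi / N) * ((N + 1) / 2 - x.re) * |x.im| := by
      have e1 : ∑ k ∈ range N, (k : ℝ) = N * (N - 1) / 2 := by
        have e2 := Finset.sum_range_id_mul_two N
        have e3 : (∑ k ∈ range N, (k : ℝ)) * 2 = N * ((N : ℝ) - 1) := by
          have e4 : ((∑ k ∈ range N, k : ℕ) : ℝ) * 2 = ((N * (N - 1) : ℕ) : ℝ) := by
            exact_mod_cast e2
          rw [Nat.cast_mul, Nat.cast_sub hN] at e4
          push_cast at e4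
          exact e4
        linarith
      have e5 : ∀ k ∈ range N, Real.pi * (1 - (x.re + k) / N) * (|x.im| / N) =
          Real.pi * (|x.im| / N) * (1 - x.re / N) - Real.pi * (|x.im| / N) / N * k := by
        intro k _
        field_simp
        ring
      rw [Finset.sum_congr rfl e5, Finset.sum_sub_distrib, ← Finset.mul_sum, ← Finset.mul_sum, e1,
        Finset.sum_const, Finset.card_range, nsmul_eq_mul]
      field_simp
      ring
    unfold LN
    rw [Complex.re_sum, ← hsum, ← Finset.sum_add_distrib]
    refine (Finset.abs_sum_le_sum_abs _ _).trans ?_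
    have e6 : (N : ℝ) * C = ∑ k ∈ range N, C := by
      rw [Finset.sum_const, Finset.card_range, nsmul_eq_mul]
    rw [e6]
    refine Finset.sum_le_sum fun k hk => ?_
    have hk' : (k : ℝ) + 1 ≤ N := by exact_mod_cast Finset.mem_range.1 hk
    have hre : ((x + k) / N : ℂ).re = (x.re + k) / N := by
      rw [Complex.div_natCast_re]; simp
    have him : |((x + k) / N : ℂ).im| = |x.im| / N := by
      rw [Complex.div_natCast_im, abs_div, abs_of_pos hN0]; simp
    have h3 := hb ((x + k) / N) (by
      rw [hre]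
      refine div_le_div_of_nonneg_right ?_ hN0.le
      have : (0 : ℝ) ≤ k := by positivity
      linarith) (by
      rw [hre, div_le_iff₀ hN0, sub_mul, div_mul_cancel₀ _ hN0.ne']
      linarith)
    rwa [hre, him] at h3
  refine ⟨Real.exp (N * C), Real.exp_pos _, fun x hx1 hx2 => ?_⟩
  have h3 := abs_le.1 (key x hx1 hx2)
  have h4 : ‖gN N x‖ = Real.exp (LN N x).re := by
    unfold gN
    rw [Complex.norm_exp]
  rw [h4, ← Real.exp_add, ← Real.exp_add, Real.exp_le_exp, Real.exp_le_exp]
  constructor
  · linarith [h3.2]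
  · linarith [h3.1]

end Pool.Agent.PAN
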