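import Mathlib
import Pool.Agent.PAN.Stmts

set_option autoImplicit false

/-!
# PAN / GG: the function gg
-/

namespace Pool.Agent.PAN

open Finset Filter

private theorem gg_hasDeriv (t : ℂ) : HasDerivAt (fun z : ℂ => Complex.sin (Real.pi * z))
    (Real.pi * Complex.cos (Real.pi * t)) t := by
  have h1 : HasDerivAt (fun z : ℂ => (Real.pi : ℂ) * z) (Real.pi : ℂ) t := by
    simpa using (hasDerivAt_id t).const_mul (Real.pi : ℂ)
  have h2 := h1.csin
  rwa [mul_comm] at h2

private theorem gg_eq (t : ℂ) : gg t =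
    (Real.pi : ℂ) * Complex.cos (Real.pi * t) / dslope (fun z : ℂ => Complex.sin (Real.pi * z)) 1 t := by
  have hpi : (Real.pi : ℂ) ≠ 0 := by exact_mod_cast Real.pi_ne_zero
  unfold gg
  by_cases h : t = 1
  · rw [if_pos h, h, dslope_same, (gg_hasDeriv 1).deriv, mul_one, Complex.cos_pi]
    field_simp
  · rw [if_neg h, dslope_of_ne _ h, slope_def_field, mul_one, Complex.sin_pi, sub_zero]
    have ht : t - 1 ≠ 0 := sub_ne_zero.2 h
    by_cases hs : Complex.sin (Real.pi * t) = 0
    · rw [hs]; simp
    · field_simp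

private theorem gg_sin_ne {t : ℂ} (h0 : 0 < t.re) (h2 : t.re < 2) (h : t ≠ 1) :
    Complex.sin (Real.pi * t) ≠ 0 := by
  have hpi : (Real.pi : ℂ) ≠ 0 := by exact_mod_cast Real.pi_ne_zero
  intro hs
  obtain ⟨k, hk⟩ := Complex.sin_eq_zero_iff.1 hs
  have h3 : t = k := by
    have : (Real.pi : ℂ) * t = Real.pi * k := by rw [hk]; ring
    exact mul_left_cancel₀ hpi this
  rw [h3] at h0 h2 h
  simp only [Complex.intCast_re] at h0 h2
  have h4 : (0 : ℤ) < k := by exact_mod_cast h0
  have h5 : k < (2 : ℤ) := by exact_mod_cast h2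
  have h6 : k = 1 := by omega
  exact h (by rw [h6]; simp)

/-- keep this signature -/
theorem thm_GG : St_GG := by
  have hpi : (Real.pi : ℂ) ≠ 0 := by exact_mod_cast Real.pi_ne_zero
  refine ⟨fun t h0 h2 => ?_, fun t _ _ => ?_, fun t => ?_, fun u h0 h1 => ?_⟩
  · have hfun : gg = fun t => (Real.pi : ℂ) * Complex.cos (Real.pi * t) /
        dslope (fun z : ℂ => Complex.sin (Real.pi * z)) 1 t := funext gg_eq
    rw [hfun]
    have hd : DifferentiableOn ℂ (dslope (fun z : ℂ => Complex.sin (Real.pi * z)) 1) Set.univ := by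
      rw [Complex.differentiableOn_dslope Filter.univ_mem]
      exact fun z _ => (gg_hasDeriv z).differentiableAt.differentiableWithinAt
    have hd' : DifferentiableAt ℂ (dslope (fun z : ℂ => Complex.sin (Real.pi * z)) 1) t :=
      (hd t (Set.mem_univ _)).differentiableAt Filter.univ_mem
    refine DifferentiableAt.div (by fun_prop) hd' ?_
    by_cases h : t = 1
    · rw [h, dslope_same, (gg_hasDeriv 1).deriv, mul_one, Complex.cos_pi]
      simp
    · rw [dslope_of_ne _ h, slope_def_field, mul_one, Complex.sin_pi, sub_zero]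
      exact div_ne_zero (gg_sin_ne h0 h2 h) (sub_ne_zero.2 h)
  · unfold gg
    by_cases h : t = 1
    · rw [if_pos h, if_pos (by rw [h]; norm_num)]
    · have h' : 2 - t ≠ 1 := fun hh => h (by linear_combination -hh)
      rw [if_neg h, if_neg h']
      have e1 : (Real.pi : ℂ) * (2 - t) = 2 * Real.pi - Real.pi * t := by ring
      rw [e1, Complex.cos_two_pi_sub, Complex.sin_two_pi_sub, div_neg]
      ring
  · unfold gg
    by_cases h : t = 1
    · rw [if_pos h, h, map_one, if_pos rfl]
    · have h' : (starRingEnd ℂ) t ≠ 1 := fun hh => h (by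
        have := congrArg (starRingEnd ℂ) hh
        rwa [Complex.conj_conj, map_one] at this)
      rw [if_neg h, if_neg h']
      rw [map_mul, map_mul, map_sub, map_one, map_div₀, ← Complex.cos_conj, ← Complex.sin_conj,
        map_mul, Complex.conj_ofReal]
  · have h : u ≠ 1 := fun hh => by rw [hh] at h1; simp at h1
    have h' : u + 1 ≠ 1 := fun hh => by
      have : u = 0 := by linear_combination hh
      rw [this] at h0; simp at h0
    unfold gg
    rw [if_neg h, if_neg h']
    have e1 : (Real.pi : ℂ) * (u + 1) = Real.pi * u + Real.pi := by ring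
    rw [e1, Complex.cos_add_pi, Complex.sin_add_pi, neg_div_neg_eq]
    ring

end Pool.Agent.PAN
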