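import Mathlib
import Pool.Agent.PAN.Stmts

set_option autoImplicit false

/-!
# PAN / GL: functional equation of G1
-/

namespace Pool.Agent.PAN

open Finset Filter

private theorem gl_sinc_pos {x : ℝ} (h0 : 0 ≤ x) (h1 : x ≤ Real.pi / 2) : 0 < Real.sinc x := by
  rcases h0.eq_or_lt with h | h
  · rw [← h, Real.sinc_zero]; exact one_pos
  · rw [Real.sinc_of_ne_zero h.ne']
    exact div_pos (Real.sin_pos_of_pos_of_lt_pi h (by linarith [Real.pi_pos])) h

private theorem gl_sin {x : ℝ} : Real.sin x = x * Real.sinc x := by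
  by_cases h : x = 0
  · rw [h]; simp
  · rw [Real.sinc_of_ne_zero h]; field_simp

private theorem gl_int : ∫ x in (0 : ℝ)..(Real.pi / 2), Real.cos x / Real.sinc x =
    Real.pi / 2 * Real.log 2 := by
  have hpi := Real.pi_pos
  have hcs : ContinuousOn (fun x => Real.cos x / Real.sinc x) (Set.Icc 0 (Real.pi / 2)) := by
    refine ContinuousOn.div Real.continuous_cos.continuousOn Real.continuous_sinc.continuousOn ?_
    intro x hx; exact (gl_sinc_pos hx.1 hx.2).ne'
  have hi2 : IntervalIntegrable (fun x => Real.cos x / Real.sinc x) MeasureTheory.volume 0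
      (Real.pi / 2) := by
    refine ContinuousOn.intervalIntegrable ?_
    rwa [Set.uIcc_of_le (by positivity)]
  have hi1 : IntervalIntegrable (fun x => Real.log (Real.sin x)) MeasureTheory.volume 0
      (Real.pi / 2) := intervalIntegrable_log_sin
  have hH : ∫ x in (0 : ℝ)..(Real.pi / 2), (Real.log (Real.sin x) + Real.cos x / Real.sinc x) =
      (Real.pi / 2) * Real.log (Real.sin (Real.pi / 2)) - 0 * Real.log (Real.sin 0) := by
    refine intervalIntegral.integral_eq_sub_of_hasDerivAt_of_le (by positivity)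
      (f := fun x => x * Real.log (Real.sin x)) ?_ ?_ (hi1.add hi2)
    · have h1 : ContinuousOn (fun x : ℝ => x * Real.log x + x * Real.log (Real.sinc x))
          (Set.Icc 0 (Real.pi / 2)) := by
        refine ContinuousOn.add Real.continuous_mul_log.continuousOn ?_
        refine continuousOn_id.mul (ContinuousOn.log Real.continuous_sinc.continuousOn ?_)
        intro x hx; exact (gl_sinc_pos hx.1 hx.2).ne'
      refine h1.congr ?_
      intro x hx
      simp only
      rcases hx.1.eq_or_lt with h | h
      · rw [← h]; simp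
      · rw [gl_sin, Real.log_mul h.ne' (gl_sinc_pos hx.1 hx.2).ne']; ring
    · intro x hx
      have hs : 0 < Real.sin x := Real.sin_pos_of_pos_of_lt_pi hx.1 (by linarith [hx.2])
      have h1 := (hasDerivAt_id x).mul ((Real.hasDerivAt_sin x).log hs.ne')
      refine h1.congr_deriv ?_
      rw [Real.sinc_of_ne_zero hx.1.ne']
      simp only [id_eq, one_mul]
      field_simp
  rw [intervalIntegral.integral_add hi1 hi2, integral_log_sin_zero_pi_div_two] at hH
  rw [Real.sin_pi_div_two, Real.log_one] at hH
  linarith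

private theorem gl_const (h2 : St_G1) : G1 (1 / 2 + 1) - G1 (1 / 2) = (Real.log 2 : ℝ) := by
  have hpi := Real.pi_pos
  have h3 : G1 (1 / 2) = -G1 (3 / 2) := by
    have := h2.2.2.1 (3 / 2) (by norm_num) (by norm_num)
    rw [← this]; norm_num
  have e0 : (1 / 2 + 1 : ℂ) = 3 / 2 := by norm_num
  rw [h3, e0, sub_neg_eq_add]
  unfold G1
  have hgg : ∀ τ ∈ Set.uIcc (0 : ℝ) 1, gg (1 + (τ : ℂ) * (3 / 2 - 1)) =
      ((fun x : ℝ => Real.cos x / Real.sinc x) (Real.pi / 2 * τ) : ℝ) := by
    intro τ hτ
    rw [Set.uIcc_of_le zero_le_one] at hτ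
    unfold gg
    rcases hτ.1.eq_or_lt with h | h
    · rw [← h]; simp
    · have hne : 1 + (τ : ℂ) * (3 / 2 - 1) ≠ 1 := by
        intro hh
        have h4 : (τ : ℂ) = 0 := by linear_combination 2 * hh
        rw [Complex.ofReal_eq_zero] at h4
        exact h.ne' h4
      rw [if_neg hne]
      have e1 : (Real.pi : ℂ) * (1 + (τ : ℂ) * (3 / 2 - 1)) =
          ((Real.pi / 2 * τ : ℝ) : ℂ) + Real.pi := by push_cast; ring
      rw [e1, Complex.cos_add_pi, Complex.sin_add_pi, neg_div_neg_eq, ← Complex.ofReal_cos,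
        ← Complex.ofReal_sin]
      have h5 : Real.pi / 2 * τ ≠ 0 := by positivity
      simp only
      rw [Real.sinc_of_ne_zero h5]
      push_cast
      have h6 : Complex.sin ((Real.pi : ℂ) / 2 * τ) ≠ 0 := by
        have : 0 < Real.sin (Real.pi / 2 * τ) :=
          Real.sin_pos_of_pos_of_lt_pi (by positivity) (by nlinarith [hτ.2])
        have h7 := this.ne'
        rw [← Complex.ofReal_ne_zero] at h7
        push_cast at h7
        exact h7
      have h8 : (Real.pi : ℂ) / 2 * τ ≠ 0 := by
        have h9 := h5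
        rw [← Complex.ofReal_ne_zero] at h9
        push_cast at h9
        exact h9
      field_simp
      ring
  rw [intervalIntegral.integral_congr hgg, intervalIntegral.integral_ofReal,
    intervalIntegral.integral_comp_mul_left (fun x : ℝ => Real.cos x / Real.sinc x)
      (by positivity : Real.pi / 2 ≠ 0), mul_zero, mul_one, gl_int]
  have : (Real.pi / 2)⁻¹ • (Real.pi / 2 * Real.log 2) = Real.log 2 := by
    rw [smul_eq_mul]; field_simp
  rw [this]
  ring

/-- keep this signature -/
theorem thm_GL (h1 : St_GG) (h2 : St_G1) : St_GL := by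
  have hpi : (Real.pi : ℂ) ≠ 0 := by exact_mod_cast Real.pi_ne_zero
  have hre : ∀ u : ℂ, 0 < u.re → u.re < 1 → 0 < (2 * Complex.sin (Real.pi * u)).re := by
    intro u h0 h3
    have e : (2 * Complex.sin (Real.pi * u)).re =
        2 * (Real.sin (Real.pi * u.re) * Real.cosh (Real.pi * u.im)) := by
      have e1 : (Real.pi : ℂ) * u = ((Real.pi * u.re : ℝ) : ℂ) +
          ((Real.pi * u.im : ℝ) : ℂ) * Complex.I := by
        nth_rewrite 1 [← Complex.re_add_im u]
        push_cast; ring
      have e2 : 2 * Complex.sin (Real.pi * u) =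
          ((2 * (Real.sin (Real.pi * u.re) * Real.cosh (Real.pi * u.im)) : ℝ) : ℂ) +
          ((2 * (Real.cos (Real.pi * u.re) * Real.sinh (Real.pi * u.im)) : ℝ) : ℂ) *
            Complex.I := by
        rw [e1, Complex.sin_add, Complex.cos_mul_I, Complex.sin_mul_I, ← Complex.ofReal_sin,
          ← Complex.ofReal_cos, ← Complex.ofReal_cosh, ← Complex.ofReal_sinh]
        push_cast
        ring
      rw [e2, Complex.add_re, Complex.ofReal_re, Complex.re_ofReal_mul, Complex.I_re, mul_zero,
        add_zero]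
    rw [e]
    have hs : 0 < Real.sin (Real.pi * u.re) :=
      Real.sin_pos_of_pos_of_lt_pi (by positivity) (by nlinarith [Real.pi_pos])
    have hc := Real.cosh_pos (Real.pi * u.im)
    positivity
  have hder : ∀ u : ℂ, 0 < u.re → u.re < 1 → HasDerivAt (fun u => G1 (u + 1) - G1 u)
      (Real.pi * (Complex.cos (Real.pi * u) / Complex.sin (Real.pi * u))) u := by
    intro u h0 h3
    have a1 := h2.1 (u + 1) (by simp; linarith) (by simp; linarith)
    have a2 := h2.1 u h0 (by linarith)
    have a3 : HasDerivAt (fun u : ℂ => u + 1) 1 u := by simpa using (hasDerivAt_id u).add_const 1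
    have a4 := (HasDerivAt.comp u a1 a3).sub a2
    rw [mul_one, h1.2.2.2 u h0 h3] at a4
    exact a4
  have hlog : ∀ u : ℂ, 0 < u.re → u.re < 1 → HasDerivAt
      (fun u => Complex.log (2 * Complex.sin (Real.pi * u)))
      (Real.pi * (Complex.cos (Real.pi * u) / Complex.sin (Real.pi * u))) u := by
    intro u h0 h3
    have a1 : HasDerivAt (fun z : ℂ => (Real.pi : ℂ) * z) (Real.pi : ℂ) u := by
      simpa using (hasDerivAt_id u).const_mul (Real.pi : ℂ)
    have a2 := (a1.csin.const_mul 2).clog (Or.inl (hre u h0 h3))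
    refine a2.congr_deriv ?_
    have hs : Complex.sin (Real.pi * u) ≠ 0 := by
      intro hh
      have := hre u h0 h3
      rw [hh] at this
      simp at this
    field_simp
  intro u h0 h3
  have hU : IsOpen {z : ℂ | 0 < z.re ∧ z.re < 1} :=
    (isOpen_lt continuous_const Complex.continuous_re).inter
      (isOpen_lt Complex.continuous_re continuous_const)
  have hC : Convex ℝ {z : ℂ | 0 < z.re ∧ z.re < 1} :=
    (convex_halfSpace_re_gt 0).inter (convex_halfSpace_re_lt 1)
  have hhalf : (1 / 2 : ℂ) ∈ {z : ℂ | 0 < z.re ∧ z.re < 1} := by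
    constructor <;> norm_num
  refine hU.eqOn_of_deriv_eq hC.isPreconnected
    (f := fun u => G1 (u + 1) - G1 u) (g := fun u => Complex.log (2 * Complex.sin (Real.pi * u)))
    (fun z hz => (hder z hz.1 hz.2).differentiableAt.differentiableWithinAt)
    (fun z hz => (hlog z hz.1 hz.2).differentiableAt.differentiableWithinAt)
    (fun z hz => by rw [(hder z hz.1 hz.2).deriv, (hlog z hz.1 hz.2).deriv]) hhalf ?_ ⟨h0, h3⟩
  show G1 (1 / 2 + 1) - G1 (1 / 2) = Complex.log (2 * Complex.sin (Real.pi * (1 / 2)))
  rw [gl_const h2]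
  have e1 : (Real.pi : ℂ) * (1 / 2) = Real.pi / 2 := by ring
  rw [e1, Complex.sin_pi_div_two, mul_one, Complex.ofReal_log (by norm_num)]
  norm_num

end Pool.Agent.PAN
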