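import Mathlib
import Pool.Agent.PAN.Stmts

set_option autoImplicit false

/-!
# PAN / GNm: the function gN
-/

namespace Pool.Agent.PAN

open Finset Filter

private theorem gn_re {N : ℕ} (hN : 1 ≤ N) {x : ℂ} (h0 : 0 < x.re) (h1 : x.re < N + 1) {k : ℕ}
    (hk : k ∈ range N) : 0 < ((x + k) / N).re ∧ ((x + k) / N).re < 2 := by
  have hN0 : (0 : ℝ) < N := by exact_mod_cast hN
  have e : ((x + k) / N : ℂ).re = (x.re + k) / N := by
    rw [Complex.div_natCast_re]; simp
  rw [e]
  have hk' : (k : ℝ) + 1 ≤ N := by exact_mod_cast Finset.mem_range.1 hk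
  have hk0 : (0 : ℝ) ≤ k := by positivity
  constructor
  · positivity
  · rw [div_lt_iff₀ hN0]; linarith

private theorem gn_LN_conj (h1 : St_G1) {N : ℕ} (hN : 1 ≤ N) {x : ℂ} (h0 : 0 < x.re)
    (h2 : x.re < N + 1) : LN N ((starRingEnd ℂ) x) = (starRingEnd ℂ) (LN N x) := by
  unfold LN
  rw [map_sum]
  refine Finset.sum_congr rfl fun k hk => ?_
  obtain ⟨a1, a2⟩ := gn_re hN h0 h2 hk
  rw [← h1.2.2.2 _ a1 a2]
  congr 1
  rw [map_div₀, map_add, Complex.conj_natCast, Complex.conj_natCast]

/-- keep this signature -/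
theorem thm_gN (h1 : St_G1) (h2 : St_GL) : St_gN := by
  intro N hN
  have hN0 : (0 : ℝ) < N := by exact_mod_cast hN
  have hNc : (N : ℂ) ≠ 0 := by exact_mod_cast hN0.ne'
  refine ⟨fun x h0 h3 => ?_, fun x h0 h3 => ?_, fun x h0 h3 => ?_, fun x h0 h3 => ?_,
    fun x h0 h3 => ?_⟩
  · unfold gN LN
    refine DifferentiableAt.cexp ?_
    refine DifferentiableAt.fun_sum fun k hk => ?_
    obtain ⟨a1, a2⟩ := gn_re hN h0 h3 hk
    have b1 := (h1.1 _ a1 a2).differentiableAt
    have b2 : DifferentiableAt ℂ (fun x : ℂ => (x + k) / N) x := by fun_prop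
    exact DifferentiableAt.comp (g := G1) x b1 b2
  · have e1 : LN N (x + 1) - LN N x = Complex.log (2 * Complex.sin (Real.pi * x / N)) := by
      unfold LN
      rw [← Finset.sum_sub_distrib]
      have e2 : ∀ k ∈ range N, G1 ((x + 1 + k) / N) - G1 ((x + k) / N) =
          (fun k : ℕ => G1 ((x + k) / N)) (k + 1) - (fun k : ℕ => G1 ((x + k) / N)) k := by
        intro k _
        have e3 : x + 1 + (k : ℂ) = x + ((k + 1 : ℕ) : ℂ) := by push_cast; ring
        simp only
        rw [e3]
      rw [Finset.sum_congr rfl e2, Finset.sum_range_sub (fun k : ℕ => G1 ((x + k) / N)) N]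
      have e4 : (x + (N : ℂ)) / N = x / N + 1 := by field_simp
      have e5 : (x + ((0 : ℕ) : ℂ)) / N = x / N := by simp
      have e6 : Real.pi * x / N = Real.pi * (x / N) := by ring
      rw [e4, e5, e6]
      refine h2 _ ?_ ?_
      · rw [Complex.div_natCast_re]; positivity
      · rw [Complex.div_natCast_re, div_lt_one hN0]; exact h3
    have hs : 2 * Complex.sin (Real.pi * x / N) ≠ 0 := by
      intro hh
      have h4 : Complex.sin (Real.pi * x / N) = 0 := (mul_eq_zero.1 hh).resolve_left two_ne_zero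
      obtain ⟨k, hk⟩ := Complex.sin_eq_zero_iff.1 h4
      have hpi : (Real.pi : ℂ) ≠ 0 := by exact_mod_cast Real.pi_ne_zero
      have h5 : x = k * N := by
        field_simp at hk
        linear_combination hk
      have h6 : x.re = k * N := by rw [h5]; simp
      rw [h6] at h0 h3
      have h7 : (0 : ℝ) < k := by
        by_contra hc
        push Not at hc
        nlinarith
      have h8 : (k : ℝ) < 1 := by nlinarith
      have h9 : (0 : ℤ) < k := by exact_mod_cast h7
      have h10 : k < (1 : ℤ) := by exact_mod_cast h8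
      omega
    unfold gN
    have e7 : LN N (x + 1) = Complex.log (2 * Complex.sin (Real.pi * x / N)) + LN N x := by
      rw [← e1]; ring
    rw [e7, Complex.exp_add, Complex.exp_log hs]
  · unfold gN
    rw [← Complex.exp_add]
    have e1 : LN N (N + 1 - x) = -LN N x := by
      unfold LN
      rw [← Finset.sum_range_reflect, ← Finset.sum_neg_distrib]
      refine Finset.sum_congr rfl fun k hk => ?_
      obtain ⟨a1, a2⟩ := gn_re hN h0 h3 hk
      rw [← h1.2.2.1 _ a1 a2]
      congr 1
      have hk' : k + 1 ≤ N := Finset.mem_range.1 hk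
      have e2 : ((N - 1 - k : ℕ) : ℂ) = (N : ℂ) - 1 - k := by
        rw [Nat.sub_sub, Nat.cast_sub (by omega)]
        push_cast; ring
      rw [e2]
      field_simp
      ring
    rw [e1, add_neg_cancel, Complex.exp_zero]
  · unfold gN
    rw [gn_LN_conj h1 hN h0 h3, Complex.exp_conj]
  · have e1 := gn_LN_conj h1 hN (x := (x : ℂ)) (by simpa using h0) (by simpa using h3)
    rw [Complex.conj_ofReal] at e1
    obtain ⟨r, hr⟩ := Complex.conj_eq_iff_real.1 e1.symm
    refine ⟨Real.exp r, Real.exp_pos r, ?_⟩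
    unfold gN
    rw [hr, Complex.ofReal_exp]

end Pool.Agent.PAN
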