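import Mathlib
import Pool.Agent.PAN.Stmts

set_option autoImplicit false

/-!
# PAN / GV: vertical growth of G1
-/

namespace Pool.Agent.PAN

open Finset Filter

/-- keep this signature -/
theorem thm_GV (h1 : St_G1) (h2 : St_GB) : St_GV := by
  intro δ hδ
  have hpi := Real.pi_pos
  obtain ⟨C₀, hC₀, hb⟩ := h2 δ hδ
  have hcont : ContinuousOn (fun x : ℝ => (G1 (x : ℂ)).re) (Set.Icc δ (2 - δ)) := by
    intro x hx
    have a1 := (h1.1 (x : ℂ) (by simpa using hδ.trans_le hx.1)
      (by simp; linarith [hx.2])).continuousAt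
    have a2 : ContinuousAt (fun x : ℝ => (x : ℂ)) x := Complex.continuous_ofReal.continuousAt
    have a3 := ContinuousAt.comp (f := fun x : ℝ => (x : ℂ)) a1 a2
    exact (Complex.continuous_re.continuousAt.comp a3).continuousWithinAt
  obtain ⟨M, hM⟩ := isCompact_Icc.exists_bound_of_continuousOn hcont
  set K : ℝ := (C₀ + Real.pi) * Real.exp 1 with hK
  have hKpos : 0 < K := by positivity
  -- the case of nonnegative imaginary part
  have key : ∀ x : ℝ, δ ≤ x → x ≤ 2 - δ → ∀ Y : ℝ, 0 ≤ Y →
      |(G1 ((x : ℂ) + (Y : ℂ) * Complex.I)).re + Real.pi * (1 - x) * Y| ≤ |M| + K := by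
    intro x hx1 hx2 Y hY
    have hder : ∀ y : ℝ, HasDerivAt
        (fun y : ℝ => (G1 ((x : ℂ) + (y : ℂ) * Complex.I)).re + Real.pi * (1 - x) * y)
        (-((gg ((x : ℂ) + (y : ℂ) * Complex.I)).im + Real.pi * (x - 1))) y := by
      intro y
      have a1 := h1.1 ((x : ℂ) + (y : ℂ) * Complex.I) (by simpa using hδ.trans_le hx1)
        (by simp; linarith)
      have a2 : HasDerivAt (fun y : ℝ => (x : ℂ) + (y : ℂ) * Complex.I) Complex.I y := by
        have a3 : HasDerivAt (fun y : ℝ => (y : ℂ)) 1 y := Complex.ofRealCLM.hasDerivAt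
        simpa using (a3.mul_const Complex.I).const_add (x : ℂ)
      have a4 := HasDerivAt.comp y a1 a2
      have a5 : HasDerivAt (fun y : ℝ => (G1 ((x : ℂ) + (y : ℂ) * Complex.I)).re)
          (gg ((x : ℂ) + (y : ℂ) * Complex.I) * Complex.I).re y := by
        exact Complex.reCLM.hasFDerivAt.comp_hasDerivAt y a4
      have a6 : HasDerivAt (fun y : ℝ => Real.pi * (1 - x) * y) (Real.pi * (1 - x)) y := by
        simpa using (hasDerivAt_id y).const_mul (Real.pi * (1 - x))
      refine (a5.add a6).congr_deriv ?_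
      rw [Complex.mul_I_re]
      ring
    have hbd : ∀ y : ℝ, 0 ≤ y → ‖-((gg ((x : ℂ) + (y : ℂ) * Complex.I)).im +
        Real.pi * (x - 1))‖ ≤ K * Real.exp (-y) := by
      intro y hy
      rw [norm_neg, Real.norm_eq_abs]
      have hre : ((x : ℂ) + (y : ℂ) * Complex.I).re = x := by simp
      have him : ((x : ℂ) + (y : ℂ) * Complex.I).im = y := by simp
      have b := hb ((x : ℂ) + (y : ℂ) * Complex.I) (by rw [hre]; exact hx1) (by rw [hre]; exact hx2)
      rw [hre, him] at b
      rcases le_or_gt 1 y with h3 | h3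
      · have h4 : |y| = y := abs_of_nonneg hy
        have h5 := b.2.2 (by rw [h4]; exact h3)
        rw [h4, div_self (by linarith : y ≠ 0), mul_one] at h5
        refine h5.trans (mul_le_mul_of_nonneg_right ?_ (Real.exp_pos _).le)
        rw [hK]
        have h6 := Real.add_one_le_exp (1 : ℝ)
        nlinarith
      · have h4 : |Real.pi * (x - 1)| ≤ Real.pi := by
          rw [abs_mul, abs_of_pos hpi]
          have : |x - 1| ≤ 1 := by rw [abs_le]; constructor <;> linarith
          nlinarith
        have h5 := abs_add_le (gg ((x : ℂ) + (y : ℂ) * Complex.I)).im (Real.pi * (x - 1))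
        have h6 : 1 ≤ Real.exp 1 * Real.exp (-y) := by
          rw [← Real.exp_add]; exact Real.one_le_exp (by linarith)
        have h7 : K * Real.exp (-y) = (C₀ + Real.pi) * (Real.exp 1 * Real.exp (-y)) := by
          rw [hK]; ring
        rw [h7]
        nlinarith [b.1]
    have hB := image_norm_le_of_norm_deriv_right_le_deriv_boundary (a := (0 : ℝ)) (b := Y)
      (f := fun y : ℝ => (G1 ((x : ℂ) + (y : ℂ) * Complex.I)).re + Real.pi * (1 - x) * y)
      (f' := fun y : ℝ => -((gg ((x : ℂ) + (y : ℂ) * Complex.I)).im + Real.pi * (x - 1)))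
      (B := fun y : ℝ => |M| + K * (1 - Real.exp (-y)))
      (B' := fun y : ℝ => K * Real.exp (-y))
      (fun y _ => (hder y).continuousAt.continuousWithinAt)
      (fun y _ => (hder y).hasDerivWithinAt)
      (by
        have h3 := hM x ⟨hx1, hx2⟩
        simp only [Complex.ofReal_zero, zero_mul, add_zero, mul_zero, neg_zero, Real.exp_zero,
          sub_self]
        exact h3.trans (le_abs_self M))
      (fun y => by
        have h3 : HasDerivAt (fun y : ℝ => Real.exp (-y)) (Real.exp (-y) * (-1)) y :=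
          (hasDerivAt_neg y).exp
        have h4 := ((h3.const_sub 1).const_mul K).const_add |M|
        refine h4.congr_deriv ?_
        ring)
      (fun y hy => hbd y hy.1)
      (x := Y) ⟨hY, le_refl _⟩
    rw [Real.norm_eq_abs] at hB
    refine hB.trans ?_
    have h5 := Real.exp_pos (-Y)
    nlinarith
  refine ⟨|M| + K, by positivity, fun u hu1 hu2 => ?_⟩
  rcases le_total 0 u.im with h3 | h3
  · rw [abs_of_nonneg h3]
    have h4 := key u.re hu1 hu2 u.im h3
    rwa [Complex.re_add_im] at h4
  · rw [abs_of_nonpos h3]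
    have h4 := key u.re hu1 hu2 (-u.im) (by linarith)
    have h5 : (u.re : ℂ) + ((-u.im : ℝ) : ℂ) * Complex.I = (starRingEnd ℂ) u := by
      apply Complex.ext <;> simp
    rw [h5, h1.2.2.2 u (by linarith) (by linarith), Complex.conj_re] at h4
    exact h4

end Pool.Agent.PAN
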