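import Mathlib
import Pool.Agent.PAN.Stmts

set_option autoImplicit false

/-!
# PAN / I2: uniform bound for the weight
-/

namespace Pool.Agent.PAN

open Finset Filter

/-- keep this signature -/
theorem thm_I2 (h1 : St_D2) (h2 : St_E0) (h3 : St_E3) : St_I2 := by
  intro δ hδ
  have hpi := Real.pi_pos
  have hpi1 : 1 ≤ Real.pi := by linarith [Real.pi_gt_three]
  obtain ⟨C₁, hC₁, hD⟩ := h1 (δ / Real.pi) (by positivity)
  obtain ⟨c₃, hc₃, hE⟩ := h3 δ hδ
  obtain ⟨N₁, hN₁⟩ := exists_nat_ge (6 * Real.pi * C₁ / c₃)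
  refine ⟨c₃ / (2 * Real.pi), Real.exp (6 * C₁), max 1 N₁, by positivity, Real.exp_pos _,
    le_max_left _ _, fun N hN a η ha hs hη => ?_⟩
  have hNa : 1 ≤ N := (le_max_left _ _).trans hN
  have hNb : (6 * Real.pi * C₁ / c₃) ≤ N :=
    hN₁.trans (by exact_mod_cast (le_max_right 1 N₁).trans hN)
  rw [div_le_iff₀ hc₃] at hNb
  have hub : ∀ i, a i ≤ Real.pi - δ := by
    intro i
    have a0 := ha 0
    have a1 := ha 1
    have a2 := ha 2
    rw [Fin.sum_univ_three] at hs
    fin_cases i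
    · show a 0 ≤ _; linarith
    · show a 1 ≤ _; linarith
    · show a 2 ≤ _; linarith
  set m : ℝ := min ‖η‖ (‖η‖ ^ 2) with hm
  have hone : ∀ i, (LN N ((N + 1) * ((a i : ℂ) + (η i : ℂ) * Complex.I) / Real.pi)).re ≤
      -(N / Real.pi) * (Lob (a i) + EE (a i) (η i)) + C₁ * (1 + ‖η‖) := by
    intro i
    set u : ℂ := ((a i : ℂ) + (η i : ℂ) * Complex.I) / Real.pi with hu
    have hure : u.re = a i / Real.pi := by
      rw [hu, Complex.div_ofReal_re]; simp
    have huim : u.im = η i / Real.pi := by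
      rw [hu, Complex.div_ofReal_im]; simp
    have e1 : (N + 1) * ((a i : ℂ) + (η i : ℂ) * Complex.I) / Real.pi = (N + 1) * u := by
      rw [hu]; ring
    rw [e1]
    have h4 := hD N hNa u (by rw [hure]; gcongr; exact ha i) (by
      rw [hure, div_le_iff₀ hpi, sub_mul, div_mul_cancel₀ _ hpi.ne', one_mul]; exact hub i)
    have h5 := h2 (a i) (η i) (hδ.trans_le (ha i)) (by linarith [hub i])
    rw [← hu] at h5
    rw [h5] at h4
    have h6 := (abs_le.1 h4).2
    have h7 : |u.im| ≤ ‖η‖ := by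
      rw [huim, abs_div, abs_of_pos hpi]
      have h8 : |η i| ≤ ‖η‖ := by
        have := norm_le_pi_norm η i
        rwa [Real.norm_eq_abs] at this
      rw [div_le_iff₀ hpi]
      nlinarith [norm_nonneg η]
    have h9 : C₁ * (1 + |u.im|) ≤ C₁ * (1 + ‖η‖) := by
      refine mul_le_mul_of_nonneg_left ?_ hC₁.le
      linarith
    have e2 : (N : ℝ) * (-(1 / Real.pi) * (Lob (a i) + EE (a i) (η i))) =
        -(N / Real.pi) * (Lob (a i) + EE (a i) (η i)) := by ring
    rw [e2] at h6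
    linarith
  have hnorm : ‖WN N (fun i => (a i : ℂ) + (η i : ℂ) * Complex.I)‖ =
      Real.exp (∑ i, (LN N ((N + 1) * ((a i : ℂ) + (η i : ℂ) * Complex.I) / Real.pi)).re) := by
    unfold WN gN
    rw [norm_prod, Real.exp_sum]
    exact Finset.prod_congr rfl fun i _ => by rw [Complex.norm_exp]
  rw [hnorm, ← Real.exp_add, ← Real.exp_add, Real.exp_le_exp]
  have hsum : ∑ i, (LN N ((N + 1) * ((a i : ℂ) + (η i : ℂ) * Complex.I) / Real.pi)).re ≤
      ∑ i, (-(N / Real.pi) * (Lob (a i) + EE (a i) (η i)) + C₁ * (1 + ‖η‖)) :=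
    Finset.sum_le_sum fun i _ => hone i
  refine hsum.trans ?_
  have e3 : ∑ i, (-(N / Real.pi) * (Lob (a i) + EE (a i) (η i)) + C₁ * (1 + ‖η‖)) =
      -(N / Real.pi) * ∑ i, Lob (a i) - (N / Real.pi) * (∑ i, EE (a i) (η i)) +
        3 * (C₁ * (1 + ‖η‖)) := by
    rw [Finset.sum_add_distrib, ← Finset.mul_sum, Finset.sum_add_distrib, Finset.sum_const,
      Finset.card_univ, Fintype.card_fin, nsmul_eq_mul]
    push_cast
    ring
  rw [e3]
  have h10 := hE a η ha hs hη
  rw [← hm] at h10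
  have hm0 : 0 ≤ m := le_min (norm_nonneg _) (by positivity)
  have h11 : (N / Real.pi) * (c₃ * m) ≤ (N / Real.pi) * ∑ i, EE (a i) (η i) :=
    mul_le_mul_of_nonneg_left h10 (by positivity)
  have h12 : 3 * C₁ * ‖η‖ ≤ 3 * C₁ + c₃ / (2 * Real.pi) * N * m := by
    rcases le_total 1 ‖η‖ with h | h
    · have hmm : m = ‖η‖ := by
        rw [hm]; exact min_eq_left (by nlinarith)
      rw [hmm]
      have h13 : 3 * C₁ ≤ c₃ / (2 * Real.pi) * N := by
        rw [div_mul_eq_mul_div, le_div_iff₀ (by positivity)]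
        nlinarith
      nlinarith [norm_nonneg η]
    · have h14 : 0 ≤ c₃ / (2 * Real.pi) * N * m := by positivity
      nlinarith
  have e4 : (N / Real.pi) * (c₃ * m) = 2 * (c₃ / (2 * Real.pi) * N * m) := by
    field_simp
  rw [e4] at h11
  linarith

end Pool.Agent.PAN
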