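import Mathlib
import Pool.Agent.PAN.Stmts

set_option autoImplicit false

/-!
# PAN / J3: Laplace method at a critical point
-/

namespace Pool.Agent.PAN

open Finset Filter

/-- second order expansion -/
private lemma j3_taylor (F f : ℂ → ℂ) (u f1 : ℂ) (hF : ∀ᶠ z in nhds u, HasDerivAt F (f z) z)
    (hf : HasDerivAt f f1 u) : ∀ ε : ℝ, 0 < ε → ∃ δ : ℝ, 0 < δ ∧ ∀ h : ℂ, ‖h‖ < δ →
      ‖F (u + h) - F u - f u * h - f1 * h ^ 2 / 2‖ ≤ ε * ‖h‖ ^ 2 := by
  intro ε hε
  have h1 := hf.isLittleO
  rw [Asymptotics.isLittleO_iff] at h1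
  have h2 := h1 hε
  obtain ⟨δ, hδ, hball⟩ := Metric.eventually_nhds_iff_ball.1 (hF.and h2)
  refine ⟨δ, hδ, fun h hh => ?_⟩
  set R : ℂ → ℂ := fun z => F z - f u * (z - u) - f1 * (z - u) ^ 2 / 2 with hR
  have hd : ∀ z ∈ Metric.closedBall u ‖h‖, HasDerivWithinAt R
      (f z - f u - f1 * (z - u)) (Metric.closedBall u ‖h‖) z := by
    intro z hz
    have hz' : z ∈ Metric.ball u δ := by
      rw [Metric.mem_closedBall] at hz
      rw [Metric.mem_ball]
      linarith
    have h3 := (hball z hz').1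
    have h4 : HasDerivAt (fun z : ℂ => f u * (z - u)) (f u * 1) z :=
      ((hasDerivAt_id z).sub_const u).const_mul (f u)
    have h5 : HasDerivAt (fun z : ℂ => f1 * (z - u) ^ 2 / 2)
        (f1 * (((2 : ℕ) : ℂ) * (z - u) ^ 1 * 1) / 2) z :=
      ((((hasDerivAt_id z).sub_const u).pow 2).const_mul f1).div_const 2
    have h6 := ((h3.sub h4).sub h5).hasDerivWithinAt (s := Metric.closedBall u ‖h‖)
    refine h6.congr_deriv ?_
    push_cast
    ring
  have hb : ∀ z ∈ Metric.closedBall u ‖h‖, ‖f z - f u - f1 * (z - u)‖ ≤ ε * ‖h‖ := by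
    intro z hz
    have hz' : z ∈ Metric.ball u δ := by
      rw [Metric.mem_closedBall] at hz
      rw [Metric.mem_ball]
      linarith
    have h3 := (hball z hz').2
    rw [Metric.mem_closedBall, dist_eq_norm] at hz
    calc ‖f z - f u - f1 * (z - u)‖ = ‖f z - f u - (z - u) • f1‖ := by
          rw [smul_eq_mul, mul_comm]
      _ ≤ ε * ‖z - u‖ := h3
      _ ≤ ε * ‖h‖ := mul_le_mul_of_nonneg_left hz hε.le
  have h3 := Convex.norm_image_sub_le_of_norm_hasDerivWithin_le hd hb
    (convex_closedBall u ‖h‖) (Metric.mem_closedBall_self (norm_nonneg h))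
    (y := u + h) (by rw [Metric.mem_closedBall, dist_eq_norm, add_sub_cancel_left])
  have h4 : R (u + h) - R u = F (u + h) - F u - f u * h - f1 * h ^ 2 / 2 := by
    simp only [hR]
    ring
  rw [h4, add_sub_cancel_left] at h3
  calc _ ≤ ε * ‖h‖ * ‖h‖ := h3
    _ = ε * ‖h‖ ^ 2 := by ring

private lemma j3_lim (F f : ℂ → ℂ) (u f1 k : ℂ) (hF : ∀ᶠ z in nhds u, HasDerivAt F (f z) z)
    (hf : HasDerivAt f f1 u) :
    Tendsto (fun N : ℕ => (N : ℂ) * (F (u + k / (Real.sqrt N : ℝ)) - F u) -
      f u * k * (Real.sqrt N : ℝ)) atTop (nhds (f1 * k ^ 2 / 2)) := by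
  rw [Metric.tendsto_atTop]
  intro η hη
  set ε := η / (2 * (‖k‖ ^ 2 + 1)) with hε
  have hε0 : 0 < ε := by positivity
  obtain ⟨δ, hδ, hT⟩ := j3_taylor F f u f1 hF hf ε hε0
  obtain ⟨N₀, hN₀⟩ := exists_nat_gt ((‖k‖ / δ) ^ 2 + 1)
  refine ⟨N₀, fun N hN => ?_⟩
  have hN1 : (‖k‖ / δ) ^ 2 + 1 < (N : ℝ) := lt_of_lt_of_le hN₀ (by exact_mod_cast hN)
  have hNpos : 0 < (N : ℝ) := by
    have := sq_nonneg (‖k‖ / δ)
    linarith
  have hs : 0 < Real.sqrt N := Real.sqrt_pos.2 hNpos
  have hsq : Real.sqrt N * Real.sqrt N = N := Real.mul_self_sqrt hNpos.le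
  have hsc : ((Real.sqrt N : ℝ) : ℂ) ≠ 0 := by
    exact_mod_cast hs.ne'
  have hsqc : ((Real.sqrt N : ℝ) : ℂ) * ((Real.sqrt N : ℝ) : ℂ) = (N : ℂ) := by
    exact_mod_cast hsq
  set h : ℂ := k / (Real.sqrt N : ℝ) with hh
  have hnorm : ‖h‖ = ‖k‖ / Real.sqrt N := by
    rw [hh, norm_div, Complex.norm_real, Real.norm_eq_abs, abs_of_pos hs]
  have hlt : ‖h‖ < δ := by
    rw [hnorm, div_lt_iff₀ hs]
    have h1 : ‖k‖ / δ < Real.sqrt N := by
      apply Real.lt_sqrt_of_sq_lt
      linarith
    rw [div_lt_iff₀ hδ] at h1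
    linarith
  have h1 := hT h hlt
  have e1 : (N : ℂ) * (F (u + h) - F u) - f u * k * (Real.sqrt N : ℝ) - f1 * k ^ 2 / 2 =
      (N : ℂ) * (F (u + h) - F u - f u * h - f1 * h ^ 2 / 2) := by
    have e2 : (N : ℂ) * h = k * (Real.sqrt N : ℝ) := by
      rw [hh, ← hsqc]
      field_simp
    have e3 : (N : ℂ) * h ^ 2 = k ^ 2 := by
      rw [hh, ← hsqc]
      field_simp
    linear_combination (f u) * e2 + (f1 / 2) * e3
  rw [dist_eq_norm, e1, norm_mul, Complex.norm_natCast]
  have h2 : (N : ℝ) * (ε * ‖h‖ ^ 2) = ε * ‖k‖ ^ 2 := by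
    rw [hnorm, div_pow, Real.sq_sqrt hNpos.le]
    field_simp
  calc (N : ℝ) * ‖F (u + h) - F u - f u * h - f1 * h ^ 2 / 2‖ ≤ (N : ℝ) * (ε * ‖h‖ ^ 2) :=
        mul_le_mul_of_nonneg_left h1 hNpos.le
    _ = ε * ‖k‖ ^ 2 := h2
    _ < η := by
        rw [hε]
        have h3 : 0 ≤ ‖k‖ ^ 2 := sq_nonneg _
        rw [div_mul_eq_mul_div, div_lt_iff₀ (by positivity)]
        nlinarith

/-- exponential decay is integrable -/
private lemma j3_int (d : ℕ) (k : ℝ) (hk : 0 < k) :
    MeasureTheory.Integrable (fun v : Fin d → ℝ => Real.exp (-k * ‖v‖)) := by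
  have h1 : MeasureTheory.Integrable
      (fun v : Fin d → ℝ => (1 + ‖v‖) ^ (-((d + 1 : ℕ) : ℝ))) := by
    apply integrable_one_add_norm
    rw [Module.finrank_fin_fun]
    push_cast
    linarith
  have h2 := h1.const_mul (((d + 1).factorial : ℝ) * Real.exp k / k ^ (d + 1))
  apply h2.mono'
  · exact (Real.continuous_exp.comp (continuous_const.mul continuous_norm)).aestronglyMeasurable
  · apply Filter.Eventually.of_forall
    intro v
    have hv := norm_nonneg v
    rw [Real.norm_eq_abs, abs_of_pos (Real.exp_pos _)]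
    have h3 : (k * (1 + ‖v‖)) ^ (d + 1) / (d + 1).factorial ≤ Real.exp (k * (1 + ‖v‖)) :=
      Real.pow_div_factorial_le_exp _ (by positivity) _
    have h4 : (1 + ‖v‖) ^ (-((d + 1 : ℕ) : ℝ)) = ((1 + ‖v‖) ^ (d + 1))⁻¹ := by
      rw [Real.rpow_neg (by positivity), Real.rpow_natCast]
    rw [h4]
    have h5 : (0 : ℝ) < (d + 1).factorial := by exact_mod_cast Nat.factorial_pos _
    rw [mul_pow, div_le_iff₀ h5] at h3
    have h6 : Real.exp (k * (1 + ‖v‖)) = Real.exp k * Real.exp (k * ‖v‖) := by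
      rw [← Real.exp_add]; congr 1; ring
    rw [h6] at h3
    have h7 : Real.exp (-k * ‖v‖) = (Real.exp (k * ‖v‖))⁻¹ := by
      rw [← Real.exp_neg]; congr 1; ring
    rw [h7, ← one_div, ← one_div, div_mul_div_comm, div_le_div_iff₀ (Real.exp_pos _) (by positivity)]
    calc 1 * (k ^ (d + 1) * (1 + ‖v‖) ^ (d + 1)) ≤
          Real.exp k * Real.exp (k * ‖v‖) * (d + 1).factorial := by rw [one_mul]; exact h3
      _ = _ := by ring

private lemma j3_min (c N r : ℝ) (hc : 0 < c) (hN : 1 ≤ N) (hr : 0 ≤ r) :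
    Real.exp (-c * N * min ((Real.sqrt N)⁻¹ * r) (((Real.sqrt N)⁻¹ * r) ^ 2)) ≤
      Real.exp c * Real.exp (-c * r) := by
  rw [← Real.exp_add]
  apply Real.exp_le_exp.2
  have hN0 : 0 < N := by linarith
  have hs : 0 < Real.sqrt N := Real.sqrt_pos.2 hN0
  have hsq : Real.sqrt N * Real.sqrt N = N := Real.mul_self_sqrt hN0.le
  have hs1 : 1 ≤ Real.sqrt N := by
    rw [show (1 : ℝ) = Real.sqrt 1 by rw [Real.sqrt_one]]
    exact Real.sqrt_le_sqrt hN
  have h1 : r - 1 ≤ N * min ((Real.sqrt N)⁻¹ * r) (((Real.sqrt N)⁻¹ * r) ^ 2) := by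
    rcases le_total ((Real.sqrt N)⁻¹ * r) (((Real.sqrt N)⁻¹ * r) ^ 2) with h | h
    · rw [min_eq_left h]
      have h2 : N * ((Real.sqrt N)⁻¹ * r) = Real.sqrt N * r := by
        have : N * (Real.sqrt N)⁻¹ = Real.sqrt N := by
          rw [← div_eq_mul_inv, div_eq_iff hs.ne', hsq]
        rw [← mul_assoc, this]
      rw [h2]
      nlinarith
    · rw [min_eq_right h]
      have h2 : N * ((Real.sqrt N)⁻¹ * r) ^ 2 = r ^ 2 := by
        rw [mul_pow, inv_pow, Real.sq_sqrt hN0.le, ← mul_assoc, mul_inv_cancel₀ hN0.ne', one_mul]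
      rw [h2]
      nlinarith [sq_nonneg (r - 1 / 2)]
  nlinarith

/-- keep this signature -/
theorem thm_J3 (h0 : St_gN) (h1 : St_D1) (h2 : St_Ph) (h3 : St_Z2) : St_J3 := by
  intro J _ d L hL hLs α hα l hcrit
  classical
  -- lower bound for the angles
  obtain ⟨δ, hδ, hδα⟩ : ∃ δ : ℝ, 0 < δ ∧ ∀ t i, δ ≤ α t i := by
    rcases isEmpty_or_nonempty J with hJ | hJ
    · exact ⟨1, one_pos, fun t => isEmptyElim t⟩
    · obtain ⟨p, hp⟩ := Finite.exists_min (fun p : J × Fin 3 => α p.1 p.2)
      exact ⟨α p.1 p.2, (hα p.1).1 p.2, fun t i => hp (t, i)⟩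
  have hαpi : ∀ t i, α t i < Real.pi := by
    intro t i
    have h := (hα t).2
    have hp := (hα t).1
    rw [Fin.sum_univ_three] at h
    have p0 := hp 0
    have p1 := hp 1
    have p2 := hp 2
    fin_cases i
    · change α t 0 < _; linarith
    · change α t 1 < _; linarith
    · change α t 2 < _; linarith
  obtain ⟨c, C, N₁, hc, hC, hN₁, hZ⟩ := h3 J δ hδ
  obtain ⟨K, hK, hanti⟩ := (LinearMap.injective_iff_antilipschitz L).1 hL
  have hK0 : (0 : ℝ) < K := by exact_mod_cast hK
  have hLbound : ∀ v, ‖v‖ ≤ K * ‖L v‖ := fun v =>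
    ZeroHomClass.bound_of_antilipschitz L hanti v
  have hLcont : Continuous L := L.continuous_of_finiteDimensional
  have hlcont : Continuous l := l.continuous_of_finiteDimensional
  set V : ℝ := l α - Vol α with hV
  set f : ℕ → (Fin d → ℝ) → ℂ := fun N y => zz N l α (L y) with hf
  set G : ℕ → (Fin d → ℝ) → ℂ := fun N v =>
    ((Real.exp (-(N / Real.pi * V)) : ℝ) : ℂ) * f N ((Real.sqrt N)⁻¹ • v) with hG
  -- the limit function
  set E : (Fin d → ℝ) → ℝ := fun v => ∑ t, ∑ i,
    ((α t i / Real.pi - 1 / 2) * Real.log (2 * Real.sin (α t i)) -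
      1 / (2 * Real.pi) * (Real.cos (α t i) / Real.sin (α t i)) * (L v t i) ^ 2) with hE
  -- continuity of the integrand
  have hfc : ∀ N : ℕ, 1 ≤ N → Continuous (f N) := by
    intro N hN
    have hNpos : (0 : ℝ) < (N : ℝ) + 1 := by positivity
    have hgc : ∀ x : ℂ, 0 < x.re → x.re < N + 1 → ContinuousAt (gN N) x := fun x hx1 hx2 =>
      ((h0 N hN).1 x hx1 hx2).continuousAt
    simp only [hf, zz, WN]
    apply Continuous.mul
    · apply continuous_finsetProd
      intro t _
      apply continuous_finsetProd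
      intro i _
      have hy : Continuous (fun y : Fin d → ℝ => L y t i) :=
        (continuous_apply i).comp ((continuous_apply t).comp hLcont)
      have harg : Continuous (fun y : Fin d → ℝ =>
          ((N : ℂ) + 1) * ((α t i : ℂ) + ((L y t i : ℝ) : ℂ) * Complex.I) / Real.pi) := by
        apply Continuous.div_const
        apply continuous_const.mul
        exact continuous_const.add ((Complex.continuous_ofReal.comp hy).mul continuous_const)
      rw [continuous_iff_continuousAt]
      intro y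
      have hre : (((N : ℂ) + 1) * ((α t i : ℂ) + ((L y t i : ℝ) : ℂ) * Complex.I) /
          Real.pi).re = ((N : ℝ) + 1) * (α t i / Real.pi) := by
        have : ((N : ℂ) + 1) * ((α t i : ℂ) + ((L y t i : ℝ) : ℂ) * Complex.I) / Real.pi =
            ((((N : ℝ) + 1) * (α t i / Real.pi) : ℝ) : ℂ) +
              ((((N : ℝ) + 1) * (L y t i / Real.pi) : ℝ) : ℂ) * Complex.I := by
          push_cast
          ring
        rw [this]
        simp
      apply ContinuousAt.comp (g := gN N)
      · apply hgc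
        · rw [hre]
          have := (hα t).1 i
          have hpi := Real.pi_pos
          positivity
        · rw [hre]
          have h4 : α t i / Real.pi < 1 := by
            rw [div_lt_one Real.pi_pos]; exact hαpi t i
          nlinarith
      · exact harg.continuousAt
    · apply Complex.continuous_exp.comp
      apply continuous_const.mul
      apply continuous_const.add
      exact (Complex.continuous_ofReal.comp (hlcont.comp hLcont)).mul continuous_const
  have hGc : ∀ N : ℕ, 1 ≤ N → Continuous (G N) := by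
    intro N hN
    exact continuous_const.mul ((hfc N hN).comp (continuous_const_smul _))
  -- domination
  have hdom : ∀ N : ℕ, N₁ ≤ N → ∀ v, ‖G N v‖ ≤
      C * Real.exp c * Real.exp (-(c / K) * ‖v‖) := by
    intro N hN v
    have hN1 : (1 : ℝ) ≤ N := by exact_mod_cast hN₁.trans hN
    have h4 := hZ N hN l α (L ((Real.sqrt N)⁻¹ • v)) hδα (fun t => (hα t).2)
      (fun t => hLs _ t)
    have hnorm : ‖L ((Real.sqrt N)⁻¹ • v)‖ = (Real.sqrt N)⁻¹ * ‖L v‖ := by
      rw [map_smul, norm_smul, Real.norm_eq_abs, abs_of_nonneg (by positivity)]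
    rw [hnorm] at h4
    have h5 := j3_min c N ‖L v‖ hc hN1 (norm_nonneg _)
    have h6 : Real.exp (-c * ‖L v‖) ≤ Real.exp (-(c / K) * ‖v‖) := by
      apply Real.exp_le_exp.2
      have h7 := hLbound v
      have h8 : c / K * ‖v‖ ≤ c * ‖L v‖ := by
        rw [div_mul_eq_mul_div, div_le_iff₀ hK0]
        nlinarith
      linarith
    simp only [hG]
    rw [norm_mul, Complex.norm_real, Real.norm_eq_abs, abs_of_pos (Real.exp_pos _)]
    calc Real.exp (-(N / Real.pi * V)) * ‖f N ((Real.sqrt N)⁻¹ • v)‖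
        ≤ Real.exp (-(N / Real.pi * V)) * (C * Real.exp ((N / Real.pi) * (l α - Vol α)) *
          Real.exp (-c * N * min ((Real.sqrt N)⁻¹ * ‖L v‖) (((Real.sqrt N)⁻¹ * ‖L v‖) ^ 2))) :=
          mul_le_mul_of_nonneg_left h4 (Real.exp_pos _).le
      _ = C * Real.exp (-c * N * min ((Real.sqrt N)⁻¹ * ‖L v‖)
            (((Real.sqrt N)⁻¹ * ‖L v‖) ^ 2)) := by
          have : Real.exp (-(N / Real.pi * V)) * Real.exp ((N / Real.pi) * (l α - Vol α)) = 1 := by
            rw [← Real.exp_add, ← hV, neg_add_cancel, Real.exp_zero]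
          calc _ = (Real.exp (-(N / Real.pi * V)) * Real.exp ((N / Real.pi) * (l α - Vol α))) *
              (C * Real.exp (-c * N * min ((Real.sqrt N)⁻¹ * ‖L v‖)
                (((Real.sqrt N)⁻¹ * ‖L v‖) ^ 2))) := by ring
            _ = _ := by rw [this, one_mul]
      _ ≤ C * (Real.exp c * Real.exp (-c * ‖L v‖)) := mul_le_mul_of_nonneg_left h5 hC.le
      _ ≤ C * (Real.exp c * Real.exp (-(c / K) * ‖v‖)) := by
          apply mul_le_mul_of_nonneg_left _ hC.le
          exact mul_le_mul_of_nonneg_left h6 (Real.exp_pos _).le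
      _ = _ := by ring
  have hbint : MeasureTheory.Integrable
      (fun v : Fin d → ℝ => C * Real.exp c * Real.exp (-(c / K) * ‖v‖)) :=
    (j3_int d (c / K) (by positivity)).const_mul _
  -- pointwise limit
  have hlim : ∀ v, Tendsto (fun N : ℕ => G N v) atTop (nhds ((Real.exp (E v) : ℝ) : ℂ)) := by
    intro v
    -- limit for one angle
    have hone : ∀ t i, Tendsto (fun N : ℕ =>
        LN N (((N : ℂ) + 1) * (((α t i : ℂ) + (((Real.sqrt N)⁻¹ * L v t i : ℝ) : ℂ) * Complex.I) /
          Real.pi)) + ((N / Real.pi * Lob (α t i) : ℝ) : ℂ) -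
          ((Real.sqrt N / Real.pi * (L v t i * Real.log (2 * Real.sin (α t i))) : ℝ) : ℂ) *
            Complex.I) atTop
        (nhds (((α t i / Real.pi - 1 / 2) * Real.log (2 * Real.sin (α t i)) -
          1 / (2 * Real.pi) * (Real.cos (α t i) / Real.sin (α t i)) * (L v t i) ^ 2 : ℝ) : ℂ)) := by
      intro t i
      have ha := (hα t).1 i
      have ha' := hαpi t i
      set a := α t i with hadef
      set w := L v t i with hw
      have hpi := Real.pi_pos
      have hpic : (Real.pi : ℂ) ≠ 0 := by exact_mod_cast hpi.ne'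
      have hx0 : 0 < a / Real.pi := by positivity
      have hx1 : a / Real.pi < 1 := by rw [div_lt_one hpi]; exact ha'
      have hsin : 0 < Real.sin a := Real.sin_pos_of_pos_of_lt_pi ha ha'
      set u₀ : ℂ := ((a / Real.pi : ℝ) : ℂ) with hu₀
      set k : ℂ := ((w / Real.pi : ℝ) : ℂ) * Complex.I with hk
      set u : ℕ → ℂ := fun N => ((a : ℂ) + (((Real.sqrt N)⁻¹ * w : ℝ) : ℂ) * Complex.I) /
        Real.pi with hu
      have hu1 : ∀ N : ℕ, u N = u₀ + k / (Real.sqrt N : ℝ) := by
        intro N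
        simp only [hu, hu₀, hk]
        push_cast
        rw [div_eq_mul_inv, div_eq_mul_inv, div_eq_mul_inv, div_eq_mul_inv]
        ring
      have hut : Tendsto u atTop (nhds u₀) := by
        have h4 : Tendsto (fun N : ℕ => (Real.sqrt (N : ℝ))⁻¹) atTop (nhds 0) :=
          tendsto_inv_atTop_zero.comp (Real.tendsto_sqrt_atTop.comp tendsto_natCast_atTop_atTop)
        have h5 : Tendsto (fun N : ℕ => u₀ + k * (((Real.sqrt (N : ℝ))⁻¹ : ℝ) : ℂ)) atTop
            (nhds (u₀ + k * ((0 : ℝ) : ℂ))) :=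
          tendsto_const_nhds.add (tendsto_const_nhds.mul
            ((Complex.continuous_ofReal.tendsto 0).comp h4))
        rw [Complex.ofReal_zero, mul_zero, add_zero] at h5
        refine h5.congr ?_
        intro N
        rw [hu1]
        push_cast
        rw [div_eq_mul_inv]
      have hre : u₀.re = a / Real.pi := by rw [hu₀, Complex.ofReal_re]
      have hD := h1 u₀ u (by rw [hre]; exact hx0) (by rw [hre]; exact hx1) hut
      -- the logarithm at `u₀`
      have hpu : (Real.pi : ℂ) * u₀ = ((a : ℝ) : ℂ) := by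
        rw [hu₀]
        push_cast
        rw [mul_div_cancel₀ _ hpic]
      have hlog : Complex.log (2 * Complex.sin (Real.pi * u₀)) =
          ((Real.log (2 * Real.sin a) : ℝ) : ℂ) := by
        rw [hpu, ← Complex.ofReal_sin]
        have : (2 : ℂ) * ((Real.sin a : ℝ) : ℂ) = ((2 * Real.sin a : ℝ) : ℂ) := by push_cast; ring
        rw [this, ← Complex.ofReal_log (by positivity)]
      have hF : ∀ᶠ z in nhds u₀, HasDerivAt Ph (Complex.log (2 * Complex.sin (Real.pi * z))) z := by
        have ho : IsOpen {z : ℂ | 0 < z.re ∧ z.re < 1} := by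
          apply IsOpen.and
          · exact isOpen_lt continuous_const Complex.continuous_re
          · exact isOpen_lt Complex.continuous_re continuous_const
        filter_upwards [ho.mem_nhds (show u₀ ∈ {z : ℂ | 0 < z.re ∧ z.re < 1} from
          ⟨by rw [hre]; exact hx0, by rw [hre]; exact hx1⟩)] with z hz
        exact h2.1 z hz.1 hz.2
      have hslit : (2 : ℂ) * Complex.sin (Real.pi * u₀) ∈ Complex.slitPlane := by
        rw [hpu, ← Complex.ofReal_sin]
        have : (2 : ℂ) * ((Real.sin a : ℝ) : ℂ) = ((2 * Real.sin a : ℝ) : ℂ) := by push_cast; ring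
        rw [this, Complex.ofReal_mem_slitPlane]
        positivity
      have hf1 : HasDerivAt (fun z : ℂ => Complex.log (2 * Complex.sin (Real.pi * z)))
          (((Real.pi * (Real.cos a / Real.sin a) : ℝ) : ℂ)) u₀ := by
        have h4 : HasDerivAt (fun z : ℂ => (Real.pi : ℂ) * z) ((Real.pi : ℂ) * 1) u₀ :=
          (hasDerivAt_id u₀).const_mul _
        have h5 := ((h4.csin).const_mul (2 : ℂ)).clog hslit
        refine h5.congr_deriv ?_
        rw [hpu, ← Complex.ofReal_sin, ← Complex.ofReal_cos]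
        have hsc : ((Real.sin a : ℝ) : ℂ) ≠ 0 := by exact_mod_cast hsin.ne'
        push_cast
        have hsc' : Complex.sin (a : ℂ) ≠ 0 := by
          rw [← Complex.ofReal_sin]; exact hsc
        field_simp
      have hT := j3_lim Ph (fun z => Complex.log (2 * Complex.sin (Real.pi * z))) u₀ _ k hF hf1
      have hPh : Ph u₀ = ((-(Lob a / Real.pi) : ℝ) : ℂ) := by
        rw [hu₀, h2.2 (a / Real.pi) hx0 hx1, mul_div_cancel₀ _ hpi.ne']
      have hsum := hD.add hT
      have htarget : (u₀ - 1 / 2) * Complex.log (2 * Complex.sin (Real.pi * u₀)) +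
          ((Real.pi * (Real.cos a / Real.sin a) : ℝ) : ℂ) * k ^ 2 / 2 =
          (((a / Real.pi - 1 / 2) * Real.log (2 * Real.sin a) -
            1 / (2 * Real.pi) * (Real.cos a / Real.sin a) * w ^ 2 : ℝ) : ℂ) := by
        rw [hlog, hk, mul_pow, Complex.I_sq, hu₀]
        push_cast
        have e : (Real.pi : ℂ) * (Complex.cos a / Complex.sin a) * (((w : ℂ) / Real.pi) ^ 2 * -1) / 2
            = -(1 / (2 * (Real.pi : ℂ)) * (Complex.cos a / Complex.sin a) * (w : ℂ) ^ 2) := by
          generalize Complex.cos a / Complex.sin a = q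
          field_simp
        rw [e]
        ring
      rw [htarget] at hsum
      refine hsum.congr ?_
      intro N
      have hLN : LN N (((N : ℂ) + 1) * u N) = LN N (((N : ℂ) + 1) * (((a : ℂ) +
          (((Real.sqrt N)⁻¹ * w : ℝ) : ℂ) * Complex.I) / Real.pi)) := rfl
      rw [hlog, ← hu1 N, hPh, hk, hLN]
      generalize LN N (((N : ℂ) + 1) * (((a : ℂ) +
          (((Real.sqrt N)⁻¹ * w : ℝ) : ℂ) * Complex.I) / Real.pi)) = q
      push_cast
      ring
    -- sum over the angles
    have hall : Tendsto (fun N : ℕ => ∑ t, ∑ i,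
        (LN N (((N : ℂ) + 1) * (((α t i : ℂ) + (((Real.sqrt N)⁻¹ * L v t i : ℝ) : ℂ) * Complex.I) /
          Real.pi)) + ((N / Real.pi * Lob (α t i) : ℝ) : ℂ) -
          ((Real.sqrt N / Real.pi * (L v t i * Real.log (2 * Real.sin (α t i))) : ℝ) : ℂ) *
            Complex.I)) atTop (nhds ((E v : ℝ) : ℂ)) := by
      have h4 := tendsto_finsetSum (s := (univ : Finset J)) (fun t _ =>
        tendsto_finsetSum (s := (univ : Finset (Fin 3))) (fun i _ => hone t i))
      have h5 : ((E v : ℝ) : ℂ) = ∑ t, ∑ i,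
          (((α t i / Real.pi - 1 / 2) * Real.log (2 * Real.sin (α t i)) -
          1 / (2 * Real.pi) * (Real.cos (α t i) / Real.sin (α t i)) * (L v t i) ^ 2 : ℝ) : ℂ) := by
        simp only [hE]
        push_cast
        rfl
      rw [h5]
      exact h4
    have hexp := (Complex.continuous_exp.tendsto _).comp hall
    rw [← Complex.ofReal_exp] at hexp
    refine hexp.congr ?_
    intro N
    simp only [Function.comp_apply]
    -- identify
    have hpi := Real.pi_pos
    have hpic : (Real.pi : ℂ) ≠ 0 := by exact_mod_cast hpi.ne'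
    have hzz : f N ((Real.sqrt N)⁻¹ • v) =
        Complex.exp (∑ t, ∑ i, LN N (((N : ℂ) + 1) *
          (((α t i : ℂ) + (((Real.sqrt N)⁻¹ * L v t i : ℝ) : ℂ) * Complex.I) / Real.pi))) *
        Complex.exp (((N / Real.pi : ℝ) : ℂ) * ((l α : ℂ) +
          (((Real.sqrt N)⁻¹ * l (L v) : ℝ) : ℂ) * Complex.I)) := by
      simp only [hf, zz, WN, gN]
      rw [Complex.exp_sum]
      congr 1
      · apply Finset.prod_congr rfl
        intro t _
        rw [Complex.exp_sum]
        apply Finset.prod_congr rfl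
        intro i _
        rw [map_smul, mul_div_assoc]
        rfl
      · rw [map_smul, map_smul, smul_eq_mul]
    simp only [hG]
    rw [hzz, Complex.ofReal_exp, ← Complex.exp_add, ← Complex.exp_add]
    congr 1
    have hcr := hcrit v
    have hs1 : ∑ t, ∑ i, ((N / Real.pi * Lob (α t i) : ℝ) : ℂ) =
        ((N / Real.pi * Vol α : ℝ) : ℂ) := by
      rw [Vol, Finset.mul_sum]
      push_cast
      apply Finset.sum_congr rfl
      intro t _
      rw [Finset.mul_sum]
    have hs2 : ∑ t, ∑ i,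
        ((Real.sqrt N / Real.pi * (L v t i * Real.log (2 * Real.sin (α t i))) : ℝ) : ℂ) *
            Complex.I = -((Real.sqrt N / Real.pi * l (L v) : ℝ) : ℂ) * Complex.I := by
      have e : l (L v) = -∑ t, ∑ i, L v t i * Real.log (2 * Real.sin (α t i)) := by linarith
      rw [e, mul_neg, Finset.mul_sum]
      push_cast
      rw [neg_neg, Finset.sum_mul]
      apply Finset.sum_congr rfl
      intro t _
      rw [Finset.mul_sum, Finset.sum_mul]
    have hsqN : ((N / Real.pi * ((Real.sqrt N)⁻¹ * l (L v)) : ℝ)) =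
        Real.sqrt N / Real.pi * l (L v) := by
      rcases Nat.eq_zero_or_pos N with hN | hN
      · subst hN; simp
      · have hNpos : (0 : ℝ) < N := by exact_mod_cast hN
        have hs : 0 < Real.sqrt N := Real.sqrt_pos.2 hNpos
        have hsq : Real.sqrt N * Real.sqrt N = N := Real.mul_self_sqrt hNpos.le
        calc (N / Real.pi * ((Real.sqrt N)⁻¹ * l (L v)) : ℝ)
            = (Real.sqrt N * Real.sqrt N) / Real.pi * ((Real.sqrt N)⁻¹ * l (L v)) := by rw [hsq]
          _ = _ := by field_simp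
    have hsqNc : ((N / Real.pi : ℝ) : ℂ) * (((Real.sqrt N)⁻¹ * l (L v) : ℝ) : ℂ) =
        ((Real.sqrt N / Real.pi * l (L v) : ℝ) : ℂ) := by
      rw [← Complex.ofReal_mul, hsqN]
    simp only [Finset.sum_sub_distrib, Finset.sum_add_distrib]
    rw [hs1, hs2]
    have hfin : ((N / Real.pi : ℝ) : ℂ) * ((l α : ℂ) +
        (((Real.sqrt N)⁻¹ * l (L v) : ℝ) : ℂ) * Complex.I) =
        ((N / Real.pi * l α : ℝ) : ℂ) + ((Real.sqrt N / Real.pi * l (L v) : ℝ) : ℂ) * Complex.I := by
      rw [mul_add, ← mul_assoc, hsqNc]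
      push_cast
      ring
    rw [hfin, hV]
    push_cast
    ring
  -- the integral of the limit
  have hEcont : Continuous (fun v => ((Real.exp (E v) : ℝ) : ℂ)) := by
    apply Complex.continuous_ofReal.comp
    apply Real.continuous_exp.comp
    simp only [hE]
    apply continuous_finsetSum
    intro t _
    apply continuous_finsetSum
    intro i _
    have hy : Continuous (fun y : Fin d → ℝ => L y t i) :=
      (continuous_apply i).comp ((continuous_apply t).comp hLcont)
    exact continuous_const.sub (continuous_const.mul (hy.pow 2))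
  have hEb : ∀ v, ‖((Real.exp (E v) : ℝ) : ℂ)‖ ≤ C * Real.exp c * Real.exp (-(c / K) * ‖v‖) := by
    intro v
    have h4 := (hlim v).norm
    apply le_of_tendsto h4
    filter_upwards [eventually_ge_atTop N₁] with N hN
    exact hdom N hN v
  have hEint : MeasureTheory.Integrable (fun v : Fin d → ℝ => Real.exp (E v)) := by
    apply hbint.mono'
    · have : Continuous (fun v => Real.exp (E v)) := by
        have h4 := Complex.continuous_re.comp hEcont
        refine h4.congr ?_
        intro v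
        simp only [Function.comp_apply, Complex.ofReal_re]
      exact this.aestronglyMeasurable
    · apply Filter.Eventually.of_forall
      intro v
      have := hEb v
      rwa [Complex.norm_real] at this
  have hI0 : 0 < ∫ v : Fin d → ℝ, Real.exp (E v) := by
    rw [MeasureTheory.integral_pos_iff_support_of_nonneg (fun v => (Real.exp_pos _).le) hEint]
    have : Function.support (fun v : Fin d → ℝ => Real.exp (E v)) = Set.univ := by
      ext v
      simp [Real.exp_ne_zero]
    rw [this]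
    exact MeasureTheory.Measure.measure_univ_pos.2 (NeZero.ne _)
  have hDCT : Tendsto (fun N : ℕ => ∫ v, G N v) atTop
      (nhds (∫ v : Fin d → ℝ, ((Real.exp (E v) : ℝ) : ℂ))) := by
    apply MeasureTheory.tendsto_integral_filter_of_dominated_convergence
      (fun v => C * Real.exp c * Real.exp (-(c / K) * ‖v‖))
    · filter_upwards [eventually_ge_atTop N₁] with N hN
      exact (hGc N (hN₁.trans hN)).aestronglyMeasurable
    · filter_upwards [eventually_ge_atTop N₁] with N hN
      exact Filter.Eventually.of_forall (hdom N hN)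
    · exact hbint
    · exact Filter.Eventually.of_forall hlim
  have hDn := hDCT.norm
  have hnormI : ‖∫ v : Fin d → ℝ, ((Real.exp (E v) : ℝ) : ℂ)‖ =
      ∫ v : Fin d → ℝ, Real.exp (E v) := by
    have h4 : ∫ v : Fin d → ℝ, ((Real.exp (E v) : ℝ) : ℂ) =
        ((∫ v : Fin d → ℝ, Real.exp (E v) : ℝ) : ℂ) := integral_complex_ofReal
    rw [h4, Complex.norm_real, Real.norm_eq_abs, abs_of_pos hI0]
  rw [hnormI] at hDn
  set I0 := ∫ v : Fin d → ℝ, Real.exp (E v) with hI0def
  have hev : ∀ᶠ N : ℕ in atTop, I0 / 2 < ‖∫ v, G N v‖ :=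
    hDn.eventually (lt_mem_nhds (by linarith))
  obtain ⟨N₂, hN₂⟩ := eventually_atTop.1 hev
  refine ⟨I0 / 2, d, max N₂ 1, by linarith, ?_⟩
  intro N hN
  have hN2 : N₂ ≤ N := (le_max_left _ _).trans hN
  have hN1 : 1 ≤ N := (le_max_right _ _).trans hN
  have hN1r : (1 : ℝ) ≤ N := by exact_mod_cast hN1
  have h4 := hN₂ N hN2
  have hs : 0 < Real.sqrt N := Real.sqrt_pos.2 (by linarith)
  have hscale : ‖∫ v, G N v‖ = Real.exp (-(N / Real.pi * V)) *
      (Real.sqrt N ^ d * ‖∫ y, f N y‖) := by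
    simp only [hG]
    rw [MeasureTheory.integral_const_mul,
      MeasureTheory.Measure.integral_comp_inv_smul_of_nonneg MeasureTheory.volume (f N) hs.le,
      Module.finrank_fin_fun, norm_mul, norm_smul, Complex.norm_real, Real.norm_eq_abs,
      Real.norm_eq_abs, abs_of_pos (Real.exp_pos _), abs_of_pos (by positivity)]
  rw [hscale] at h4
  have hsd : Real.sqrt N ^ d ≤ (N : ℝ) ^ d := by
    apply pow_le_pow_left₀ hs.le
    rw [Real.sqrt_le_left (by linarith)]
    nlinarith
  change I0 / 2 / (N : ℝ) ^ d * Real.exp ((N / Real.pi) * (l α - Vol α)) ≤ ‖∫ y, f N y‖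
  rw [← hV]
  have h5 : I0 / 2 ≤ Real.exp (-(N / Real.pi * V)) * ((N : ℝ) ^ d * ‖∫ y, f N y‖) := by
    refine h4.le.trans ?_
    apply mul_le_mul_of_nonneg_left _ (Real.exp_pos _).le
    exact mul_le_mul_of_nonneg_right hsd (norm_nonneg _)
  rw [div_mul_eq_mul_div, div_le_iff₀ (by positivity)]
  calc I0 / 2 * Real.exp (N / Real.pi * V) ≤
        (Real.exp (-(N / Real.pi * V)) * ((N : ℝ) ^ d * ‖∫ y, f N y‖)) *
          Real.exp (N / Real.pi * V) := mul_le_mul_of_nonneg_right h5 (Real.exp_pos _).le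
    _ = (Real.exp (-(N / Real.pi * V)) * Real.exp (N / Real.pi * V)) *
          (‖∫ y, f N y‖ * (N : ℝ) ^ d) := by ring
    _ = ‖∫ y, f N y‖ * (N : ℝ) ^ d := by
        rw [← Real.exp_add, neg_add_cancel, Real.exp_zero, one_mul]

end Pool.Agent.PAN
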