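import Mathlib
import Pool.Agent.PAN.Stmts

set_option autoImplicit false

/-!
# PAN / Bd: bounds for products of `gN` (auxiliary file)
-/

namespace Pool.Agent.PAN

open Finset Filter MeasureTheory

/-- one factor, upper bound -/
lemma bd_one (h2 : St_gB) {N : ℕ} (hN : 1 ≤ N) {δ : ℝ} (hδ : 0 < δ) (M : ℝ) :
    ∃ C : ℝ, 0 < C ∧ ∀ x : ℂ, δ ≤ x.re → x.re ≤ N + 1 - δ → |x.im| ≤ M → ∀ y : ℝ,
      ‖gN N (x + y * Complex.I)‖ ≤
        C * Real.exp (-(Real.pi / N) * ((N + 1) / 2 - x.re) * |y|) ∧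
      ‖gN N (x - y * Complex.I)‖ ≤
        C * Real.exp (-(Real.pi / N) * ((N + 1) / 2 - x.re) * |y|) ∧
      Real.exp (-(Real.pi / N) * ((N + 1) / 2 - x.re) * |y|) ≤
        C * ‖gN N (x + y * Complex.I)‖ ∧
      Real.exp (-(Real.pi / N) * ((N + 1) / 2 - x.re) * |y|) ≤
        C * ‖gN N (x - y * Complex.I)‖ := by
  obtain ⟨C, hC, hb⟩ := h2 N hN δ hδ
  have hNR : (1 : ℝ) ≤ N := by exact_mod_cast hN
  have hpi := Real.pi_pos
  have key : ∀ x : ℂ, δ ≤ x.re → x.re ≤ N + 1 - δ → |x.im| ≤ M → ∀ y : ℝ,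
      ‖gN N (x + y * Complex.I)‖ ≤
        (C * Real.exp (2 * Real.pi * M)) *
          Real.exp (-(Real.pi / N) * ((N + 1) / 2 - x.re) * |y|) ∧
      Real.exp (-(Real.pi / N) * ((N + 1) / 2 - x.re) * |y|) ≤
        (C * Real.exp (2 * Real.pi * M)) * ‖gN N (x + y * Complex.I)‖ := by
    intro x h1 h3 h4 y
    have hre : (x + y * Complex.I).re = x.re := by simp
    have him : (x + y * Complex.I).im = x.im + y := by simp
    obtain ⟨h5, h6⟩ := hb (x + y * Complex.I) (by rw [hre]; exact h1) (by rw [hre]; exact h3)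
    rw [hre, him] at h5 h6
    set e : ℝ := (Real.pi / N) * ((N + 1) / 2 - x.re) with he
    have he2 : |e| ≤ 2 * Real.pi := by
      rw [he, abs_mul, abs_of_pos (by positivity : 0 < Real.pi / N)]
      have h7 : |((N : ℝ) + 1) / 2 - x.re| ≤ 2 * N := by
        rw [abs_le]
        constructor <;> linarith
      calc Real.pi / N * |((N : ℝ) + 1) / 2 - x.re| ≤ Real.pi / N * (2 * N) :=
            mul_le_mul_of_nonneg_left h7 (by positivity)
        _ = 2 * Real.pi := by field_simp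
    have hdiff : |(|x.im + y| - |y|)| ≤ M := by
      refine (abs_abs_sub_abs_le_abs_sub _ _).trans ?_
      rw [add_sub_cancel_right]
      exact h4
    have hprod : |e * (|x.im + y| - |y|)| ≤ 2 * Real.pi * M := by
      rw [abs_mul]
      exact mul_le_mul he2 hdiff (abs_nonneg _) (by positivity)
    obtain ⟨h8, h9⟩ := abs_le.1 hprod
    have e1 : -(Real.pi / N) * (((N : ℝ) + 1) / 2 - x.re) * |x.im + y| = -e * |x.im + y| := by
      rw [he]; ring
    have e2 : -(Real.pi / N) * (((N : ℝ) + 1) / 2 - x.re) * |y| = -e * |y| := by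
      rw [he]; ring
    rw [e1] at h5 h6
    rw [e2]
    constructor
    · refine h5.trans ?_
      rw [mul_assoc, ← Real.exp_add]
      refine mul_le_mul_of_nonneg_left (Real.exp_le_exp.2 ?_) hC.le
      nlinarith
    · have h10 : Real.exp (-e * |y|) ≤ Real.exp (2 * Real.pi * M) * Real.exp (-e * |x.im + y|) := by
        rw [← Real.exp_add]
        refine Real.exp_le_exp.2 ?_
        nlinarith
      calc Real.exp (-e * |y|) ≤ Real.exp (2 * Real.pi * M) * Real.exp (-e * |x.im + y|) := h10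
        _ ≤ Real.exp (2 * Real.pi * M) * (C * ‖gN N (x + y * Complex.I)‖) :=
            mul_le_mul_of_nonneg_left h6 (Real.exp_pos _).le
        _ = C * Real.exp (2 * Real.pi * M) * ‖gN N (x + y * Complex.I)‖ := by ring
  refine ⟨C * Real.exp (2 * Real.pi * M), by positivity, fun x h1 h3 h4 y => ?_⟩
  have k1 := key x h1 h3 h4 y
  have k2 := key x h1 h3 h4 (-y)
  rw [abs_neg] at k2
  have e3 : x + ((-y : ℝ) : ℂ) * Complex.I = x - y * Complex.I := by
    push_cast
    ring
  rw [e3] at k2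
  exact ⟨k1.1, k2.1, k1.2, k2.2⟩

/-- the product of six factors -/
lemma bd_prod (h2 : St_gB) {N : ℕ} (hN : 1 ≤ N) {δ : ℝ} (hδ : 0 < δ) (M : ℝ) :
    ∃ C : ℝ, 0 < C ∧ ∀ p q : Fin 3 → ℂ, (∀ j, δ ≤ (p j).re ∧ (p j).re ≤ N + 1 - δ ∧
      |(p j).im| ≤ M) → (∀ j, δ ≤ (q j).re ∧ (q j).re ≤ N + 1 - δ ∧ |(q j).im| ≤ M) →
      ∀ y : ℝ, ‖∏ j, (gN N (p j + y * Complex.I) * gN N (q j - y * Complex.I))‖ ≤
        C * Real.exp (-(Real.pi / N) * (3 * (N + 1) - ∑ j, ((p j).re + (q j).re)) * |y|) := by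
  obtain ⟨C, hC, hb⟩ := bd_one h2 hN hδ M
  refine ⟨(C * C) ^ 3, by positivity, fun p q hp hq y => ?_⟩
  have h1 : ∀ j, ‖gN N (p j + y * Complex.I) * gN N (q j - y * Complex.I)‖ ≤
      (C * C) * Real.exp (-(Real.pi / N) * ((N + 1) - ((p j).re + (q j).re)) * |y|) := by
    intro j
    rw [norm_mul]
    have k1 := (hb (p j) (hp j).1 (hp j).2.1 (hp j).2.2 y).1
    have k2 := (hb (q j) (hq j).1 (hq j).2.1 (hq j).2.2 y).2.1
    refine (mul_le_mul k1 k2 (norm_nonneg _) (by positivity)).trans (le_of_eq ?_)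
    rw [mul_mul_mul_comm, ← Real.exp_add]
    congr 2
    ring
  rw [norm_prod]
  refine (Finset.prod_le_prod (fun j _ => norm_nonneg _) fun j _ => h1 j).trans (le_of_eq ?_)
  rw [Finset.prod_mul_distrib, Finset.prod_const, Finset.card_univ, Fintype.card_fin,
    ← Real.exp_sum]
  congr 2
  rw [← Finset.sum_mul, ← Finset.mul_sum, Finset.sum_sub_distrib, Finset.sum_const,
    Finset.card_univ, Fintype.card_fin, nsmul_eq_mul]
  push_cast
  ring

/-- continuity on the line -/
lemma bd_cont (h1 : St_gN) {N : ℕ} (hN : 1 ≤ N) (p q : Fin 3 → ℂ)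
    (hp : ∀ j, 0 < (p j).re ∧ (p j).re < N + 1) (hq : ∀ j, 0 < (q j).re ∧ (q j).re < N + 1) :
    Continuous fun y : ℝ => ∏ j, (gN N (p j + y * Complex.I) * gN N (q j - y * Complex.I)) := by
  obtain ⟨hd, -⟩ := h1 N hN
  refine continuous_finsetProd _ fun j _ => ?_
  refine Continuous.mul ?_ ?_
  · rw [continuous_iff_continuousAt]
    intro y
    have h3 : ContinuousAt (gN N) (p j + y * Complex.I) :=
      (hd _ (by simpa using (hp j).1) (by simpa using (hp j).2)).continuousAt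
    exact ContinuousAt.comp (f := fun y : ℝ => p j + y * Complex.I) h3 (by fun_prop)
  · rw [continuous_iff_continuousAt]
    intro y
    have h3 : ContinuousAt (gN N) (q j - y * Complex.I) :=
      (hd _ (by simpa using (hq j).1) (by simpa using (hq j).2)).continuousAt
    exact ContinuousAt.comp (f := fun y : ℝ => q j - y * Complex.I) h3 (by fun_prop)

/-- exponential decay is integrable -/
lemma bd_exp {c : ℝ} (hc : 0 < c) : Integrable fun y : ℝ => Real.exp (-c * |y|) := by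
  have h1 : IntegrableOn (fun y : ℝ => Real.exp (-c * |y|)) (Set.Ioi 0) := by
    refine (exp_neg_integrableOn_Ioi 0 hc).congr_fun (fun y hy => ?_) measurableSet_Ioi
    simp only [Set.mem_Ioi] at hy
    simp only [abs_of_pos hy]
  have h2 : IntegrableOn (fun y : ℝ => Real.exp (-c * |y|)) (Set.Iic 0) := by
    rw [integrableOn_Iic_iff_integrableOn_Iio]
    have h1' : IntegrableOn (fun y : ℝ => Real.exp (-c * |y|)) (Set.Ioi (-(0 : ℝ))) := by
      rw [neg_zero]
      exact h1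
    have h3 := IntegrableOn.comp_neg_Iio (c := 0) h1'
    simp only [abs_neg] at h3
    exact h3
  have h4 := h2.union h1
  rwa [Set.Iic_union_Ioi, integrableOn_univ] at h4

end Pool.Agent.PAN
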