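import Mathlib
import Pool.Agent.PAN.Stmts
import Pool.Agent.PAN.Bd

set_option autoImplicit false

/-!
# PAN / Rec: recurrence
-/

namespace Pool.Agent.PAN

open Finset Filter MeasureTheory

/-- bounds of the imaginary parts -/
lemma rec_M (a b : Fin 3 → ℂ) : ∃ M : ℝ, 0 ≤ M ∧ (∀ j, |(a j).im| ≤ M) ∧ ∀ j, |(b j).im| ≤ M := by
  refine ⟨∑ j, (|(a j).im| + |(b j).im|), by positivity, fun j => ?_, fun j => ?_⟩
  · refine le_trans ?_ (Finset.single_le_sum (f := fun j => |(a j).im| + |(b j).im|)
      (fun i _ => by positivity) (mem_univ j))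
    simp
  · refine le_trans ?_ (Finset.single_le_sum (f := fun j => |(a j).im| + |(b j).im|)
      (fun i _ => by positivity) (mem_univ j))
    simp

/-- integrability of the integrand -/
lemma rec_int (h1 : St_gN) (h2 : St_gB) {N : ℕ} (hN : 1 ≤ N) (p q : Fin 3 → ℂ)
    (hp : ∀ j, 0 < (p j).re ∧ (p j).re < N + 1) (hq : ∀ j, 0 < (q j).re ∧ (q j).re < N + 1)
    (hs : ∑ j, ((p j).re + (q j).re) < 3 * (N + 1)) :
    Integrable fun y : ℝ => ∏ j, (gN N (p j + y * Complex.I) * gN N (q j - y * Complex.I)) := by
  obtain ⟨M, hM, hM1, hM2⟩ := rec_M p q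
  have hδ : ∃ δ : ℝ, 0 < δ ∧ ∀ j, (δ ≤ (p j).re ∧ (p j).re ≤ N + 1 - δ) ∧
      (δ ≤ (q j).re ∧ (q j).re ≤ N + 1 - δ) := by
    have h : ∀ j : Fin 3, ∃ δ : ℝ, 0 < δ ∧ (δ ≤ (p j).re ∧ (p j).re ≤ N + 1 - δ) ∧
      (δ ≤ (q j).re ∧ (q j).re ≤ N + 1 - δ) := by
      intro j
      refine ⟨min (min (p j).re (N + 1 - (p j).re)) (min (q j).re (N + 1 - (q j).re)), ?_, ?_, ?_⟩
      · have := hp j
        have := hq j
        refine lt_min (lt_min ?_ ?_) (lt_min ?_ ?_) <;> linarith
      · constructor
        · exact (min_le_left _ _).trans (min_le_left _ _)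
        · have := (min_le_left (min (p j).re (N + 1 - (p j).re))
            (min (q j).re (N + 1 - (q j).re))).trans (min_le_right _ _)
          linarith
      · constructor
        · exact (min_le_right _ _).trans (min_le_left _ _)
        · have := (min_le_right (min (p j).re (N + 1 - (p j).re))
            (min (q j).re (N + 1 - (q j).re))).trans (min_le_right _ _)
          linarith
    choose δ hδ1 hδ2 using h
    refine ⟨min (δ 0) (min (δ 1) (δ 2)), lt_min (hδ1 0) (lt_min (hδ1 1) (hδ1 2)), fun j => ?_⟩
    have h3 : min (δ 0) (min (δ 1) (δ 2)) ≤ δ j := by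
      fin_cases j
      · exact min_le_left _ _
      · exact (min_le_right _ _).trans (min_le_left _ _)
      · exact (min_le_right _ _).trans (min_le_right _ _)
    obtain ⟨⟨h4, h5⟩, h6, h7⟩ := hδ2 j
    refine ⟨⟨?_, ?_⟩, ?_, ?_⟩ <;> linarith
  obtain ⟨δ, hδ1, hδ2⟩ := hδ
  obtain ⟨C, hC, hb⟩ := bd_prod h2 hN hδ1 M
  have hNR : (0 : ℝ) < N := by exact_mod_cast hN
  have hc : 0 < (Real.pi / N) * (3 * (N + 1) - ∑ j, ((p j).re + (q j).re)) := by
    have := Real.pi_pos
    have h8 : 0 < 3 * ((N : ℝ) + 1) - ∑ j, ((p j).re + (q j).re) := by linarith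
    positivity
  refine Integrable.mono' ((bd_exp hc).const_mul C)
    (bd_cont h1 hN p q hp hq).aestronglyMeasurable (Eventually.of_forall fun y => ?_)
  refine (hb p q (fun j => ⟨(hδ2 j).1.1, (hδ2 j).1.2, hM1 j⟩)
    (fun j => ⟨(hδ2 j).2.1, (hδ2 j).2.2, hM2 j⟩) y).trans (le_of_eq ?_)
  congr 2
  ring

/-- keep this signature -/
theorem thm_Rec (h1 : St_gN) (h2 : St_gB) (h3 : St_TR) (h4 : St_CS) : St_Rec := by
  intro N a b hN ha hb hs
  have hNR : (0 : ℝ) < N := by exact_mod_cast hN
  have hNC : (N : ℂ) ≠ 0 := by exact_mod_cast hNR.ne'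
  have hpi := Real.pi_pos
  have hre : ∑ j, ((a j).re + (b j).re) = N := by
    have := congrArg Complex.re hs
    simpa [Complex.re_sum] using this
  obtain ⟨hd, hf, -, -, -⟩ := h1 N hN
  have hs3 := hre
  simp only [Fin.sum_univ_three] at hs3
  have ha0 := ha 0
  have ha1 := ha 1
  have ha2 := ha 2
  have hb0 := hb 0
  have hb1 := hb 1
  have hb2 := hb 2
  -- the lower bound
  set δ : ℝ := min (min (a 0).re (min (a 1).re (a 2).re)) (min (b 0).re (min (b 1).re (b 2).re))
    with hδdef
  have hδ : 0 < δ := lt_min (lt_min ha0 (lt_min ha1 ha2)) (lt_min hb0 (lt_min hb1 hb2))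
  have hδa : ∀ j, δ ≤ (a j).re := by
    intro j
    refine (min_le_left _ _).trans ?_
    fin_cases j
    · exact min_le_left _ _
    · exact (min_le_right _ _).trans (min_le_left _ _)
    · exact (min_le_right _ _).trans (min_le_right _ _)
  have hδb : ∀ j, δ ≤ (b j).re := by
    intro j
    refine (min_le_right _ _).trans ?_
    fin_cases j
    · exact min_le_left _ _
    · exact (min_le_right _ _).trans (min_le_left _ _)
    · exact (min_le_right _ _).trans (min_le_right _ _)
  have hla : ∀ j, (a j).re ≤ N - δ := by
    intro j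
    have k0 := hδb 0
    fin_cases j <;> simp only [Fin.zero_eta, Fin.mk_one, Fin.reduceFinMk] <;> linarith
  have hlb : ∀ j, (b j).re ≤ N - δ := by
    intro j
    have k0 := hδa 0
    fin_cases j <;> simp only [Fin.zero_eta, Fin.mk_one, Fin.reduceFinMk] <;> linarith
  obtain ⟨M, hM, hM1, hM2⟩ := rec_M a b
  obtain ⟨C, hC, hbd⟩ := bd_prod h2 hN hδ M
  set ρ : ℝ → ℂ := fun y => ∏ j, (gN N (a j + y * Complex.I) * gN N (b j - y * Complex.I))
    with hρ
  set h : ℂ → ℂ := fun z => ∏ j, (gN N (a j + z) * gN N (b j + 1 - z)) with hh
  have hshift : ∫ y : ℝ, h (((0 : ℝ) : ℂ) + y * Complex.I) =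
      ∫ y : ℝ, h (((1 : ℝ) : ℂ) + y * Complex.I) := by
    refine h4 0 1 (2 * Real.pi) C h zero_le_one (by positivity) fun z hz0 hz1 => ⟨?_, ?_⟩
    · rw [hh]
      refine DifferentiableAt.fun_finsetProd (u := univ) fun j _ => ?_
      refine DifferentiableAt.mul ?_ ?_
      · refine DifferentiableAt.comp (g := gN N) (f := fun z => a j + z) z ?_ (by fun_prop)
        refine hd _ ?_ ?_
        · simp only [Complex.add_re]
          have := ha j
          linarith
        · simp only [Complex.add_re]
          have := hla j
          linarith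
      · refine DifferentiableAt.comp (g := gN N) (f := fun z => b j + 1 - z) z ?_ (by fun_prop)
        refine hd _ ?_ ?_
        · simp only [Complex.add_re, Complex.sub_re, Complex.one_re]
          have := hb j
          linarith
        · simp only [Complex.add_re, Complex.sub_re, Complex.one_re]
          have := hlb j
          linarith
    · have k := hbd (fun j => a j + (z.re : ℂ)) (fun j => b j + 1 - (z.re : ℂ))
        (fun j => ⟨?_, ?_, ?_⟩) (fun j => ⟨?_, ?_, ?_⟩) z.im
      · have e1 : ∀ j, gN N (a j + (z.re : ℂ) + z.im * Complex.I) *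
            gN N (b j + 1 - (z.re : ℂ) - z.im * Complex.I) = gN N (a j + z) * gN N (b j + 1 - z) := by
          intro j
          have e2 : a j + (z.re : ℂ) + z.im * Complex.I = a j + z := by
            rw [add_assoc, Complex.re_add_im]
          have e3 : b j + 1 - (z.re : ℂ) - z.im * Complex.I = b j + 1 - z := by
            rw [sub_sub, Complex.re_add_im]
          rw [e2, e3]
        simp only [e1] at k
        refine k.trans (le_of_eq ?_)
        congr 2
        simp only [Complex.add_re, Complex.sub_re, Complex.one_re, Complex.ofReal_re]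
        have e4 : ∑ j, ((a j).re + z.re + ((b j).re + 1 - z.re)) = N + 3 := by
          rw [← hre]
          simp only [Fin.sum_univ_three]
          ring
        rw [e4]
        field_simp
        ring
      · simp only [Complex.add_re, Complex.ofReal_re]
        have := hδa j
        linarith
      · simp only [Complex.add_re, Complex.ofReal_re]
        have := hla j
        linarith
      · simp only [Complex.add_im, Complex.ofReal_im, add_zero]
        exact hM1 j
      · simp only [Complex.add_re, Complex.sub_re, Complex.one_re, Complex.ofReal_re]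
        have := hδb j
        linarith
      · simp only [Complex.add_re, Complex.sub_re, Complex.one_re, Complex.ofReal_re]
        have := hlb j
        linarith
      · simp only [Complex.add_im, Complex.sub_im, Complex.one_im, Complex.ofReal_im, add_zero,
          sub_zero]
        exact hM2 j
  -- functional equations
  have fa : ∀ j (y : ℝ), gN N (a j + 1 + y * Complex.I) =
      2 * Complex.sin (Real.pi * (a j + y * Complex.I) / N) * gN N (a j + y * Complex.I) := by
    intro j y
    have e : a j + 1 + y * Complex.I = (a j + y * Complex.I) + 1 := by ring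
    rw [e]
    refine hf _ ?_ ?_
    · simpa using ha j
    · have := hla j
      simp
      linarith
  have fb : ∀ j (y : ℝ), gN N (b j + 1 - y * Complex.I) =
      2 * Complex.sin (Real.pi * (b j - y * Complex.I) / N) * gN N (b j - y * Complex.I) := by
    intro j y
    have e : b j + 1 - y * Complex.I = (b j - y * Complex.I) + 1 := by ring
    rw [e]
    refine hf _ ?_ ?_
    · simpa using hb j
    · have := hlb j
      simp
      linarith
  have fh0 : ∀ y : ℝ, h (((0 : ℝ) : ℂ) + y * Complex.I) =
      8 * (∏ j, Complex.sin (Real.pi * (b j - y * Complex.I) / N)) * ρ y := by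
    intro y
    simp only [hh, hρ, Complex.ofReal_zero, zero_add, fb, Fin.prod_univ_three]
    ring
  have fh1 : ∀ y : ℝ, h (((1 : ℝ) : ℂ) + y * Complex.I) =
      8 * (∏ j, Complex.sin (Real.pi * (a j + y * Complex.I) / N)) * ρ y := by
    intro y
    have e1 : ∀ j, gN N (a j + (((1 : ℝ) : ℂ) + y * Complex.I)) =
      2 * Complex.sin (Real.pi * (a j + y * Complex.I) / N) * gN N (a j + y * Complex.I) := by
      intro j
      rw [← fa j y]
      congr 1
      push_cast
      ring
    have e2 : ∀ j, gN N (b j + 1 - (((1 : ℝ) : ℂ) + y * Complex.I)) =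
        gN N (b j - y * Complex.I) := by
      intro j
      congr 1
      push_cast
      ring
    simp only [hh, hρ, e1, e2, Fin.prod_univ_three]
    ring
  -- integrands
  set F : Fin 3 → ℝ → ℂ := fun j y =>
    2 * Complex.sin (Real.pi * (a j + y * Complex.I) / N) * ρ y with hF
  have hII0 : II N (Function.update a 0 (a 0 + 1)) b = ∫ y, F 0 y := by
    simp only [II]
    refine integral_congr_ae (Eventually.of_forall fun y => ?_)
    simp only [hF, hρ, Fin.prod_univ_three]
    simp only [Function.update_self, Function.update_of_ne (show (1 : Fin 3) ≠ 0 by decide),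
      Function.update_of_ne (show (2 : Fin 3) ≠ 0 by decide), fa]
    ring
  have hII1 : II N (Function.update a 1 (a 1 + 1)) b = ∫ y, F 1 y := by
    simp only [II]
    refine integral_congr_ae (Eventually.of_forall fun y => ?_)
    simp only [hF, hρ, Fin.prod_univ_three]
    simp only [Function.update_self, Function.update_of_ne (show (0 : Fin 3) ≠ 1 by decide),
      Function.update_of_ne (show (2 : Fin 3) ≠ 1 by decide), fa]
    ring
  have hint : ∀ i : Fin 3, Integrable (fun y : ℝ => ∏ j, (gN N ((Function.update a i (a i + 1)) j +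
      y * Complex.I) * gN N (b j - y * Complex.I))) := by
    intro i
    have hu : ∀ j, (Function.update a i (a i + 1) j).re = (a j).re + if j = i then 1 else 0 := by
      intro j
      by_cases hji : j = i
      · subst hji
        simp
      · rw [Function.update_of_ne hji]
        simp [hji]
    refine rec_int h1 h2 hN _ _ (fun j => ?_) (fun j => ⟨hb j, ?_⟩) ?_
    · rw [hu]
      have k1 := ha j
      have k2 := hla j
      split_ifs <;> constructor <;> linarith
    · have := hlb j
      linarith
    · simp only [hu]
      have e5 : ∑ j, ((a j).re + (if j = i then (1 : ℝ) else 0) + (b j).re) = N + 1 := by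
        rw [← hre]
        rw [show (1 : ℝ) = ∑ j : Fin 3, (if j = i then (1 : ℝ) else 0) by simp,
          ← Finset.sum_add_distrib]
        simp only [Finset.sum_ite_eq', mem_univ, if_true]
        refine Finset.sum_congr rfl fun j _ => ?_
        ring
      rw [e5]
      linarith
  have hF0 : Integrable (F 0) := by
    refine (hint 0).congr (Eventually.of_forall fun y => ?_)
    simp only [hF, hρ, Fin.prod_univ_three]
    simp only [Function.update_self, Function.update_of_ne (show (1 : Fin 3) ≠ 0 by decide),
      Function.update_of_ne (show (2 : Fin 3) ≠ 0 by decide), fa]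
    ring
  have hF1 : Integrable (F 1) := by
    refine (hint 1).congr (Eventually.of_forall fun y => ?_)
    simp only [hF, hρ, Fin.prod_univ_three]
    simp only [Function.update_self, Function.update_of_ne (show (0 : Fin 3) ≠ 1 by decide),
      Function.update_of_ne (show (2 : Fin 3) ≠ 1 by decide), fa]
    ring
  have hh0 : Integrable (fun y : ℝ => h (((0 : ℝ) : ℂ) + y * Complex.I)) := by
    have := rec_int h1 h2 hN a (fun j => b j + 1) (fun j => ⟨ha j, by have := hla j; linarith⟩)
      (fun j => by
        have k1 := hb j
        have k2 := hlb j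
        simp only [Complex.add_re, Complex.one_re]
        constructor <;> linarith) (by
        have e6 : ∑ j, ((a j).re + ((fun j => b j + 1) j).re) = N + 3 := by
          rw [← hre]
          simp only [Complex.add_re, Complex.one_re, Fin.sum_univ_three]
          ring
        rw [e6]
        linarith)
    refine this.congr (Eventually.of_forall fun y => ?_)
    simp only [hh, Complex.ofReal_zero, zero_add]
  have hh1 : Integrable (fun y : ℝ => h (((1 : ℝ) : ℂ) + y * Complex.I)) := by
    have := rec_int h1 h2 hN (fun j => a j + 1) b (fun j => by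
        have k1 := ha j
        have k2 := hla j
        simp only [Complex.add_re, Complex.one_re]
        constructor <;> linarith) (fun j => ⟨hb j, by have := hlb j; linarith⟩) (by
        have e6 : ∑ j, (((fun j => a j + 1) j).re + (b j).re) = N + 3 := by
          rw [← hre]
          simp only [Complex.add_re, Complex.one_re, Fin.sum_univ_three]
          ring
        rw [e6]
        linarith)
    refine this.congr (Eventually.of_forall fun y => ?_)
    simp only [hh]
    refine Finset.prod_congr rfl fun j _ => ?_
    congr 1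
    · congr 1
      push_cast
      ring
    · congr 1
      push_cast
      ring
  -- the trigonometric identity
  set S0 : ℂ := ∏ k, Complex.sin (Real.pi * (a 0 + b k) / N) with hS0
  set S1 : ℂ := ∏ k, Complex.sin (Real.pi * (a 1 + b k) / N) with hS1
  have hTR : ∀ y : ℝ, Complex.sin (Real.pi * (a 0 - a 1) / N) *
      (h (((1 : ℝ) : ℂ) + y * Complex.I) - h (((0 : ℝ) : ℂ) + y * Complex.I)) =
        4 * (S0 * F 1 y - S1 * F 0 y) := by
    intro y
    have k := h3 (fun j => Real.pi * a j / N) (fun j => Real.pi * b j / N)
      (Real.pi * (y * Complex.I) / N) (by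
        have : ∑ j, ((Real.pi : ℂ) * a j / N + Real.pi * b j / N) =
            Real.pi / N * ∑ j, (a j + b j) := by
          rw [Finset.mul_sum]
          refine Finset.sum_congr rfl fun j _ => ?_
          ring
        rw [this, hs]
        field_simp)
    have q1 : ∀ u v : ℂ, Real.pi * u / N + Real.pi * v / N = Real.pi * (u + v) / N := by
      intro u v
      ring
    have q2 : ∀ u v : ℂ, Real.pi * u / N - Real.pi * v / N = Real.pi * (u - v) / N := by
      intro u v
      ring
    simp only [q1, q2] at k
    rw [fh1, fh0, hF]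
    rw [← hS0, ← hS1] at k
    linear_combination (8 * ρ y) * k
  have hfin : 4 * (S0 * (∫ y, F 1 y) - S1 * ∫ y, F 0 y) = 0 := by
    have e7 : ∫ y, 4 * (S0 * F 1 y - S1 * F 0 y) = 4 * (S0 * (∫ y, F 1 y) - S1 * ∫ y, F 0 y) := by
      rw [integral_const_mul, integral_sub (hF1.const_mul _) (hF0.const_mul _),
        integral_const_mul, integral_const_mul]
    rw [← e7]
    simp only [← hTR]
    rw [integral_const_mul, integral_sub hh1 hh0, hshift, sub_self, mul_zero]
  have hfin2 : S0 * (∫ y, F 1 y) = S1 * ∫ y, F 0 y := by
    linear_combination hfin / 4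
  -- the right side
  have fab : ∀ j k, gN N (a j + 1 + b k) =
      2 * Complex.sin (Real.pi * (a j + b k) / N) * gN N (a j + b k) := by
    intro j k
    have e : a j + 1 + b k = (a j + b k) + 1 := by ring
    rw [e]
    have k1 := ha j
    have k2 := hb k
    refine hf _ ?_ ?_
    · rw [Complex.add_re]
      linarith
    · rw [Complex.add_re]
      have : (a j).re + (b k).re < N := by
        have k0 := hδa 0
        have k0 := hδa 1
        have k0 := hδa 2
        have k0 := hδb 0
        have k0 := hδb 1
        have k0 := hδb 2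
        fin_cases j <;> fin_cases k <;> simp only [Fin.zero_eta, Fin.mk_one, Fin.reduceFinMk] <;>
          linarith
      exact this
  have hPP0 : PP N (Function.update a 0 (a 0 + 1)) b = 8 * S0 * PP N a b := by
    simp only [PP, hS0, Fin.prod_univ_three]
    simp only [Function.update_self, Function.update_of_ne (show (1 : Fin 3) ≠ 0 by decide),
      Function.update_of_ne (show (2 : Fin 3) ≠ 0 by decide), fab]
    ring
  have hPP1 : PP N (Function.update a 1 (a 1 + 1)) b = 8 * S1 * PP N a b := by
    simp only [PP, hS1, Fin.prod_univ_three]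
    simp only [Function.update_self, Function.update_of_ne (show (0 : Fin 3) ≠ 1 by decide),
      Function.update_of_ne (show (2 : Fin 3) ≠ 1 by decide), fab]
    ring
  rw [hII0, hII1, hPP0, hPP1]
  linear_combination (-8 * PP N a b) * hfin2

end Pool.Agent.PAN
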