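import Mathlib
import Pool.Agent.PAN.Stmts
import Pool.Agent.PAN.Bd
import Pool.Agent.PAN.Rec
import Pool.Agent.PTH.LobC

set_option autoImplicit false

/-!
# PAN / J4: the 2-3 move
-/

namespace Pool.Agent.PAN

open Finset Filter MeasureTheory

/-! ### The Lobachevsky function at `π / 6` and `π / 3` -/

private lemma j4_pi2 : ∫ t in (0 : ℝ)..(Real.pi / 2), Real.log |2 * Real.sin t| = 0 := by
  have hpi := Real.pi_pos
  have h1 : ∫ t in (0 : ℝ)..(Real.pi / 2), Real.log |2 * Real.sin t| =
      ∫ t in (0 : ℝ)..(Real.pi / 2), (Real.log 2 + Real.log (Real.sin t)) := by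
    refine intervalIntegral.integral_congr_ae (Eventually.of_forall fun t ht => ?_)
    rw [Set.uIoc_of_le (by positivity)] at ht
    have hs : 0 < Real.sin t := Real.sin_pos_of_pos_of_lt_pi ht.1 (by linarith [ht.2])
    rw [Real.log_abs, Real.log_mul (by norm_num) hs.ne']
  rw [h1, intervalIntegral.integral_add intervalIntegrable_const
    (by apply intervalIntegrable_log_sin), integral_log_sin_zero_pi_div_two,
    intervalIntegral.integral_const]
  simp only [sub_zero, smul_eq_mul]
  ring

private lemma j4_lob : 6 * Lob (Real.pi / 6) = 9 * Lob (Real.pi / 3) := by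
  have hpi := Real.pi_pos
  set F : ℝ → ℝ := fun t => Real.log |2 * Real.sin t| with hF
  have hint : ∀ a b : ℝ, IntervalIntegrable F volume a b := PTH.intInt
  have e3 : ∫ t in (Real.pi / 2)..(2 * Real.pi / 3), F t =
      -∫ t in (0 : ℝ)..(Real.pi / 3), F t := by
    have h1 : ∫ t in (Real.pi / 2)..(2 * Real.pi / 3), F t =
        ∫ t in (Real.pi / 2)..(2 * Real.pi / 3), F (Real.pi - t) := by
      refine intervalIntegral.integral_congr fun t _ => ?_
      simp only [hF, Real.sin_pi_sub]
    rw [h1, intervalIntegral.integral_comp_sub_left]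
    have h2 : Real.pi - 2 * Real.pi / 3 = Real.pi / 3 := by ring
    have h3 : Real.pi - Real.pi / 2 = Real.pi / 2 := by ring
    rw [h2, h3]
    have h4 := intervalIntegral.integral_add_adjacent_intervals (hint 0 (Real.pi / 3))
      (hint (Real.pi / 3) (Real.pi / 2))
    have h5 : ∫ t in (0 : ℝ)..(Real.pi / 2), F t = 0 := j4_pi2
    linarith
  have e2 : ∫ t in (0 : ℝ)..(Real.pi / 3), F t = 2 * (∫ t in (0 : ℝ)..(Real.pi / 6), F t) +
      2 * ∫ t in (Real.pi / 2)..(2 * Real.pi / 3), F t := by
    have h1 : ∫ s in (0 : ℝ)..(Real.pi / 6), F (2 * s) =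
        ∫ s in (0 : ℝ)..(Real.pi / 6), (F s + F (s + Real.pi / 2)) := by
      refine intervalIntegral.integral_congr_ae (Eventually.of_forall fun t ht => ?_)
      rw [Set.uIoc_of_le (by positivity)] at ht
      have hs : 0 < Real.sin t := Real.sin_pos_of_pos_of_lt_pi ht.1 (by linarith [ht.2])
      have hc : 0 < Real.cos t := Real.cos_pos_of_mem_Ioo ⟨by linarith [ht.1], by linarith [ht.2]⟩
      simp only [hF, Real.sin_add_pi_div_two]
      rw [← Real.log_mul (by positivity) (by positivity), ← abs_mul, Real.sin_two_mul]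
      congr 2
      ring
    have h2 : ∫ s in (0 : ℝ)..(Real.pi / 6), F (2 * s) =
        2⁻¹ * ∫ t in (0 : ℝ)..(Real.pi / 3), F t := by
      rw [intervalIntegral.integral_comp_mul_left (fun t => F t) (by norm_num : (2 : ℝ) ≠ 0)]
      rw [mul_zero, smul_eq_mul]
      congr 2
      ring
    have h3 : ∫ s in (0 : ℝ)..(Real.pi / 6), F (s + Real.pi / 2) =
        ∫ t in (Real.pi / 2)..(2 * Real.pi / 3), F t := by
      rw [intervalIntegral.integral_comp_add_right (fun t => F t)]
      congr 1
      · ring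
      · ring
    have h4 : IntervalIntegrable (fun s => F (s + Real.pi / 2)) volume 0 (Real.pi / 6) := by
      have h5 := (hint (Real.pi / 2) (2 * Real.pi / 3)).comp_add_right (Real.pi / 2)
      have h6 : Real.pi / 2 - Real.pi / 2 = 0 := by ring
      have h7 : 2 * Real.pi / 3 - Real.pi / 2 = Real.pi / 6 := by ring
      rwa [h6, h7] at h5
    rw [intervalIntegral.integral_add (hint _ _) h4, h2, h3] at h1
    linarith
  have e4 : Lob (Real.pi / 6) = -∫ t in (0 : ℝ)..(Real.pi / 6), F t := rfl
  have e5 : Lob (Real.pi / 3) = -∫ t in (0 : ℝ)..(Real.pi / 3), F t := rfl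
  rw [e4, e5]
  linarith

/-! ### The function `EE` -/

private lemma j4_EE_cont (a : ℝ) :
    Continuous fun s : ℝ => Real.arctan (Real.cos a / Real.sin a * Real.tanh s) := by
  refine Real.continuous_arctan.comp (continuous_const.mul ?_)
  have h : Real.tanh = fun x => Real.sinh x / Real.cosh x := by
    funext x
    exact Real.tanh_eq_sinh_div_cosh x
  rw [h]
  exact Real.continuous_sinh.div Real.continuous_cosh fun x => (Real.cosh_pos x).ne'

private lemma j4_EE_even (a y : ℝ) : EE a (-y) = EE a y := by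
  have h : ∫ s in (0 : ℝ)..(-y), Real.arctan (Real.cos a / Real.sin a * Real.tanh s) =
      ∫ s in (0 : ℝ)..y, -Real.arctan (Real.cos a / Real.sin a * Real.tanh (-s)) := by
    rw [intervalIntegral.integral_neg, intervalIntegral.integral_comp_neg
      (fun s => Real.arctan (Real.cos a / Real.sin a * Real.tanh s)), neg_zero,
      intervalIntegral.integral_symm]
  simp only [EE]
  rw [h]
  refine intervalIntegral.integral_congr fun s _ => ?_
  simp only [Real.tanh_neg, mul_neg, Real.arctan_neg, neg_neg]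

private lemma j4_EE_nonneg (y : ℝ) : 0 ≤ EE (Real.pi / 6) y := by
  have hpi := Real.pi_pos
  have key : ∀ y : ℝ, 0 ≤ y → 0 ≤ EE (Real.pi / 6) y := by
    intro y hy
    refine intervalIntegral.integral_nonneg hy fun s hs => ?_
    refine Real.arctan_nonneg.2 ?_
    refine mul_nonneg (div_nonneg ?_ ?_) ?_
    · exact (Real.cos_pos_of_mem_Ioo ⟨by linarith, by linarith⟩).le
    · exact (Real.sin_pos_of_pos_of_lt_pi (by positivity) (by linarith)).le
    · rw [Real.tanh_eq_sinh_div_cosh]
      exact div_nonneg (Real.sinh_nonneg_iff.2 hs.1) (Real.cosh_pos s).le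
  rcases le_total 0 y with hy | hy
  · exact key y hy
  · rw [← j4_EE_even]
    exact key (-y) (by linarith)

private lemma j4_EE_le (a y : ℝ) : EE a y ≤ Real.pi / 2 * |y| := by
  have h := intervalIntegral.norm_integral_le_of_norm_le_const (a := 0) (b := y)
    (f := fun s => Real.arctan (Real.cos a / Real.sin a * Real.tanh s)) (C := Real.pi / 2)
    (fun s _ => by
      rw [Real.norm_eq_abs, abs_le]
      exact ⟨(Real.neg_pi_div_two_lt_arctan _).le, (Real.arctan_lt_pi_div_two _).le⟩)
  rw [sub_zero] at h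
  exact (le_abs_self _).trans h

/-- modulus of `gN` -/
private lemma j4_mod (h3 : St_D2) (h4 : St_E0) : ∃ C : ℝ, 0 < C ∧ ∀ N : ℕ, 1 ≤ N →
    ∀ a y : ℝ, Real.pi / 6 ≤ a → a ≤ Real.pi / 3 →
      Real.exp (-(N / Real.pi) * (Lob a + EE a y) - C * (1 + |y|)) ≤
        ‖gN N ((N + 1) * ((a : ℂ) + y * Complex.I) / Real.pi)‖ ∧
      ‖gN N ((N + 1) * ((a : ℂ) + y * Complex.I) / Real.pi)‖ ≤
        Real.exp (-(N / Real.pi) * (Lob a + EE a y) + C * (1 + |y|)) := by
  have hpi := Real.pi_pos
  have hpi3 := Real.pi_gt_three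
  have hpi0 : (Real.pi : ℂ) ≠ 0 := by exact_mod_cast hpi.ne'
  obtain ⟨C, hC, hb⟩ := h3 (1 / 6) (by norm_num)
  refine ⟨C, hC, fun N hN a y ha0 ha1 => ?_⟩
  set u : ℂ := ((a : ℂ) + y * Complex.I) / Real.pi with hu
  have hre : u.re = a / Real.pi := by
    rw [hu, Complex.div_ofReal_re]
    simp
  have him : u.im = y / Real.pi := by
    rw [hu, Complex.div_ofReal_im]
    simp
  have k := hb N hN u (by
    rw [hre, le_div_iff₀ hpi]
    linarith) (by
    rw [hre, div_le_iff₀ hpi]
    linarith)
  have k2 := h4 a y (by linarith) (by linarith)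
  rw [← hu] at k2
  rw [k2, him] at k
  have hy : |y / Real.pi| ≤ |y| := by
    rw [abs_div, abs_of_pos hpi, div_le_iff₀ hpi]
    nlinarith [abs_nonneg y]
  have k3 : C * (1 + |y / Real.pi|) ≤ C * (1 + |y|) := by
    refine mul_le_mul_of_nonneg_left ?_ hC.le
    linarith
  have e1 : ((N : ℂ) + 1) * ((a : ℂ) + y * Complex.I) / Real.pi = (N + 1) * u := by
    rw [hu]
    ring
  have e2 : ‖gN N (((N : ℂ) + 1) * ((a : ℂ) + y * Complex.I) / Real.pi)‖ =
      Real.exp (LN N ((N + 1) * u)).re := by
    rw [e1, gN, Complex.norm_exp]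
  rw [e2]
  obtain ⟨k4, k5⟩ := abs_le.1 k
  have e3 : (N : ℝ) * (-(1 / Real.pi) * (Lob a + EE a y)) =
      -(N / Real.pi) * (Lob a + EE a y) := by
    ring
  rw [e3] at k4 k5
  constructor
  · exact Real.exp_le_exp.2 (by linarith)
  · exact Real.exp_le_exp.2 (by linarith)

/-- keep this signature -/
theorem thm_J4 (h0 : St_gN) (h1 : St_gB) (h2 : St_Star) (h3 : St_D2) (h4 : St_E0) (h5 : St_E1) : St_J4 := by
  have hpi := Real.pi_pos
  have hpi3 := Real.pi_gt_three
  have hpi0 : (Real.pi : ℂ) ≠ 0 := by exact_mod_cast hpi.ne'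
  -- the constants
  have hex : ∀ N : ℕ, ∃ κ : ℝ, 6 ≤ N → (0 < κ ∧
      ∀ a b : Fin 3 → ℂ, (∀ j, 0 < (a j).re) → (∀ j, 0 < (b j).re) →
      ∑ j, (a j + b j) = Real.pi →
      MeasureTheory.Integrable (fun s : ℝ =>
        ∏ j, (gN N ((N + 1) * (a j + s * Complex.I) / Real.pi) *
          gN N ((N + 1) * (b j - s * Complex.I) / Real.pi))) ∧
      ∫ s : ℝ, ∏ j, (gN N ((N + 1) * (a j + s * Complex.I) / Real.pi) *
        gN N ((N + 1) * (b j - s * Complex.I) / Real.pi)) =
      κ * ∏ j, ∏ k, gN N ((N + 1) * (a j + b k) / Real.pi)) := by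
    intro N
    by_cases hN6 : 6 ≤ N
    · obtain ⟨κ, hκ, hk⟩ := h2 N hN6
      have hNR : (6 : ℝ) ≤ N := by exact_mod_cast hN6
      set c : ℝ := ((N : ℝ) + 1) / Real.pi with hc
      have hc0 : 0 < c := by positivity
      refine ⟨c⁻¹ * κ, fun _ => ⟨by positivity, fun a b ha hb hs => ?_⟩⟩
      have hcC : ((N : ℂ) + 1) / Real.pi = c := by
        rw [hc]
        push_cast
        rfl
      have g1 : ∀ j (s : ℝ), ((N : ℂ) + 1) * (a j + s * Complex.I) / Real.pi =
          (c : ℂ) * a j + ((c * s : ℝ) : ℂ) * Complex.I := by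
        intro j s
        push_cast
        rw [← hcC]
        ring
      have g2 : ∀ j (s : ℝ), ((N : ℂ) + 1) * (b j - s * Complex.I) / Real.pi =
          (c : ℂ) * b j - ((c * s : ℝ) : ℂ) * Complex.I := by
        intro j s
        push_cast
        rw [← hcC]
        ring
      have g3 : ∀ j k, ((N : ℂ) + 1) * (a j + b k) / Real.pi = (c : ℂ) * a j + (c : ℂ) * b k := by
        intro j k
        rw [← hcC]
        ring
      have hre : ∑ j, ((a j).re + (b j).re) = Real.pi := by
        have := congrArg Complex.re hs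
        simpa [Complex.re_sum] using this
      have hre3 := hre
      simp only [Fin.sum_univ_three] at hre3
      have ha' : ∀ j, 0 < ((c : ℂ) * a j).re := fun j => by
        rw [Complex.re_ofReal_mul]
        exact mul_pos hc0 (ha j)
      have hb' : ∀ j, 0 < ((c : ℂ) * b j).re := fun j => by
        rw [Complex.re_ofReal_mul]
        exact mul_pos hc0 (hb j)
      have hcpi : c * Real.pi = N + 1 := by
        rw [hc]
        field_simp
      have hs' : ∑ j, ((c : ℂ) * a j + (c : ℂ) * b j) = N + 1 := by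
        have e : ∑ j, ((c : ℂ) * a j + (c : ℂ) * b j) = (c : ℂ) * ∑ j, (a j + b j) := by
          rw [Finset.mul_sum]
          exact Finset.sum_congr rfl fun j _ => by ring
        rw [e, hs]
        exact_mod_cast hcpi
      have hle : ∀ j, (a j).re < Real.pi ∧ (b j).re < Real.pi := by
        intro j
        have := ha 0
        have := ha 1
        have := ha 2
        have := hb 0
        have := hb 1
        have := hb 2
        fin_cases j <;> simp only [Fin.zero_eta, Fin.mk_one, Fin.reduceFinMk] <;>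
          constructor <;> linarith
      have hI : Integrable fun y : ℝ => ∏ j, (gN N ((c : ℂ) * a j + y * Complex.I) *
          gN N ((c : ℂ) * b j - y * Complex.I)) := by
        refine rec_int h0 h1 (by omega) _ _ (fun j => ⟨ha' j, ?_⟩) (fun j => ⟨hb' j, ?_⟩) ?_
        · rw [Complex.re_ofReal_mul, ← hcpi]
          exact mul_lt_mul_of_pos_left (hle j).1 hc0
        · rw [Complex.re_ofReal_mul, ← hcpi]
          exact mul_lt_mul_of_pos_left (hle j).2 hc0
        · have e : ∑ j, (((c : ℂ) * a j).re + ((c : ℂ) * b j).re) = N + 1 := by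
            simp only [Complex.re_ofReal_mul]
            rw [← hcpi, ← hre, Finset.mul_sum]
            exact Finset.sum_congr rfl fun j _ => by ring
          rw [e]
          linarith
      simp only [g1, g2, g3]
      constructor
      · exact hI.comp_mul_left' hc0.ne'
      · have e := hk (fun j => (c : ℂ) * a j) (fun j => (c : ℂ) * b j) ha' hb' hs'
        simp only [II, PP] at e
        rw [Measure.integral_comp_mul_left (fun y : ℝ => ∏ j, (gN N ((c : ℂ) * a j +
          (y : ℂ) * Complex.I) * gN N ((c : ℂ) * b j - (y : ℂ) * Complex.I))) c, e,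
          abs_of_pos (by positivity), Complex.real_smul]
        push_cast
        ring
    · exact ⟨1, fun h => absurd h hN6⟩
  choose κ hκ using hex
  refine ⟨κ, fun N hN => hκ N hN, ?_⟩
  -- bounds
  obtain ⟨C, hC, hmod⟩ := j4_mod h3 h4
  obtain ⟨C₁, hC₁, hE1⟩ := h5 (Real.pi / 6) (by positivity)
  have hEE : ∀ y : ℝ, Real.pi / 3 * |y| - C₁ ≤ EE (Real.pi / 6) y := by
    intro y
    have k := (abs_le.1 (hE1 (Real.pi / 6) y le_rfl (by linarith))).1
    have e : Real.pi / 2 - Real.pi / 6 = Real.pi / 3 := by ring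
    rw [e] at k
    linarith
  obtain ⟨N₁, hN₁⟩ := exists_nat_ge (6 * C + 1)
  set J : ℝ := ∫ s : ℝ, Real.exp (-1 * |s|) with hJ
  have hJ0 : 0 ≤ J := integral_nonneg fun s => (Real.exp_pos _).le
  set K : ℝ := Real.exp (6 * C + 6 * (N₁ / Real.pi) * C₁) * J * Real.exp (9 * C) with hK
  have hK0 : 0 ≤ K := by positivity
  have main : ∀ N : ℕ, 6 ≤ N → N₁ ≤ N → κ N ≤ K ∧
      Real.exp (-3 - 21 * C) / N ≤ κ N := by
    intro N hN6 hN1
    have hN : 1 ≤ N := by omega
    have hNR : (6 : ℝ) ≤ N := by exact_mod_cast hN6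
    have hN1R : (N₁ : ℝ) ≤ N := by exact_mod_cast hN1
    obtain ⟨hκ0, hk⟩ := hκ N hN6
    obtain ⟨-, -, -, hconj, hreal⟩ := h0 N hN
    set a₀ : ℝ := Real.pi / 6 with ha₀
    set G : ℝ → ℝ := fun s => ‖gN N ((N + 1) * ((a₀ : ℂ) + s * Complex.I) / Real.pi)‖ ^ 6 with hG
    obtain ⟨hI, hval⟩ := hk (fun _ => (a₀ : ℂ)) (fun _ => (a₀ : ℂ))
      (fun _ => by simp only [Complex.ofReal_re]; positivity)
      (fun _ => by simp only [Complex.ofReal_re]; positivity) (by
        simp only [Finset.sum_const, Finset.card_univ, Fintype.card_fin, nsmul_eq_mul, ha₀]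
        push_cast
        ring)
    have hGi : ∀ s : ℝ, ∏ _j : Fin 3, (gN N ((N + 1) * ((a₀ : ℂ) + s * Complex.I) / Real.pi) *
        gN N ((N + 1) * ((a₀ : ℂ) - s * Complex.I) / Real.pi)) = ((G s : ℝ) : ℂ) := by
      intro s
      have hx : ∀ s : ℝ, ((N : ℂ) + 1) * ((a₀ : ℂ) + s * Complex.I) / Real.pi =
          (((N + 1) / 6 : ℝ) : ℂ) + (((N + 1) * s / Real.pi : ℝ) : ℂ) * Complex.I := by
        intro s
        rw [ha₀]
        push_cast
        field_simp
      have e2 : gN N (((N : ℂ) + 1) * ((a₀ : ℂ) - s * Complex.I) / Real.pi) =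
          (starRingEnd ℂ) (gN N ((N + 1) * ((a₀ : ℂ) + s * Complex.I) / Real.pi)) := by
        rw [← hconj]
        · congr 1
          simp [sub_eq_add_neg]
        · rw [hx]
          simp only [Complex.add_re, Complex.ofReal_re, Complex.mul_re, Complex.I_re, mul_zero,
            Complex.ofReal_im, Complex.I_im, mul_one, sub_self, add_zero]
          positivity
        · rw [hx]
          simp only [Complex.add_re, Complex.ofReal_re, Complex.mul_re, Complex.I_re, mul_zero,
            Complex.ofReal_im, Complex.I_im, mul_one, sub_self, add_zero]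
          linarith
      rw [e2]
      simp only [Complex.mul_conj, Finset.prod_const, Finset.card_univ, Fintype.card_fin,
        Complex.normSq_eq_norm_sq, hG]
      push_cast
      ring
    simp only [hGi] at hI hval
    have hGI : Integrable G := by
      have := hI.re
      refine this.congr (Eventually.of_forall fun s => ?_)
      exact Complex.ofReal_re _
    obtain ⟨r, hr, hr'⟩ := hreal ((N + 1) / 3) (by positivity) (by linarith)
    have hr2 : ∀ u : ℂ, u = (a₀ : ℂ) + a₀ → gN N ((N + 1) * u / Real.pi) = r := by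
      intro u hu
      rw [hu, ← hr']
      congr 1
      rw [ha₀]
      push_cast
      field_simp
      ring
    have hval2 : ∫ s, G s = κ N * r ^ 9 := by
      rw [integral_complex_ofReal, hr2 _ rfl] at hval
      simp only [Finset.prod_const, Finset.card_univ, Fintype.card_fin] at hval
      have h7 : ((∫ s, G s : ℝ) : ℂ) = ((κ N * r ^ 9 : ℝ) : ℂ) := by
        rw [hval]
        push_cast
        ring
      exact_mod_cast h7
    -- bounds for r
    have hr3 : Real.exp (-(N / Real.pi) * Lob (Real.pi / 3) - C) ≤ r ∧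
        r ≤ Real.exp (-(N / Real.pi) * Lob (Real.pi / 3) + C) := by
      have k := hmod N hN (Real.pi / 3) 0 (by linarith) le_rfl
      have e : gN N ((N + 1) * (((Real.pi / 3 : ℝ) : ℂ) + ((0 : ℝ) : ℂ) * Complex.I) /
          Real.pi) = r := by
        refine hr2 _ ?_
        rw [ha₀]
        push_cast
        ring
      rw [e, Complex.norm_real, Real.norm_eq_abs, abs_of_pos hr] at k
      have e0 : EE (Real.pi / 3) 0 = 0 := by simp [EE]
      rw [e0, abs_zero, add_zero, add_zero, mul_one] at k
      exact k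
    have hr9 : Real.exp (9 * (-(N / Real.pi) * Lob (Real.pi / 3)) - 9 * C) ≤ r ^ 9 ∧
        r ^ 9 ≤ Real.exp (9 * (-(N / Real.pi) * Lob (Real.pi / 3)) + 9 * C) := by
      constructor
      · have := pow_le_pow_left₀ (Real.exp_pos _).le hr3.1 9
        rw [← Real.exp_nat_mul] at this
        refine le_trans (le_of_eq ?_) this
        congr 1
        push_cast
        ring
      · have := pow_le_pow_left₀ hr.le hr3.2 9
        rw [← Real.exp_nat_mul] at this
        refine this.trans (le_of_eq ?_)
        congr 1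
        push_cast
        ring
    have hG1 : ∀ s, G s ≤ Real.exp (6 * (-(N / Real.pi) * Lob a₀) + (6 * C +
        6 * (N₁ / Real.pi) * C₁)) * Real.exp (-1 * |s|) := by
      intro s
      have k := (hmod N hN a₀ s le_rfl (by rw [ha₀]; linarith)).2
      have k2 := pow_le_pow_left₀ (norm_nonneg _) k 6
      rw [← Real.exp_nat_mul] at k2
      refine k2.trans ?_
      rw [← Real.exp_add]
      refine Real.exp_le_exp.2 ?_
      have q1 := hEE s
      have q2 := j4_EE_nonneg s
      rw [← ha₀] at q2
      have q3 : (N₁ : ℝ) / Real.pi * EE a₀ s ≤ N / Real.pi * EE a₀ s :=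
        mul_le_mul_of_nonneg_right (div_le_div_of_nonneg_right hN1R hpi.le) q2
      have q4 : (N₁ : ℝ) / Real.pi * (Real.pi / 3 * |s| - C₁) ≤ N₁ / Real.pi * EE a₀ s :=
        mul_le_mul_of_nonneg_left q1 (by positivity)
      have q5 : (N₁ : ℝ) / Real.pi * (Real.pi / 3 * |s| - C₁) =
          N₁ * |s| / 3 - N₁ / Real.pi * C₁ := by
        field_simp
      rw [q5] at q4
      have q6 : (6 * C + 1) * |s| ≤ N₁ * |s| := mul_le_mul_of_nonneg_right hN₁ (abs_nonneg s)
      push_cast
      have q7 := abs_nonneg s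
      have q8 : 0 ≤ C * |s| := by positivity
      nlinarith
    have hub : ∫ s, G s ≤ Real.exp (6 * (-(N / Real.pi) * Lob a₀) + (6 * C +
        6 * (N₁ / Real.pi) * C₁)) * J := by
      rw [hJ, ← integral_const_mul]
      refine integral_mono hGI ((bd_exp one_pos).const_mul _) fun s => hG1 s
    have hlob : 6 * (-(N / Real.pi) * Lob a₀) = 9 * (-(N / Real.pi) * Lob (Real.pi / 3)) := by
      have := j4_lob
      rw [← ha₀] at this
      linear_combination (-(N / Real.pi)) * this
    have hlow : Real.exp (6 * (-(N / Real.pi) * Lob a₀) - 3 - 12 * C) / N ≤ ∫ s, G s := by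
      have hNpos : (0 : ℝ) < N := by linarith
      have h8 : ∀ s ∈ Set.Icc (0 : ℝ) (1 / N),
          Real.exp (6 * (-(N / Real.pi) * Lob a₀) - 3 - 12 * C) ≤ G s := by
        intro s hs
        have k := (hmod N hN a₀ s le_rfl (by rw [ha₀]; linarith)).1
        have k2 := pow_le_pow_left₀ (Real.exp_pos _).le k 6
        rw [← Real.exp_nat_mul] at k2
        refine le_trans ?_ k2
        refine Real.exp_le_exp.2 ?_
        have q1 := j4_EE_le a₀ s
        have q2 : |s| ≤ 1 / N := by
          rw [abs_of_nonneg hs.1]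
          exact hs.2
        have q3 : |s| ≤ 1 := q2.trans (by
          rw [div_le_one hNpos]
          linarith)
        have q4 : (N : ℝ) / Real.pi * EE a₀ s ≤ 1 / 2 := by
          calc (N : ℝ) / Real.pi * EE a₀ s ≤ N / Real.pi * (Real.pi / 2 * (1 / N)) := by
                refine mul_le_mul_of_nonneg_left (q1.trans ?_) (by positivity)
                exact mul_le_mul_of_nonneg_left q2 (by positivity)
            _ = 1 / 2 := by field_simp
        push_cast
        nlinarith
      have h9 : ∫ s in Set.Icc (0 : ℝ) (1 / N), Real.exp (6 * (-(N / Real.pi) * Lob a₀) -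
          3 - 12 * C) ≤ ∫ s in Set.Icc (0 : ℝ) (1 / N), G s := by
        refine setIntegral_mono_on ?_ hGI.integrableOn measurableSet_Icc h8
        exact integrableOn_const (by simp) (by simp)
      have h10 : ∫ s in Set.Icc (0 : ℝ) (1 / N), G s ≤ ∫ s, G s :=
        setIntegral_le_integral hGI (Eventually.of_forall fun s => by
          simp only [hG, Pi.zero_apply]
          positivity)
      refine le_trans (le_of_eq ?_) (h9.trans h10)
      rw [setIntegral_const]
      simp only [Real.volume_real_Icc, sub_zero, smul_eq_mul]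
      rw [max_eq_left (by positivity)]
      ring
    have hr90 : 0 < r ^ 9 := by positivity
    constructor
    · -- upper
      rw [hval2] at hub
      have h11 : κ N * r ^ 9 ≤ K * r ^ 9 := by
        refine hub.trans ?_
        have h12 : K * Real.exp (9 * (-(N / Real.pi) * Lob (Real.pi / 3)) - 9 * C) ≤
            K * r ^ 9 := mul_le_mul_of_nonneg_left hr9.1 hK0
        refine le_trans (le_of_eq ?_) h12
        rw [hK, hlob, Real.exp_add, Real.exp_sub]
        field_simp
      exact le_of_mul_le_mul_right h11 hr90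
    · rw [hval2] at hlow
      have h11 : Real.exp (-3 - 21 * C) / N * r ^ 9 ≤ κ N * r ^ 9 := by
        refine le_trans ?_ hlow
        have h12 : Real.exp (-3 - 21 * C) / N * r ^ 9 ≤ Real.exp (-3 - 21 * C) / N *
            Real.exp (9 * (-(N / Real.pi) * Lob (Real.pi / 3)) + 9 * C) :=
          mul_le_mul_of_nonneg_left hr9.2 (by positivity)
        refine h12.trans (le_of_eq ?_)
        rw [div_mul_eq_mul_div, ← Real.exp_add, hlob]
        congr 2
        ring
      exact le_of_mul_le_mul_right h11 hr90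
  intro ε hε
  obtain ⟨N₂, hN₂⟩ := exists_nat_ge (K / ε)
  obtain ⟨N₃, hN₃⟩ := exists_nat_ge (2 / (Real.exp (-3 - 21 * C) * ε ^ 2))
  refine ⟨max 6 (max N₁ (max N₂ N₃)), fun N hN => ?_⟩
  have n6 : 6 ≤ N := le_trans (le_max_left _ _) hN
  have n1 : N₁ ≤ N := le_trans (le_trans (le_max_left _ _) (le_max_right _ _)) hN
  have n2 : N₂ ≤ N := le_trans (le_trans (le_trans (le_max_left _ _) (le_max_right _ _))
    (le_max_right _ _)) hN
  have n3 : N₃ ≤ N := le_trans (le_trans (le_trans (le_max_right _ _) (le_max_right _ _))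
    (le_max_right _ _)) hN
  obtain ⟨m1, m2⟩ := main N n6 n1
  have hNR : (6 : ℝ) ≤ N := by exact_mod_cast n6
  have n2R : (N₂ : ℝ) ≤ N := by exact_mod_cast n2
  have n3R : (N₃ : ℝ) ≤ N := by exact_mod_cast n3
  have hq := Real.quadratic_le_exp_of_nonneg (by positivity : 0 ≤ ε * N)
  constructor
  · refine le_trans ?_ m2
    rw [Real.exp_neg, inv_le_comm₀ (Real.exp_pos _) (by positivity), inv_div]
    set c : ℝ := Real.exp (-3 - 21 * C) with hc
    have hc0 : 0 < c := Real.exp_pos _
    have h13 : 2 / (c * ε ^ 2) ≤ N := hN₃.trans n3R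
    rw [div_le_iff₀ (by positivity)] at h13
    rw [div_le_iff₀ hc0]
    have h14 : (N : ℝ) ≤ (ε * N) ^ 2 / 2 * c := by
      have : (N : ℝ) * 2 ≤ N * (N * (c * ε ^ 2)) :=
        mul_le_mul_of_nonneg_left h13 (by positivity)
      nlinarith
    refine h14.trans (mul_le_mul_of_nonneg_right ?_ hc0.le)
    have : 0 ≤ ε * N := by positivity
    linarith
  · refine m1.trans ?_
    have h13 : K / ε ≤ N := hN₂.trans n2R
    rw [div_le_iff₀ hε] at h13
    have : 0 ≤ (ε * N) ^ 2 / 2 := by positivity
    nlinarith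

end Pool.Agent.PAN
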