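import Mathlib
import Pool.Agent.PAN.Stmts

set_option autoImplicit false

/-!
# PAN / Lio: Liouville for periodic functions
-/

namespace Pool.Agent.PAN

open Finset Filter

/-- entire functions of growth less than linear are constant -/
private lemma lio_entire (F : ℂ → ℂ) (hF : Differentiable ℂ F) (C θ : ℝ) (hC : 0 ≤ C)
    (hθ0 : 0 ≤ θ) (hθ : θ < 1) (hb : ∀ q : ℂ, 1 ≤ ‖q‖ → ‖F q‖ ≤ C * ‖q‖ ^ θ) :
    ∀ p q : ℂ, F p = F q := by
  have hder : ∀ q, deriv F q = 0 := by
    intro q
    have h1 : ∀ᶠ R : ℝ in atTop, ‖deriv F q‖ ≤ (C * 2 ^ θ) * R ^ (-(1 - θ)) := by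
      filter_upwards [eventually_ge_atTop (1 + 2 * ‖q‖)] with R hR
      have hq := norm_nonneg q
      have hR0 : 0 < R := by linarith
      have h2 : ∀ z ∈ Metric.sphere q R, ‖F z‖ ≤ C * (2 * R) ^ θ := by
        intro z hz
        rw [mem_sphere_iff_norm] at hz
        have h3 : R ≤ ‖z‖ + ‖q‖ := by rw [← hz]; exact norm_sub_le z q
        have h4 : ‖z‖ ≤ R + ‖q‖ := by
          have := norm_add_le (z - q) q
          rw [sub_add_cancel, hz] at this
          exact this
        refine (hb z (by linarith)).trans ?_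
        apply mul_le_mul_of_nonneg_left _ hC
        exact Real.rpow_le_rpow (norm_nonneg _) (by linarith) hθ0
      have h5 := Complex.norm_deriv_le_of_forall_mem_sphere_norm_le hR0
        (hF.diffContOnCl (s := Metric.ball q R)) h2
      refine h5.trans (le_of_eq ?_)
      rw [Real.mul_rpow (by norm_num) hR0.le]
      have h6 : R ^ (-(1 - θ)) = R ^ θ / R := by
        rw [show -(1 - θ) = θ - 1 by ring, Real.rpow_sub_one hR0.ne']
      rw [h6]
      ring
    have h7 : Tendsto (fun R : ℝ => (C * 2 ^ θ) * R ^ (-(1 - θ))) atTop (nhds 0) := by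
      have := (tendsto_rpow_neg_atTop (show 0 < 1 - θ by linarith)).const_mul (C * 2 ^ θ)
      rwa [mul_zero] at this
    have h8 : ‖deriv F q‖ ≤ 0 := ge_of_tendsto h7 h1
    exact norm_le_zero_iff.1 h8
  intro p q
  exact is_const_of_deriv_eq_zero hF hder p q

private lemma lio_cusp (g : ℂ → ℂ) (hg : Differentiable ℂ g) (hp : Function.Periodic g 1)
    (C θ : ℝ) (hC : 0 ≤ C) (hθ0 : 0 ≤ θ) (hθ : θ < 1)
    (hb : ∀ t : ℂ, ‖g t‖ ≤ C * Real.exp (2 * Real.pi * θ * |t.im|)) :
    ∀ s t : ℂ, g s = g t := by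
  have hp1 : Function.Periodic g ((1 : ℝ) : ℂ) := by
    rw [Complex.ofReal_one]; exact hp
  set F := Function.Periodic.cuspFunction 1 g with hFdef
  have hFb : ∀ q : ℂ, q ≠ 0 → ‖F q‖ ≤ C * Real.exp (θ * |Real.log ‖q‖|) := by
    intro q hq
    rw [hFdef, Function.Periodic.cuspFunction_eq_of_nonzero _ _ hq]
    refine (hb _).trans (le_of_eq ?_)
    rw [Function.Periodic.im_invQParam, abs_mul, abs_div, abs_neg, abs_one,
      abs_of_pos (by positivity : (0 : ℝ) < 2 * Real.pi)]
    congr 2
    field_simp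
  have hFd : ∀ q : ℂ, q ≠ 0 → DifferentiableAt ℂ F q := by
    intro q hq
    have h1 := Function.Periodic.differentiableAt_cuspFunction (h := 1) one_ne_zero hp1
      (hg (Function.Periodic.invQParam 1 q))
    rwa [Function.Periodic.qParam_right_inv one_ne_zero hq] at h1
  have hrp : ∀ q : ℂ, q ≠ 0 → ‖q‖ < 1 → ‖F q‖ ≤ C * ‖q‖ ^ (-θ) := by
    intro q hq h1
    refine (hFb q hq).trans (le_of_eq ?_)
    rw [Real.rpow_def_of_pos (norm_pos_iff.2 hq),
      abs_of_neg (Real.log_neg (norm_pos_iff.2 hq) h1)]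
    congr 2
    ring
  have ho : (fun z => F z - F 0) =o[nhdsWithin 0 {0}ᶜ] fun z : ℂ => (z - 0)⁻¹ := by
    rw [Asymptotics.isLittleO_iff_tendsto']
    · have h1 : Tendsto (fun z : ℂ => C * ‖z‖ ^ (1 - θ) + ‖F 0‖ * ‖z‖) (nhdsWithin 0 {0}ᶜ)
          (nhds 0) := by
        have h2 : ContinuousAt (fun z : ℂ => C * ‖z‖ ^ (1 - θ) + ‖F 0‖ * ‖z‖) 0 := by
          apply ContinuousAt.add
          · apply ContinuousAt.mul continuousAt_const
            exact continuous_norm.continuousAt.rpow_const (Or.inr (by linarith))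
          · exact continuousAt_const.mul continuous_norm.continuousAt
        have h3 := h2.tendsto
        rw [norm_zero, Real.zero_rpow (by linarith), mul_zero, mul_zero, add_zero] at h3
        exact h3.mono_left nhdsWithin_le_nhds
      apply squeeze_zero_norm' _ h1
      have h4 : ∀ᶠ z : ℂ in nhdsWithin 0 {0}ᶜ, ‖z‖ < 1 := by
        apply nhdsWithin_le_nhds
        filter_upwards [Metric.ball_mem_nhds (0 : ℂ) one_pos] with z hz
        exact mem_ball_zero_iff.1 hz
      filter_upwards [h4, self_mem_nhdsWithin] with z hz hz0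
      have hz0' : z ≠ 0 := hz0
      have hpos : 0 < ‖z‖ := norm_pos_iff.2 hz0'
      rw [sub_zero, div_inv_eq_mul, norm_mul]
      have h5 : ‖F z - F 0‖ ≤ C * ‖z‖ ^ (-θ) + ‖F 0‖ :=
        (norm_sub_le _ _).trans (add_le_add (hrp z hz0' hz) le_rfl)
      calc ‖F z - F 0‖ * ‖z‖ ≤ (C * ‖z‖ ^ (-θ) + ‖F 0‖) * ‖z‖ :=
            mul_le_mul_of_nonneg_right h5 hpos.le
        _ = C * ‖z‖ ^ (1 - θ) + ‖F 0‖ * ‖z‖ := by
            have h6 : ‖z‖ ^ (1 - θ) = ‖z‖ ^ (-θ) * ‖z‖ := by
              rw [show 1 - θ = -θ + 1 by ring, Real.rpow_add_one hpos.ne']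
            rw [h6]
            ring
    · filter_upwards [self_mem_nhdsWithin] with z hz0 hz1
      exfalso
      rw [sub_zero, inv_eq_zero] at hz1
      exact hz0 hz1
  have hF0 : DifferentiableAt ℂ F 0 := by
    have h1 := Complex.differentiableOn_update_limUnder_of_isLittleO
      (s := Set.univ) (c := (0 : ℂ)) (f := F) Filter.univ_mem
      (fun z hz => (hFd z hz.2).differentiableWithinAt) ho
    have h2 : Function.update F 0 (limUnder (nhdsWithin 0 {0}ᶜ) F) = F := by
      rw [hFdef, ← Function.Periodic.cuspFunction_zero_eq_limUnder_nhds_ne,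
        Function.update_eq_self]
    rw [h2] at h1
    exact h1.differentiableAt Filter.univ_mem
  have hFdiff : Differentiable ℂ F := by
    intro q
    by_cases hq : q = 0
    · rw [hq]; exact hF0
    · exact hFd q hq
  have hconst := lio_entire F hFdiff C θ hC hθ0 hθ (by
    intro q hq
    have hq0 : q ≠ 0 := by
      intro h; rw [h, norm_zero] at hq; linarith
    refine (hFb q hq0).trans (le_of_eq ?_)
    rw [Real.rpow_def_of_pos (norm_pos_iff.2 hq0), abs_of_nonneg (Real.log_nonneg hq)]
    congr 2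
    ring)
  intro s t
  rw [← Function.Periodic.eq_cuspFunction (h := 1) one_ne_zero hp1 s,
    ← Function.Periodic.eq_cuspFunction (h := 1) one_ne_zero hp1 t]
  exact hconst _ _

private lemma lio_shift (A B : ℝ) (f : ℂ → ℂ)
    (h : ∀ t : ℂ, A < t.re → t.re + 1 < B → f (t + 1) = f t) :
    ∀ (n : ℕ) (t : ℂ), A < t.re → t.re + n < B → f (t + n) = f t := by
  intro n
  induction n with
  | zero => intro t _ _; simp
  | succ n ih =>
    intro t h1 h2
    push_cast at h2
    have h3 : f (t + n + 1) = f (t + n) := by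
      apply h
      · rw [Complex.add_re, Complex.natCast_re]
        have : (0 : ℝ) ≤ n := Nat.cast_nonneg n
        linarith
      · rw [Complex.add_re, Complex.natCast_re]
        linarith
    rw [← ih t h1 (by linarith), ← h3]
    congr 1
    push_cast
    ring

/-- keep this signature -/
theorem thm_Lio : St_Lio := by
  intro A B x₀ θ C f hA hB hθ hd hper hb
  -- the periodic extension
  set g : ℂ → ℂ := fun t => f (t - ((⌊t.re - x₀⌋ : ℤ) : ℂ)) with hg
  have hshift : ∀ (n : ℤ) (z : ℂ), (n : ℝ) - min (x₀ - A) 1 < z.re - x₀ →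
      z.re - x₀ < n + 1 → g z = f (z - (n : ℂ)) := by
    intro n z h1 h2
    rcases le_or_gt (n : ℝ) (z.re - x₀) with h | h
    · have h3 : ⌊z.re - x₀⌋ = n := Int.floor_eq_iff.2 ⟨h, h2⟩
      simp only [hg]
      rw [h3]
    · have hm1 := min_le_right (x₀ - A) 1
      have hm2 := min_le_left (x₀ - A) 1
      have h3 : ⌊z.re - x₀⌋ = n - 1 := by
        apply Int.floor_eq_iff.2
        push_cast
        constructor <;> linarith
      simp only [hg]
      rw [h3]
      have h4 : z - (((n - 1 : ℤ)) : ℂ) = (z - (n : ℂ)) + 1 := by push_cast; ring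
      rw [h4]
      apply hper
      · rw [Complex.sub_re, Complex.intCast_re]; linarith
      · rw [Complex.sub_re, Complex.intCast_re]; linarith
  have hre : ∀ t : ℂ, (t - ((⌊t.re - x₀⌋ : ℤ) : ℂ)).re = t.re - (⌊t.re - x₀⌋ : ℝ) := by
    intro t
    rw [Complex.sub_re, Complex.intCast_re]
  have him : ∀ t : ℂ, (t - ((⌊t.re - x₀⌋ : ℤ) : ℂ)).im = t.im := by
    intro t
    rw [Complex.sub_im, Complex.intCast_im, sub_zero]
  have hgd : Differentiable ℂ g := by
    intro t
    have hn1 := Int.floor_le (t.re - x₀)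
    have hn2 := Int.lt_floor_add_one (t.re - x₀)
    set n := ⌊t.re - x₀⌋ with hn
    have hm : 0 < min (x₀ - A) 1 := lt_min (by linarith) one_pos
    have hopen : IsOpen {z : ℂ | (n : ℝ) - min (x₀ - A) 1 < z.re - x₀ ∧ z.re - x₀ < n + 1} := by
      apply IsOpen.and
      · exact isOpen_lt continuous_const (Complex.continuous_re.sub continuous_const)
      · exact isOpen_lt (Complex.continuous_re.sub continuous_const) continuous_const
    have hev : g =ᶠ[nhds t] fun z => f (z - (n : ℂ)) := by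
      filter_upwards [hopen.mem_nhds ⟨by linarith, hn2⟩] with z hz
      exact hshift n z hz.1 hz.2
    have hfd : DifferentiableAt ℂ (fun z => f (z - (n : ℂ))) t := by
      have h1 : DifferentiableAt ℂ f (t - (n : ℂ)) := by
        apply hd
        · rw [Complex.sub_re, Complex.intCast_re]; linarith
        · rw [Complex.sub_re, Complex.intCast_re]; linarith
      exact h1.comp t (differentiableAt_id.sub_const _)
    exact hfd.congr_of_eventuallyEq hev
  have hgp : Function.Periodic g 1 := by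
    intro t
    simp only [hg]
    have h1 : ⌊(t + 1).re - x₀⌋ = ⌊t.re - x₀⌋ + 1 := by
      rw [Complex.add_re, Complex.one_re]
      have : t.re + 1 - x₀ = (t.re - x₀) + 1 := by ring
      rw [this, Int.floor_add_one]
    rw [h1]
    congr 1
    push_cast
    ring
  have hC : 0 ≤ C := by
    have h1 := hb (x₀ : ℂ) (by simp) (by simp)
    have h2 := (norm_nonneg _).trans h1
    exact nonneg_of_mul_nonneg_left h2 (Real.exp_pos _)
  have hgb : ∀ t : ℂ, ‖g t‖ ≤ C * Real.exp (2 * Real.pi * (max θ 0) * |t.im|) := by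
    intro t
    have hn1 := Int.floor_le (t.re - x₀)
    have hn2 := Int.lt_floor_add_one (t.re - x₀)
    have h1 := hb (t - ((⌊t.re - x₀⌋ : ℤ) : ℂ)) (by rw [hre]; linarith) (by rw [hre]; linarith)
    rw [him] at h1
    refine h1.trans ?_
    apply mul_le_mul_of_nonneg_left _ hC
    apply Real.exp_le_exp.2
    apply mul_le_mul_of_nonneg_right _ (abs_nonneg _)
    apply mul_le_mul_of_nonneg_left (le_max_left _ _) (by positivity)
  have hconst := lio_cusp g hgd hgp C (max θ 0) hC (le_max_right _ _)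
    (max_lt hθ one_pos) hgb
  have hfg : ∀ s : ℂ, A < s.re → s.re < B → g s = f s := by
    intro s h1 h2
    have hn1 := Int.floor_le (s.re - x₀)
    have hn2 := Int.lt_floor_add_one (s.re - x₀)
    have hgs : g s = f (s - ((⌊s.re - x₀⌋ : ℤ) : ℂ)) := rfl
    rw [hgs]
    rcases le_or_gt 0 ⌊s.re - x₀⌋ with h | h
    · obtain ⟨m, hm⟩ := Int.eq_ofNat_of_zero_le h
      rw [hm] at hn1 hn2 ⊢
      push_cast at hn1 hn2 ⊢
      have h3 := lio_shift A B f hper m (s - m)
        (by rw [Complex.sub_re, Complex.natCast_re]; linarith)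
        (by rw [Complex.sub_re, Complex.natCast_re]; linarith)
      rw [sub_add_cancel] at h3
      exact h3.symm
    · obtain ⟨m, hm⟩ := Int.eq_ofNat_of_zero_le (show 0 ≤ -⌊s.re - x₀⌋ by omega)
      have hm' : ⌊s.re - x₀⌋ = -(m : ℤ) := by omega
      rw [hm'] at hn1 hn2 ⊢
      push_cast at hn1 hn2 ⊢
      rw [sub_neg_eq_add]
      exact lio_shift A B f hper m s h1 (by linarith)
  intro s t hs1 hs2 ht1 ht2
  rw [← hfg s hs1 hs2, ← hfg t ht1 ht2]
  exact hconst s t

end Pool.Agent.PAN
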