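import Mathlib
import Pool.Agent.PAN.Stmts
import Pool.Agent.PTH.LobC

set_option autoImplicit false

/-!
# PAN / PhM: the limit function
-/

namespace Pool.Agent.PAN

open Finset Filter

private theorem ph_cont (h1 : St_G1) : ContinuousOn gg {z : ℂ | 0 < z.re ∧ z.re < 2} := by
  have hU : IsOpen {z : ℂ | 0 < z.re ∧ z.re < 2} :=
    (isOpen_lt continuous_const Complex.continuous_re).inter
      (isOpen_lt Complex.continuous_re continuous_const)
  have hd : DifferentiableOn ℂ G1 {z : ℂ | 0 < z.re ∧ z.re < 2} :=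
    fun z hz => (h1.1 z hz.1 hz.2).differentiableAt.differentiableWithinAt
  have h2 := (hd.deriv hU).continuousOn
  refine h2.congr fun z hz => ?_
  rw [(h1.1 z hz.1 hz.2).deriv]

private theorem ph_G1cont (h1 : St_G1) : ContinuousOn G1 {z : ℂ | 0 < z.re ∧ z.re < 2} :=
  fun z hz => (h1.1 z hz.1 hz.2).continuousAt.continuousWithinAt

private theorem ph_deriv (h1 : St_G1) (h2 : St_GL) (u : ℂ) (h0 : 0 < u.re) (h3 : u.re < 1) :
    HasDerivAt Ph (Complex.log (2 * Complex.sin (Real.pi * u))) u := by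
  set ρ : ℝ := min u.re (1 - u.re) / 2 with hρ
  have hρ0 : 0 < ρ := by
    rw [hρ]
    have : 0 < min u.re (1 - u.re) := lt_min h0 (by linarith)
    linarith
  have hρ1 : ρ < u.re := by
    rw [hρ]
    have : min u.re (1 - u.re) ≤ u.re := min_le_left _ _
    linarith
  have hρ2 : ρ < 1 - u.re := by
    rw [hρ]
    have : min u.re (1 - u.re) ≤ 1 - u.re := min_le_right _ _
    linarith
  have hmem : ∀ v ∈ Metric.closedBall u ρ, ∀ τ : ℝ, 0 ≤ τ → τ ≤ 1 →
      v + (τ : ℂ) ∈ {z : ℂ | 0 < z.re ∧ z.re < 2} := by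
    intro v hv τ hτ0 hτ1
    have h4 : |v.re - u.re| ≤ ρ := by
      rw [← Complex.sub_re]
      exact (Complex.abs_re_le_norm _).trans (by rwa [← dist_eq_norm, ← Metric.mem_closedBall])
    have h5 := abs_le.1 h4
    constructor
    · simp; linarith [h5.1]
    · simp; linarith [h5.2]
  let K : Set ℂ := (fun p : ℂ × ℝ => p.1 + (p.2 : ℂ)) '' (Metric.closedBall u ρ ×ˢ Set.Icc (0 : ℝ) 1)
  have hK : IsCompact K :=
    ((isCompact_closedBall u ρ).prod isCompact_Icc).image (by fun_prop)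
  have hKU : K ⊆ {z : ℂ | 0 < z.re ∧ z.re < 2} := by
    rintro _ ⟨⟨v, τ⟩, ⟨hv, hτ⟩, rfl⟩
    exact hmem v hv τ hτ.1 hτ.2
  obtain ⟨M, hM⟩ := hK.exists_bound_of_continuousOn ((ph_cont h1).mono hKU)
  have hc : ∀ v ∈ Metric.closedBall u ρ, ContinuousOn (fun τ : ℝ => G1 (v + (τ : ℂ)))
      (Set.Icc 0 1) := by
    intro v hv
    exact (ph_G1cont h1).comp (by fun_prop) fun τ hτ => hmem v hv τ hτ.1 hτ.2
  have hc' : ContinuousOn (fun τ : ℝ => gg (u + (τ : ℂ))) (Set.Icc 0 1) :=
    (ph_cont h1).comp (by fun_prop)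
      fun τ hτ => hmem u (Metric.mem_closedBall_self hρ0.le) τ hτ.1 hτ.2
  have hsub : Set.uIoc (0 : ℝ) 1 ⊆ Set.Icc 0 1 := by
    rw [Set.uIoc_of_le zero_le_one]; exact Set.Ioc_subset_Icc_self
  have hder := intervalIntegral.hasDerivAt_integral_of_dominated_loc_of_deriv_le
    (μ := MeasureTheory.volume) (a := (0 : ℝ)) (b := 1) (bound := fun _ => M)
    (F := fun (v : ℂ) (τ : ℝ) => G1 (v + (τ : ℂ)))
    (F' := fun (v : ℂ) (τ : ℝ) => gg (v + (τ : ℂ)))
    (x₀ := u) (s := Metric.ball u ρ) (Metric.ball_mem_nhds u hρ0)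
    (by
      filter_upwards [Metric.ball_mem_nhds u hρ0] with v hv
      exact ((hc v (Metric.ball_subset_closedBall hv)).mono hsub).aestronglyMeasurable
        measurableSet_uIoc)
    (by
      refine ContinuousOn.intervalIntegrable ?_
      rw [Set.uIcc_of_le zero_le_one]
      exact hc u (Metric.mem_closedBall_self hρ0.le))
    ((hc'.mono hsub).aestronglyMeasurable measurableSet_uIoc)
    (by
      refine Filter.Eventually.of_forall fun τ hτ v hv => ?_
      have hτ' := hsub hτ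
      exact hM _ ⟨(v, τ), ⟨Metric.ball_subset_closedBall hv, hτ'⟩, rfl⟩)
    intervalIntegrable_const
    (by
      refine Filter.Eventually.of_forall fun τ hτ v hv => ?_
      have hτ' := hsub hτ
      have hm := hmem v (Metric.ball_subset_closedBall hv) τ hτ'.1 hτ'.2
      have a1 := h1.1 _ hm.1 hm.2
      have a2 : HasDerivAt (fun v : ℂ => v + (τ : ℂ)) 1 v := by
        simpa using (hasDerivAt_id v).add_const (τ : ℂ)
      have a3 := HasDerivAt.comp v a1 a2
      rwa [mul_one] at a3)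
  have hftc : ∫ τ in (0 : ℝ)..1, gg (u + (τ : ℂ)) = G1 (u + 1) - G1 u := by
    have a1 : ∀ τ ∈ Set.uIcc (0 : ℝ) 1, HasDerivAt (fun τ : ℝ => G1 (u + (τ : ℂ)))
        (gg (u + (τ : ℂ))) τ := by
      intro τ hτ
      rw [Set.uIcc_of_le zero_le_one] at hτ
      have hm := hmem u (Metric.mem_closedBall_self hρ0.le) τ hτ.1 hτ.2
      have a2 := h1.1 _ hm.1 hm.2
      have a3 : HasDerivAt (fun τ : ℝ => u + (τ : ℂ)) 1 τ := by
        have a4 : HasDerivAt (fun τ : ℝ => (τ : ℂ)) 1 τ := Complex.ofRealCLM.hasDerivAt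
        exact a4.const_add u
      have a5 := HasDerivAt.comp τ a2 a3
      rwa [mul_one] at a5
    rw [intervalIntegral.integral_eq_sub_of_hasDerivAt a1]
    · simp
    · refine ContinuousOn.intervalIntegrable ?_
      rw [Set.uIcc_of_le zero_le_one]
      exact hc'
  have h6 := hder.2
  rw [hftc, h2 u h0 h3] at h6
  exact h6

private theorem ph_half (h1 : St_G1) : Ph (1 / 2) = 0 := by
  unfold Ph
  have e1 : ∫ τ in (0 : ℝ)..1, G1 (1 / 2 + (τ : ℂ)) =
      ∫ τ in (0 : ℝ)..1, -G1 (1 / 2 + (τ : ℂ)) := by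
    have e2 := intervalIntegral.integral_comp_sub_left (a := (0 : ℝ)) (b := 1)
      (fun τ : ℝ => G1 (1 / 2 + (τ : ℂ))) 1
    rw [sub_self, sub_zero] at e2
    rw [← e2]
    refine intervalIntegral.integral_congr fun τ hτ => ?_
    rw [Set.uIcc_of_le zero_le_one] at hτ
    show G1 (1 / 2 + ((1 - τ : ℝ) : ℂ)) = -G1 (1 / 2 + (τ : ℂ))
    have e3 : (1 / 2 + ((1 - τ : ℝ) : ℂ)) = 2 - (1 / 2 + (τ : ℂ)) := by push_cast; ring
    rw [e3]
    refine h1.2.2.1 _ ?_ ?_
    · simp; linarith [hτ.1]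
    · simp; linarith [hτ.2]
  rw [intervalIntegral.integral_neg] at e1
  have e4 : (2 : ℂ) * ∫ τ in (0 : ℝ)..1, G1 (1 / 2 + (τ : ℂ)) = 0 := by
    linear_combination e1
  exact (mul_eq_zero.1 e4).resolve_left two_ne_zero

private theorem ph_Lob : Lob (Real.pi / 2) = 0 := by
  unfold Lob
  have e1 : ∫ t in (0 : ℝ)..(Real.pi / 2), Real.log |2 * Real.sin t| =
      ∫ t in (0 : ℝ)..(Real.pi / 2), (Real.log 2 + Real.log (Real.sin t)) := by
    refine intervalIntegral.integral_congr_ae ?_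
    refine Filter.Eventually.of_forall fun t ht => ?_
    rw [Set.uIoc_of_le (by positivity)] at ht
    have hs : 0 < Real.sin t := Real.sin_pos_of_pos_of_lt_pi ht.1 (by
      linarith [ht.2, Real.pi_pos])
    rw [abs_of_pos (by positivity), Real.log_mul two_ne_zero hs.ne']
  have hi1 : IntervalIntegrable (fun x => Real.log (Real.sin x)) MeasureTheory.volume 0
      (Real.pi / 2) := intervalIntegrable_log_sin
  rw [e1, intervalIntegral.integral_add intervalIntegrable_const hi1,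
    integral_log_sin_zero_pi_div_two]
  simp
  ring

/-- keep this signature -/
theorem thm_Ph (h1 : St_G1) (h2 : St_GL) : St_Ph := by
  refine ⟨ph_deriv h1 h2, fun x h0 h3 => ?_⟩
  have hpi := Real.pi_pos
  have hf : ∀ x ∈ Set.Ioo (0 : ℝ) 1, HasDerivAt (fun x : ℝ => Ph x)
      ((Real.log (2 * Real.sin (Real.pi * x)) : ℝ) : ℂ) x := by
    intro x hx
    have a1 := (ph_deriv h1 h2 (x : ℂ) (by simpa using hx.1) (by simpa using hx.2)).comp_ofReal
    have hs : 0 < Real.sin (Real.pi * x) :=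
      Real.sin_pos_of_pos_of_lt_pi (mul_pos hpi hx.1) (by nlinarith [hx.2])
    have e : Complex.log (2 * Complex.sin (Real.pi * x)) =
        ((Real.log (2 * Real.sin (Real.pi * x)) : ℝ) : ℂ) := by
      rw [Complex.ofReal_log (by positivity)]
      push_cast
      rfl
    rwa [e] at a1
  have hg : ∀ x ∈ Set.Ioo (0 : ℝ) 1, HasDerivAt
      (fun x : ℝ => ((-(Lob (Real.pi * x) / Real.pi) : ℝ) : ℂ))
      ((Real.log (2 * Real.sin (Real.pi * x)) : ℝ) : ℂ) x := by
    intro x hx
    have a1 := PTH.hasDerivAt_Lob (x := Real.pi * x) (mul_pos hpi hx.1) (by nlinarith [hx.2])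
    have a2 : HasDerivAt (fun x : ℝ => Real.pi * x) Real.pi x := by
      simpa using (hasDerivAt_id x).const_mul Real.pi
    have a3 := ((HasDerivAt.comp (h₂ := Lob) x a1 a2).div_const Real.pi).neg
    have a4 : -(-Real.log (2 * Real.sin (Real.pi * x)) * Real.pi / Real.pi) =
        Real.log (2 * Real.sin (Real.pi * x)) := by field_simp
    rw [a4] at a3
    exact a3.ofReal_comp
  have hEq := isOpen_Ioo.eqOn_of_deriv_eq (isPreconnected_Ioo (a := (0 : ℝ)) (b := 1))
    (f := fun x : ℝ => Ph x) (g := fun x : ℝ => ((-(Lob (Real.pi * x) / Real.pi) : ℝ) : ℂ))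
    (fun z hz => (hf z hz).differentiableAt.differentiableWithinAt)
    (fun z hz => (hg z hz).differentiableAt.differentiableWithinAt)
    (fun z hz => by rw [(hf z hz).deriv, (hg z hz).deriv])
    (x := 1 / 2) ⟨by norm_num, by norm_num⟩ (by
      have e1 : Real.pi * (1 / 2) = Real.pi / 2 := by ring
      rw [e1, ph_Lob]
      have e2 : ((1 / 2 : ℝ) : ℂ) = 1 / 2 := by push_cast; ring
      rw [e2, ph_half h1]
      simp)
  exact hEq ⟨h0, h3⟩

end Pool.Agent.PAN
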