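import Mathlib
import Pool.Agent.PAN.Stmts
import Pool.Agent.PAN.Bd
import Pool.Agent.PAN.Rec

set_option autoImplicit false

/-!
# PAN / Star: star-triangle relation
-/

namespace Pool.Agent.PAN

open Finset Filter MeasureTheory

private lemma st_gN_ne (N : ℕ) (x : ℂ) : gN N x ≠ 0 := Complex.exp_ne_zero _

private lemma st_PP_ne (N : ℕ) (a b : Fin 3 → ℂ) : PP N a b ≠ 0 :=
  Finset.prod_ne_zero_iff.2 fun _ _ => Finset.prod_ne_zero_iff.2 fun _ _ => st_gN_ne _ _

/-- the quotient -/
private noncomputable def JJ (N : ℕ) (a b : Fin 3 → ℂ) : ℂ := II N a b / PP N a b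

/-- admissible parameters -/
private def Adm (N : ℕ) (a b : Fin 3 → ℂ) : Prop :=
  (∀ j, 0 < (a j).re) ∧ (∀ j, 0 < (b j).re) ∧ ∑ j, (a j + b j) = N + 1

private lemma st_swap (h4 : St_Sym) {N : ℕ} (hN : 1 ≤ N) (a b : Fin 3 → ℂ) :
    JJ N b a = JJ N a b := by
  obtain ⟨-, h, h', -⟩ := h4 N a b hN
  simp only [JJ, h, h']

private lemma st_perm (h4 : St_Sym) {N : ℕ} (hN : 1 ≤ N) (a b : Fin 3 → ℂ)
    (σ : Equiv.Perm (Fin 3)) : JJ N (a ∘ σ) b = JJ N a b := by
  obtain ⟨h, -⟩ := h4 N a b hN
  simp only [JJ, (h σ).1, (h σ).2]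

private lemma st_trans (h4 : St_Sym) {N : ℕ} (hN : 1 ≤ N) (a b : Fin 3 → ℂ) (h : Adm N a b)
    (c : ℂ) (h5 : ∀ j, 0 < (a j + c).re) (h6 : ∀ j, 0 < (b j - c).re) :
    JJ N (fun j => a j + c) (fun j => b j - c) = JJ N a b := by
  obtain ⟨-, -, -, h7⟩ := h4 N a b hN
  obtain ⟨h8, h9⟩ := h7 c h.1 h.2.1 h5 h6 h.2.2
  simp only [JJ, h8, h9]

private lemma st_tra (h3 : St_Tra) {N : ℕ} (hN : 1 ≤ N) (a b : Fin 3 → ℂ) (h : Adm N a b)
    (h5 : 1 < (a 0 + a 1).re) (t : ℂ) (h6 : 0 < (a 0 + t).re) (h7 : 0 < (a 1 - t).re) :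
    JJ N (![a 0 + t, a 1 - t, a 2]) b = JJ N a b := by
  have := h3 N a b t hN h.1 h.2.1 h.2.2 h5 h6 h7
  simp only [JJ]
  rw [div_eq_div_iff (st_PP_ne _ _ _) (st_PP_ne _ _ _)]
  exact this

private lemma st_tra2 (h3 : St_Tra) (h4 : St_Sym) {N : ℕ} (hN : 1 ≤ N) (a b : Fin 3 → ℂ)
    (h : Adm N a b) (h5 : 1 < (a 0 + a 2).re) (t : ℂ) (h6 : 0 < (a 0 + t).re)
    (h7 : 0 < (a 2 - t).re) :
    JJ N (![a 0 + t, a 1, a 2 - t]) b = JJ N a b := by
  have e1 : (![a 0 + t, a 1, a 2 - t]) ∘ (Equiv.swap (1 : Fin 3) 2) =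
      ![a 0 + t, a 2 - t, a 1] := by
    funext j
    fin_cases j
    · simp [Equiv.swap_apply_def]
    · simp
    · simp
  set a' : Fin 3 → ℂ := a ∘ (Equiv.swap (1 : Fin 3) 2) with ha'
  have f0 : a' 0 = a 0 := by simp [ha', Equiv.swap_apply_def]
  have f1 : a' 1 = a 2 := by simp [ha']
  have f2 : a' 2 = a 1 := by simp [ha']
  have hadm : Adm N a' b := by
    refine ⟨fun j => h.1 _, h.2.1, ?_⟩
    rw [← h.2.2, Finset.sum_add_distrib, Finset.sum_add_distrib]
    congr 1
    exact Equiv.sum_comp (Equiv.swap (1 : Fin 3) 2) a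
  rw [← st_perm h4 hN _ b (Equiv.swap (1 : Fin 3) 2), e1, ← f0, ← f1, ← f2]
  rw [st_tra h3 hN a' b hadm (by rw [f0, f1]; exact h5) t (by rw [f0]; exact h6)
    (by rw [f1]; exact h7)]
  exact st_perm h4 hN _ _ _

/-- make all `a j` equal -/
private lemma st_eq (h3 : St_Tra) (h4 : St_Sym) {N : ℕ} (hN : 1 ≤ N) (a b : Fin 3 → ℂ)
    (h : Adm N a b) (hbig : 3 < (∑ j, a j).re) :
    JJ N a b = JJ N (fun _ => (∑ j, a j) / 3) b := by
  obtain ⟨i, hi⟩ := Finite.exists_max fun j => (a j).re
  set a' : Fin 3 → ℂ := a ∘ (Equiv.swap (0 : Fin 3) i) with ha'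
  have f0 : a' 0 = a i := by simp [ha']
  have hmax : ∀ j, (a' j).re ≤ (a' 0).re := by
    intro j
    rw [f0]
    exact hi _
  have hsum : ∑ j, a' j = ∑ j, a j := Equiv.sum_comp (Equiv.swap (0 : Fin 3) i) a
  have hadm : Adm N a' b := by
    refine ⟨fun j => h.1 _, h.2.1, ?_⟩
    rw [← h.2.2, Finset.sum_add_distrib, Finset.sum_add_distrib, hsum]
  rw [← st_perm h4 hN a b (Equiv.swap (0 : Fin 3) i), ← hsum]
  rw [← hsum] at hbig
  change JJ N a' b = _
  clear_value a'
  clear ha' f0 hsum
  set B : ℂ := (∑ j, a' j) / 3 with hB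
  have hB3 : a' 0 + a' 1 + a' 2 = 3 * B := by
    rw [hB, Fin.sum_univ_three]
    ring
  have hBre : (a' 0).re + (a' 1).re + (a' 2).re = 3 * B.re := by
    have := congrArg Complex.re hB3
    simpa using this
  have hBbig : 1 < B.re := by
    rw [Fin.sum_univ_three, hB3] at hbig
    have : (3 * B).re = 3 * B.re := by simp
    rw [this] at hbig
    linarith
  have p0 := hadm.1 0
  have p1 := hadm.1 1
  have p2 := hadm.1 2
  have m1 := hmax 1
  have m2 := hmax 2
  -- first transfer
  have e1 : (![a' 0 + (2 * B - a' 2 - a' 0), a' 1 - (2 * B - a' 2 - a' 0), a' 2] : Fin 3 → ℂ) =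
      ![2 * B - a' 2, B, a' 2] := by
    have q1 : a' 0 + (2 * B - a' 2 - a' 0) = 2 * B - a' 2 := by ring
    have q2 : a' 1 - (2 * B - a' 2 - a' 0) = B := by linear_combination hB3
    rw [q1, q2]
  have s1 := st_tra h3 hN a' b hadm (by
      rw [Complex.add_re]
      linarith) (2 * B - a' 2 - a' 0) (by
      simp only [Complex.add_re, Complex.sub_re, Complex.mul_re, Complex.re_ofNat,
        Complex.im_ofNat, zero_mul, sub_zero]
      linarith) (by
      simp only [Complex.sub_re, Complex.mul_re, Complex.re_ofNat,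
        Complex.im_ofNat, zero_mul, sub_zero]
      linarith)
  rw [e1] at s1
  rw [← s1]
  -- second transfer
  have hadm2 : Adm N (![2 * B - a' 2, B, a' 2]) b := by
    refine ⟨fun j => ?_, h.2.1, ?_⟩
    · fin_cases j
      · simp only [Fin.zero_eta, Matrix.cons_val_zero, Complex.sub_re, Complex.mul_re,
          Complex.re_ofNat, Complex.im_ofNat, zero_mul, sub_zero]
        linarith
      · simp only [Fin.mk_one, Matrix.cons_val_one, Matrix.cons_val_zero]
        linarith
      · simpa using p2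
    · rw [← hadm.2.2, Finset.sum_add_distrib, Finset.sum_add_distrib]
      congr 1
      rw [Fin.sum_univ_three, Fin.sum_univ_three, hB3]
      simp only [Matrix.cons_val_zero, Matrix.cons_val_one, Matrix.cons_val]
      ring
  have s2 := st_tra2 h3 h4 hN (![2 * B - a' 2, B, a' 2]) b hadm2 (by
      simp only [Matrix.cons_val_zero, Matrix.cons_val, Complex.add_re,
        Complex.sub_re, Complex.mul_re, Complex.re_ofNat, Complex.im_ofNat, zero_mul, sub_zero]
      linarith) (a' 2 - B) (by
      simp only [Matrix.cons_val_zero, Complex.add_re,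
        Complex.sub_re, Complex.mul_re, Complex.re_ofNat, Complex.im_ofNat, zero_mul, sub_zero]
      linarith) (by
      simp only [Matrix.cons_val, Complex.sub_re]
      linarith)
  rw [← s2]
  congr 1
  funext j
  fin_cases j
  · simp only [Fin.zero_eta, Matrix.cons_val_zero]
    ring
  · simp
  · simp

/-- keep this signature -/
theorem thm_Star (h1 : St_gN) (h2 : St_gB) (h3 : St_Tra) (h4 : St_Sym) : St_Star := by
  intro N hN6
  have hN : 1 ≤ N := by omega
  have hNR : (6 : ℝ) ≤ N := by exact_mod_cast hN6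
  -- the canonical point
  set K : ℂ := JJ N (fun _ => ((2 * N - 1) / 6 : ℂ)) (fun _ => (1 / 2 : ℂ)) with hK
  have step : ∀ a b : Fin 3 → ℂ, Adm N a b → 3 < (∑ j, b j).re → JJ N a b = K := by
    intro a b h hbig
    have hadm' : Adm N b a := by
      refine ⟨h.2.1, h.1, ?_⟩
      rw [← h.2.2]
      exact Finset.sum_congr rfl fun j _ => add_comm _ _
    rw [← st_swap h4 hN, st_eq h3 h4 hN b a hadm' hbig, st_swap h4 hN]
    set B : ℂ := (∑ j, b j) / 3 with hB
    have hB3 : ∑ j, b j = 3 * B := by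
      rw [hB]
      ring
    have hBbig : 1 < B.re := by
      rw [hB3] at hbig
      have : (3 * B).re = 3 * B.re := by simp
      rw [this] at hbig
      linarith
    have hadm2 : Adm N a (fun _ => B) := by
      refine ⟨h.1, fun _ => by linarith, ?_⟩
      rw [← h.2.2, Finset.sum_add_distrib, Finset.sum_add_distrib, hB3]
      simp
    have hhalf : ((1 / 2 : ℂ)).re = 1 / 2 := by norm_num
    have s1 := st_trans h4 hN a (fun _ => B) hadm2 (B - 1 / 2) (fun j => by
      have := h.1 j
      simp only [Complex.add_re, Complex.sub_re, hhalf]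
      linarith) (fun j => by
      rw [sub_sub_cancel, hhalf]
      norm_num)
    rw [← s1]
    have e1 : (fun _ : Fin 3 => B - (B - 1 / 2)) = fun _ => (1 / 2 : ℂ) := by
      funext _
      ring
    rw [e1]
    have hsum : ∑ j, (a j + (B - 1 / 2)) = N - 1 / 2 := by
      have := hadm2.2.2
      simp only [Fin.sum_univ_three] at this ⊢
      linear_combination this
    have hadm3 : Adm N (fun j => a j + (B - 1 / 2)) (fun _ => (1 / 2 : ℂ)) := by
      refine ⟨fun j => ?_, fun _ => by rw [hhalf]; norm_num, ?_⟩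
      · have := h.1 j
        simp only [Complex.add_re, Complex.sub_re, hhalf]
        linarith
      · rw [Finset.sum_add_distrib, hsum]
        simp
        ring
    rw [st_eq h3 h4 hN _ _ hadm3 ?_]
    · rw [hsum, hK]
      congr 1
      funext _
      ring
    · rw [hsum]
      simp only [Complex.sub_re, hhalf, Complex.natCast_re]
      linarith
  have all : ∀ a b : Fin 3 → ℂ, Adm N a b → JJ N a b = K := by
    intro a b h
    by_cases hb : 3 < (∑ j, b j).re
    · exact step a b h hb
    · have hadm' : Adm N b a := by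
        refine ⟨h.2.1, h.1, ?_⟩
        rw [← h.2.2]
        exact Finset.sum_congr rfl fun j _ => add_comm _ _
      have ha : 3 < (∑ j, a j).re := by
        have h5 := h.2.2
        rw [Finset.sum_add_distrib] at h5
        have h6 := congrArg Complex.re h5
        simp only [Complex.add_re, Complex.natCast_re, Complex.one_re] at h6
        linarith
      rw [← st_swap h4 hN]
      exact step b a hadm' ha
  -- the symmetric point
  set x : ℝ := (N + 1) / 6 with hx
  have hx0 : 0 < x := by positivity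
  have hx1 : x < N + 1 := by
    rw [hx]
    linarith
  have hadmx : Adm N (fun _ => (x : ℂ)) (fun _ => (x : ℂ)) := by
    refine ⟨fun _ => by simpa using hx0, fun _ => by simpa using hx0, ?_⟩
    simp only [Finset.sum_const, Finset.card_univ, Fintype.card_fin, nsmul_eq_mul, hx]
    push_cast
    ring
  obtain ⟨-, -, -, hconj, hreal⟩ := h1 N hN
  obtain ⟨r, hr, hr'⟩ := hreal (x + x) (by linarith) (by rw [hx]; linarith)
  have hPPx : PP N (fun _ => (x : ℂ)) (fun _ => (x : ℂ)) = ((r ^ 9 : ℝ) : ℂ) := by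
    have : gN N ((x : ℂ) + x) = r := by
      rw [← hr']
      push_cast
      rfl
    simp only [PP, this, Fin.prod_univ_three]
    push_cast
    ring
  have hIIx : II N (fun _ => (x : ℂ)) (fun _ => (x : ℂ)) =
      ((∫ y : ℝ, (Complex.normSq (gN N (x + y * Complex.I))) ^ 3 : ℝ) : ℂ) := by
    rw [← integral_complex_ofReal]
    simp only [II]
    refine integral_congr_ae (Eventually.of_forall fun y => ?_)
    have e2 : gN N ((x : ℂ) - y * Complex.I) =
        (starRingEnd ℂ) (gN N (x + y * Complex.I)) := by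
      rw [← hconj (x + y * Complex.I) (by simpa using hx0) (by simpa using hx1)]
      congr 1
      simp [sub_eq_add_neg]
    simp only [e2, Complex.mul_conj, Fin.prod_univ_three]
    push_cast
    ring
  have hint : Integrable fun y : ℝ => (Complex.normSq (gN N (x + y * Complex.I))) ^ 3 := by
    have k := rec_int h1 h2 hN (fun _ => (x : ℂ)) (fun _ => (x : ℂ))
      (fun _ => ⟨by simpa using hx0, by simpa using hx1⟩)
      (fun _ => ⟨by simpa using hx0, by simpa using hx1⟩) (by
        simp only [Complex.ofReal_re, Finset.sum_const, Finset.card_univ, Fintype.card_fin,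
          nsmul_eq_mul, hx]
        push_cast
        linarith)
    have k2 := k.re
    refine k2.congr (Eventually.of_forall fun y => ?_)
    have e2 : gN N ((x : ℂ) - y * Complex.I) =
        (starRingEnd ℂ) (gN N (x + y * Complex.I)) := by
      rw [← hconj (x + y * Complex.I) (by simpa using hx0) (by simpa using hx1)]
      congr 1
      simp [sub_eq_add_neg]
    simp only [e2, Complex.mul_conj, Finset.prod_const, Finset.card_univ, Fintype.card_fin]
    rw [← Complex.ofReal_pow]
    exact Complex.ofReal_re _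
  have hpos : 0 < ∫ y : ℝ, (Complex.normSq (gN N (x + y * Complex.I))) ^ 3 := by
    rw [integral_pos_iff_support_of_nonneg (fun y => pow_nonneg (Complex.normSq_nonneg _) 3) hint]
    have hsupp : Function.support (fun y : ℝ => (Complex.normSq (gN N (x + y * Complex.I))) ^ 3) =
        Set.univ := by
      ext y
      simp [st_gN_ne]
    rw [hsupp]
    simp
  refine ⟨(∫ y : ℝ, (Complex.normSq (gN N (x + y * Complex.I))) ^ 3) / r ^ 9,
    by positivity, fun a b ha hb hs => ?_⟩
  have k1 := all a b ⟨ha, hb, hs⟩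
  have k2 := all _ _ hadmx
  rw [← k2] at k1
  simp only [JJ] at k1
  rw [hPPx, hIIx] at k1
  have hP := st_PP_ne N a b
  rw [div_eq_iff hP] at k1
  rw [k1]
  push_cast
  ring

end Pool.Agent.PAN
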