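import Mathlib
import Pool.Agent.PAN.Stmts
import Pool.Agent.PAN.Bd

set_option autoImplicit false

/-!
# PAN / Sym: symmetries and translations
-/

namespace Pool.Agent.PAN

open Finset Filter MeasureTheory

private lemma sym_min (p q : Fin 3 → ℝ) (hp : ∀ j, 0 < p j) (hq : ∀ j, 0 < q j) :
    ∃ δ : ℝ, 0 < δ ∧ (∀ j, δ ≤ p j) ∧ ∀ j, δ ≤ q j := by
  refine ⟨min (min (p 0) (min (p 1) (p 2))) (min (q 0) (min (q 1) (q 2))),
    lt_min (lt_min (hp 0) (lt_min (hp 1) (hp 2))) (lt_min (hq 0) (lt_min (hq 1) (hq 2))),
    fun j => ?_, fun j => ?_⟩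
  · refine (min_le_left _ _).trans ?_
    fin_cases j
    · exact min_le_left _ _
    · exact (min_le_right _ _).trans (min_le_left _ _)
    · exact (min_le_right _ _).trans (min_le_right _ _)
  · refine (min_le_right _ _).trans ?_
    fin_cases j
    · exact min_le_left _ _
    · exact (min_le_right _ _).trans (min_le_left _ _)
    · exact (min_le_right _ _).trans (min_le_right _ _)

/-- moving the line -/
private lemma sym_move (h1 : St_gN) (h2 : St_gB) (h3 : St_CS) {N : ℕ} (hN : 1 ≤ N)
    (a b : Fin 3 → ℂ) (hs : ∑ j, (a j + b j) = N + 1) (A B : ℝ) (hAB : A ≤ B)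
    (ha : ∀ j, 0 < (a j).re + A) (hb : ∀ j, 0 < (b j).re - B) :
    ∫ y : ℝ, ∏ j, (gN N (a j + ((A : ℂ) + y * Complex.I)) *
      gN N (b j - ((A : ℂ) + y * Complex.I))) =
    ∫ y : ℝ, ∏ j, (gN N (a j + ((B : ℂ) + y * Complex.I)) *
      gN N (b j - ((B : ℂ) + y * Complex.I))) := by
  have hNR : (0 : ℝ) < N := by exact_mod_cast hN
  have hpi := Real.pi_pos
  have hre : ∑ j, ((a j).re + (b j).re) = N + 1 := by
    have := congrArg Complex.re hs
    simpa [Complex.re_sum] using this
  obtain ⟨hd, -⟩ := h1 N hN
  obtain ⟨δ, hδ, hδa, hδb⟩ := sym_min _ _ ha hb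
  have hs3 := hre
  simp only [Fin.sum_univ_three] at hs3
  have hla : ∀ j, (a j).re + B ≤ N + 1 - δ := by
    intro j
    have k0 := hδa 0
    have k1 := hδa 1
    have k2 := hδa 2
    have l0 := hδb 0
    have l1 := hδb 1
    have l2 := hδb 2
    fin_cases j <;> simp only [Fin.zero_eta, Fin.mk_one, Fin.reduceFinMk] <;> linarith
  have hlb : ∀ j, (b j).re - A ≤ N + 1 - δ := by
    intro j
    have k0 := hδa 0
    have k1 := hδa 1
    have k2 := hδa 2
    have l0 := hδb 0
    have l1 := hδb 1
    have l2 := hδb 2
    fin_cases j <;> simp only [Fin.zero_eta, Fin.mk_one, Fin.reduceFinMk] <;> linarith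
  have hM : ∃ M : ℝ, (∀ j, |(a j).im| ≤ M) ∧ ∀ j, |(b j).im| ≤ M := by
    refine ⟨∑ j, (|(a j).im| + |(b j).im|), fun j => ?_, fun j => ?_⟩
    · refine le_trans ?_ (Finset.single_le_sum (f := fun j => |(a j).im| + |(b j).im|)
        (fun i _ => by positivity) (mem_univ j))
      simp
    · refine le_trans ?_ (Finset.single_le_sum (f := fun j => |(a j).im| + |(b j).im|)
        (fun i _ => by positivity) (mem_univ j))
      simp
  obtain ⟨M, hM1, hM2⟩ := hM
  obtain ⟨C, hC, hbd⟩ := bd_prod h2 hN hδ M
  refine h3 A B ((Real.pi / N) * (2 * (N + 1))) C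
    (fun z => ∏ j, (gN N (a j + z) * gN N (b j - z))) hAB (by positivity)
    fun z hz0 hz1 => ⟨?_, ?_⟩
  · refine DifferentiableAt.fun_finsetProd (u := univ) fun j _ => ?_
    have k1 := ha j
    have k2 := hla j
    have k3 := hb j
    have k4 := hlb j
    refine DifferentiableAt.mul ?_ ?_
    · refine DifferentiableAt.comp (g := gN N) (f := fun z => a j + z) z ?_ (by fun_prop)
      refine hd _ ?_ ?_
      · simp only [Complex.add_re]
        linarith
      · simp only [Complex.add_re]
        linarith
    · refine DifferentiableAt.comp (g := gN N) (f := fun z => b j - z) z ?_ (by fun_prop)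
      refine hd _ ?_ ?_
      · simp only [Complex.sub_re]
        linarith
      · simp only [Complex.sub_re]
        linarith
  · have k := hbd (fun j => a j + (z.re : ℂ)) (fun j => b j - (z.re : ℂ))
      (fun j => ⟨?_, ?_, ?_⟩) (fun j => ⟨?_, ?_, ?_⟩) z.im
    · have e1 : ∀ j, gN N (a j + (z.re : ℂ) + z.im * Complex.I) *
          gN N (b j - (z.re : ℂ) - z.im * Complex.I) = gN N (a j + z) * gN N (b j - z) := by
        intro j
        have e2 : a j + (z.re : ℂ) + z.im * Complex.I = a j + z := by
          rw [add_assoc, Complex.re_add_im]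
        have e3 : b j - (z.re : ℂ) - z.im * Complex.I = b j - z := by
          rw [sub_sub, Complex.re_add_im]
        rw [e2, e3]
      simp only [e1] at k
      refine k.trans (le_of_eq ?_)
      congr 2
      simp only [Complex.add_re, Complex.sub_re, Complex.ofReal_re]
      have e4 : ∑ j, ((a j).re + z.re + ((b j).re - z.re)) = N + 1 := by
        rw [← hre]
        simp only [Fin.sum_univ_three]
        ring
      rw [e4]
      field_simp
      ring
    · simp only [Complex.add_re, Complex.ofReal_re]
      have := hδa j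
      linarith
    · simp only [Complex.add_re, Complex.ofReal_re]
      have := hla j
      linarith
    · simp only [Complex.add_im, Complex.ofReal_im, add_zero]
      exact hM1 j
    · simp only [Complex.sub_re, Complex.ofReal_re]
      have := hδb j
      linarith
    · simp only [Complex.sub_re, Complex.ofReal_re]
      have := hlb j
      linarith
    · simp only [Complex.sub_im, Complex.ofReal_im, sub_zero]
      exact hM2 j

/-- keep this signature -/
theorem thm_Sym (h1 : St_gN) (h2 : St_gB) (h3 : St_CS) : St_Sym := by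
  intro N a b hN
  refine ⟨fun σ => ⟨?_, ?_⟩, ?_, ?_, fun c ha hb hac hbc hs => ⟨?_, ?_⟩⟩
  · simp only [II]
    refine integral_congr_ae (Eventually.of_forall fun y => ?_)
    simp only [Function.comp]
    rw [Finset.prod_mul_distrib, Finset.prod_mul_distrib]
    rw [Equiv.prod_comp σ fun j => gN N (a j + y * Complex.I)]
  · simp only [PP, Function.comp]
    rw [Equiv.prod_comp σ fun j => ∏ k, gN N (a j + b k)]
  · simp only [II]
    rw [← integral_neg_eq_self]
    refine integral_congr_ae (Eventually.of_forall fun y => ?_)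
    refine Finset.prod_congr rfl fun j _ => ?_
    rw [mul_comm]
    congr 2
    · push_cast
      ring
    · push_cast
      ring
  · simp only [PP]
    rw [Finset.prod_comm]
    refine Finset.prod_congr rfl fun j _ => Finset.prod_congr rfl fun k _ => ?_
    rw [add_comm]
  · have e1 : ∀ (r t : ℝ), c = (r : ℂ) + t * Complex.I →
        II N (fun j => a j + c) (fun j => b j - c) =
          ∫ y : ℝ, ∏ j, (gN N (a j + ((r : ℂ) + y * Complex.I)) *
            gN N (b j - ((r : ℂ) + y * Complex.I))) := by
      intro r t hc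
      rw [← integral_add_right_eq_self _ t]
      simp only [II]
      refine integral_congr_ae (Eventually.of_forall fun y => ?_)
      refine Finset.prod_congr rfl fun j _ => ?_
      rw [hc]
      congr 2
      · push_cast
        ring
      · push_cast
        ring
    rw [e1 c.re c.im (Complex.re_add_im c).symm]
    have e2 : II N a b = ∫ y : ℝ, ∏ j, (gN N (a j + (((0 : ℝ) : ℂ) + y * Complex.I)) *
            gN N (b j - (((0 : ℝ) : ℂ) + y * Complex.I))) := by
      simp only [II, Complex.ofReal_zero, zero_add]
    rw [e2]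
    rcases le_total 0 c.re with hc | hc
    · refine (sym_move h1 h2 h3 hN a b hs 0 c.re hc (fun j => ?_) (fun j => ?_)).symm
      · simpa using ha j
      · simpa using hbc j
    · refine sym_move h1 h2 h3 hN a b hs c.re 0 hc (fun j => ?_) (fun j => ?_)
      · simpa using hac j
      · simpa using hb j
  · simp only [PP]
    refine Finset.prod_congr rfl fun j _ => Finset.prod_congr rfl fun k _ => ?_
    congr 1
    ring

end Pool.Agent.PAN
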