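import Mathlib
import Pool.Agent.PAN.Stmts

set_option autoImplicit false

/-!
# PAN / TR: trigonometric identity
-/

namespace Pool.Agent.PAN

open Finset Filter

private lemma tr_sin (w : ℂ) : Complex.sin w =
    ((Complex.exp (w * Complex.I))⁻¹ - Complex.exp (w * Complex.I)) * Complex.I / 2 := by
  rw [Complex.sin, ← Complex.exp_neg, neg_mul]

private lemma tr_alg (X Y Z P Q : ℂ) (hX : X ≠ 0) (hY : Y ≠ 0) (hZ : Z ≠ 0) (hP : P ≠ 0)
    (hQ : Q ≠ 0) :
    ((X * Y⁻¹)⁻¹ - X * Y⁻¹) * ((X⁻¹ - X) * (Y⁻¹ - Y) * (Z⁻¹ - Z) -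
      (P⁻¹ - P) * (Q⁻¹ - Q) * ((X * Y * Z * P * Q)⁻¹ - X * Y * Z * P * Q)) =
    (Y⁻¹ - Y) * (((X * P)⁻¹ - X * P) * ((X * Q)⁻¹ - X * Q) *
      ((Y * Z * P * Q)⁻¹ - Y * Z * P * Q)) -
    (X⁻¹ - X) * (((Y * P)⁻¹ - Y * P) * ((Y * Q)⁻¹ - Y * Q) *
      ((X * Z * P * Q)⁻¹ - X * Z * P * Q)) := by
  field_simp
  ring

private lemma tr_five (X Y Z P Q : ℂ) :
    Complex.sin (X - Y) * (Complex.sin X * Complex.sin Y * Complex.sin Z -
      Complex.sin P * Complex.sin Q * Complex.sin (X + Y + Z + P + Q)) =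
    Complex.sin Y * (Complex.sin (X + P) * Complex.sin (X + Q) * Complex.sin (Y + Z + P + Q)) -
    Complex.sin X * (Complex.sin (Y + P) * Complex.sin (Y + Q) * Complex.sin (X + Z + P + Q)) := by
  have e : ∀ u v : ℂ, Complex.exp ((u + v) * Complex.I) =
      Complex.exp (u * Complex.I) * Complex.exp (v * Complex.I) := fun u v => by
    rw [add_mul, Complex.exp_add]
  have e' : ∀ u v : ℂ, Complex.exp ((u - v) * Complex.I) =
      Complex.exp (u * Complex.I) * (Complex.exp (v * Complex.I))⁻¹ := fun u v => by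
    rw [sub_mul, Complex.exp_sub, div_eq_mul_inv]
  simp only [tr_sin, e, e']
  have h := tr_alg (Complex.exp (X * Complex.I)) (Complex.exp (Y * Complex.I))
    (Complex.exp (Z * Complex.I)) (Complex.exp (P * Complex.I)) (Complex.exp (Q * Complex.I))
    (Complex.exp_ne_zero _) (Complex.exp_ne_zero _) (Complex.exp_ne_zero _)
    (Complex.exp_ne_zero _) (Complex.exp_ne_zero _)
  generalize Complex.exp (X * Complex.I) = x at *
  generalize Complex.exp (Y * Complex.I) = y at *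
  generalize Complex.exp (Z * Complex.I) = z at *
  generalize Complex.exp (P * Complex.I) = p at *
  generalize Complex.exp (Q * Complex.I) = q at *
  linear_combination (Complex.I / 2) ^ 4 * h

/-- keep this signature -/
theorem thm_TR : St_TR := by
  intro a b s hab
  simp only [Fin.sum_univ_three, Fin.prod_univ_three] at hab ⊢
  have hb : b 2 = Real.pi - (a 0 + a 1 + a 2 + b 0 + b 1) := by linear_combination hab
  have h := tr_five (a 0 + s) (a 1 + s) (a 2 + s) (b 0 - s) (b 1 - s)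
  have e1 : Complex.sin (b 2 - s) =
      Complex.sin (a 0 + s + (a 1 + s) + (a 2 + s) + (b 0 - s) + (b 1 - s)) := by
    rw [hb, ← Complex.sin_pi_sub]
    congr 1
    ring
  have e2 : Complex.sin (a 0 + b 2) = Complex.sin (a 1 + s + (a 2 + s) + (b 0 - s) + (b 1 - s)) := by
    rw [hb, ← Complex.sin_pi_sub]
    congr 1
    ring
  have e3 : Complex.sin (a 1 + b 2) = Complex.sin (a 0 + s + (a 2 + s) + (b 0 - s) + (b 1 - s)) := by
    rw [hb, ← Complex.sin_pi_sub]
    congr 1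
    ring
  rw [e1, e2, e3]
  have e4 : a 0 + s - (a 1 + s) = a 0 - a 1 := by ring
  have e5 : a 0 + s + (b 0 - s) = a 0 + b 0 := by ring
  have e6 : a 0 + s + (b 1 - s) = a 0 + b 1 := by ring
  have e7 : a 1 + s + (b 0 - s) = a 1 + b 0 := by ring
  have e8 : a 1 + s + (b 1 - s) = a 1 + b 1 := by ring
  rw [e4, e5, e6, e7, e8] at h
  exact h

end Pool.Agent.PAN
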