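import Mathlib

set_option autoImplicit false

/-!
# PAN / Hol: integrals of holomorphic functions of a parameter (auxiliary file)
-/

namespace Pool.Agent.PAN

open Filter MeasureTheory Metric

/-- an integral depending holomorphically on a parameter -/
lemma hol_int {α : Type} [MeasurableSpace α] (μ : Measure α) (F : ℂ → α → ℂ) (t₀ : ℂ) (r : ℝ)
    (hr : 0 < r) (B : α → ℝ) (hB : Integrable B μ)
    (hm : ∀ t ∈ ball t₀ r, AEStronglyMeasurable (F t) μ)
    (hd : ∀ y, ∀ t ∈ ball t₀ r, DifferentiableAt ℂ (fun t => F t y) t)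
    (hb : ∀ t ∈ ball t₀ r, ∀ y, ‖F t y‖ ≤ B y) :
    DifferentiableAt ℂ (fun t => ∫ y, F t y ∂μ) t₀ := by
  have h0 : t₀ ∈ ball t₀ r := mem_ball_self hr
  have hder : ∀ t ∈ ball t₀ (r / 2), ∀ y, ‖deriv (fun t => F t y) t‖ ≤ B y / (r / 4) := by
    intro t ht y
    have hsub : closedBall t (r / 4) ⊆ ball t₀ r := by
      intro s hs
      rw [mem_closedBall] at hs
      rw [mem_ball] at ht ⊢
      calc dist s t₀ ≤ dist s t + dist t t₀ := dist_triangle _ _ _
        _ < r := by linarith
    refine Complex.norm_deriv_le_of_forall_mem_sphere_norm_le (by positivity) ?_ fun z hz => ?_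
    · refine DifferentiableOn.diffContOnCl fun z hz => ?_
      exact (hd y z (hsub (closure_ball_subset_closedBall hz))).differentiableWithinAt
    · exact hb z (hsub (sphere_subset_closedBall hz)) y
  have hmeas : AEStronglyMeasurable (fun y => deriv (fun t => F t y) t₀) μ := by
    have hseq : Tendsto (fun n : ℕ => ((r / (2 * (n + 1)) : ℝ) : ℂ)) atTop (nhds 0) := by
      rw [← Complex.ofReal_zero]
      refine (Complex.continuous_ofReal.tendsto 0).comp ?_
      have h1 : Tendsto (fun n : ℕ => (r / 2) * (1 / ((n : ℝ) + 1))) atTop (nhds ((r / 2) * 0)) :=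
        tendsto_one_div_add_atTop_nhds_zero_nat.const_mul _
      rw [mul_zero] at h1
      refine h1.congr fun n => ?_
      field_simp
    have hne : ∀ n : ℕ, ((r / (2 * (n + 1)) : ℝ) : ℂ) ≠ 0 := by
      intro n
      have : (r / (2 * (n + 1)) : ℝ) ≠ 0 := by positivity
      exact_mod_cast this
    have hin : ∀ n : ℕ, t₀ + ((r / (2 * (n + 1)) : ℝ) : ℂ) ∈ ball t₀ r := by
      intro n
      rw [mem_ball, dist_self_add_left, Complex.norm_real, Real.norm_eq_abs,
        abs_of_pos (by positivity)]
      rw [div_lt_iff₀ (by positivity)]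
      have : (0 : ℝ) ≤ n := Nat.cast_nonneg n
      nlinarith
    refine aestronglyMeasurable_of_tendsto_ae atTop
      (f := fun (n : ℕ) y => (((r / (2 * (n + 1)) : ℝ) : ℂ))⁻¹ •
        (F (t₀ + ((r / (2 * (n + 1)) : ℝ) : ℂ)) y - F t₀ y)) (fun n => ?_) ?_
    · exact ((hm _ (hin n)).sub (hm _ h0)).const_smul ((((r / (2 * (n + 1)) : ℝ) : ℂ))⁻¹)
    · refine Eventually.of_forall fun y => ?_
      have hd0 := (hd y t₀ h0).hasDerivAt
      rw [hasDerivAt_iff_tendsto_slope_zero] at hd0
      refine hd0.comp ?_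
      rw [tendsto_nhdsWithin_iff]
      exact ⟨hseq, Eventually.of_forall fun n => hne n⟩
  refine (hasDerivAt_integral_of_dominated_loc_of_deriv_le (μ := μ) (x₀ := t₀) (F := F)
    (F' := fun t y => deriv (fun t => F t y) t)
    (bound := fun y => B y / (r / 4)) (ball_mem_nhds t₀ (by positivity : 0 < r / 2)) ?_ ?_ hmeas
    (Eventually.of_forall fun y t ht => hder t ht y) (hB.div_const _)
    (Eventually.of_forall fun y t ht => ?_)).2.differentiableAt
  · exact Filter.eventually_of_mem (ball_mem_nhds t₀ hr) fun t ht => hm t ht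
  · exact Integrable.mono' hB (hm _ h0) (Eventually.of_forall fun y => hb _ h0 y)
  · exact (hd y t (ball_subset_ball (by linarith) ht)).hasDerivAt

end Pool.Agent.PAN
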