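import Mathlib
import Pool.Agent.PAN.Stmts
import Pool.Agent.PAN.Bd
import Pool.Agent.PAN.Hol

set_option autoImplicit false

/-!
# PAN / Tra1: transfer, analytic part
-/

namespace Pool.Agent.PAN

open Finset Filter MeasureTheory Metric

lemma tra_min (p : Fin 3 → ℝ) (hp : ∀ j, 0 < p j) : ∃ δ : ℝ, 0 < δ ∧ ∀ j, δ ≤ p j := by
  refine ⟨min (p 0) (min (p 1) (p 2)), lt_min (hp 0) (lt_min (hp 1) (hp 2)), fun j => ?_⟩
  fin_cases j
  · exact min_le_left _ _
  · exact (min_le_right _ _).trans (min_le_left _ _)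
  · exact (min_le_right _ _).trans (min_le_right _ _)

/-- the integrand -/
noncomputable def traF (N : ℕ) (a b : Fin 3 → ℂ) (t : ℂ) (y : ℝ) : ℂ :=
  ∏ j, (gN N ((![a 0 + t, a 1 - t, a 2] : Fin 3 → ℂ) j + y * Complex.I) *
    gN N (b j - y * Complex.I))

/-- the bound -/
lemma traF_bd (h2 : St_gB) {N : ℕ} (hN : 1 ≤ N) (a b : Fin 3 → ℂ)
    (ha : ∀ j, 0 < (a j).re) (hb : ∀ j, 0 < (b j).re) (hs : ∑ j, (a j + b j) = N + 1)
    (x₀ x₁ : ℝ) (hx₀ : -(a 0).re < x₀) (hx₁ : x₁ < (a 1).re) :
    ∃ C : ℝ, 0 < C ∧ ∀ t : ℂ, x₀ ≤ t.re → t.re ≤ x₁ → ∀ y : ℝ, ‖traF N a b t y‖ ≤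
      C * Real.exp (-(Real.pi / N) * (N + 1 - (a 0).re - (a 1).re) * |t.im|) *
        Real.exp (-((Real.pi / N) * (N + 1)) * |y|) := by
  have hNR : (0 : ℝ) < N := by exact_mod_cast hN
  have hpi := Real.pi_pos
  have hre : (a 0).re + (b 0).re + ((a 1).re + (b 1).re) + ((a 2).re + (b 2).re) = N + 1 := by
    have := congrArg Complex.re hs
    simpa [Fin.sum_univ_three] using this
  have a0 := ha 0
  have a1 := ha 1
  have a2 := ha 2
  have b0 := hb 0
  have b1 := hb 1
  have b2 := hb 2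
  obtain ⟨δ₁, hδ₁, hδ₁'⟩ := tra_min (fun j => (b j).re) hb
  obtain ⟨δ₂, hδ₂, hδ₂'⟩ := tra_min ![(a 0).re + x₀, (a 1).re - x₁, (a 2).re] (by
    intro j
    fin_cases j
    · simp only [Fin.zero_eta, Matrix.cons_val_zero]
      linarith
    · simp only [Fin.mk_one, Matrix.cons_val_one, Matrix.cons_val_zero]
      linarith
    · simpa using a2)
  have m0 := hδ₂' 0
  have m1 := hδ₂' 1
  have m2 := hδ₂' 2
  have n0 := hδ₁' 0
  have n1 := hδ₁' 1
  have n2 := hδ₁' 2
  simp only [Matrix.cons_val_zero, Matrix.cons_val_one, Matrix.cons_val] at m0 m1 m2 n0 n1 n2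
  set δ : ℝ := min δ₁ δ₂ with hδdef
  have hδ : 0 < δ := lt_min hδ₁ hδ₂
  have l1 : δ ≤ δ₁ := min_le_left _ _
  have l2 : δ ≤ δ₂ := min_le_right _ _
  set M : ℝ := |(a 0).im| + |(a 1).im| + |(a 2).im| + (|(b 0).im| + |(b 1).im| + |(b 2).im|)
    with hM
  have z0 := abs_nonneg (a 0).im
  have z1 := abs_nonneg (a 1).im
  have z2 := abs_nonneg (a 2).im
  have w0 := abs_nonneg (b 0).im
  have w1 := abs_nonneg (b 1).im
  have w2 := abs_nonneg (b 2).im
  obtain ⟨C, hC, hone⟩ := bd_one h2 hN hδ M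
  refine ⟨C ^ 6, by positivity, fun t ht0 ht1 y => ?_⟩
  set x : ℝ := t.re with hx
  set τ : ℝ := t.im with hτ
  have ht : t = (x : ℂ) + τ * Complex.I := (Complex.re_add_im t).symm
  -- the six factors
  have k0 := (hone (a 0 + x) (by simp only [Complex.add_re, Complex.ofReal_re]; linarith)
    (by simp only [Complex.add_re, Complex.ofReal_re]; linarith)
    (by simp only [Complex.add_im, Complex.ofReal_im, add_zero]; linarith) (y + τ)).1
  have k1 := (hone (a 1 - x) (by simp only [Complex.sub_re, Complex.ofReal_re]; linarith)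
    (by simp only [Complex.sub_re, Complex.ofReal_re]; linarith)
    (by simp only [Complex.sub_im, Complex.ofReal_im, sub_zero]; linarith) (y - τ)).1
  have k2 := (hone (a 2) (by linarith) (by linarith) (by linarith) y).1
  have k3 := (hone (b 0) (by linarith) (by linarith) (by linarith) y).2.1
  have k4 := (hone (b 1) (by linarith) (by linarith) (by linarith) y).2.1
  have k5 := (hone (b 2) (by linarith) (by linarith) (by linarith) y).2.1
  have e0 : a 0 + t + y * Complex.I = a 0 + x + ((y + τ : ℝ) : ℂ) * Complex.I := by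
    rw [ht]
    push_cast
    ring
  have e1 : a 1 - t + y * Complex.I = a 1 - x + ((y - τ : ℝ) : ℂ) * Complex.I := by
    rw [ht]
    push_cast
    ring
  simp only [traF, Fin.prod_univ_three, Matrix.cons_val_zero, Matrix.cons_val_one,
    Matrix.cons_val]
  rw [e0, e1]
  simp only [norm_mul]
  have prod6 : ∀ p0 p1 p2 p3 p4 p5 q0 q1 q2 q3 q4 q5 : ℝ, 0 ≤ p0 → 0 ≤ p1 → 0 ≤ p2 → 0 ≤ p3 →
      0 ≤ p4 → 0 ≤ p5 → p0 ≤ q0 → p1 ≤ q1 → p2 ≤ q2 → p3 ≤ q3 → p4 ≤ q4 → p5 ≤ q5 →
      p0 * p3 * (p1 * p4) * (p2 * p5) ≤ q0 * q3 * (q1 * q4) * (q2 * q5) := by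
    intro p0 p1 p2 p3 p4 p5 q0 q1 q2 q3 q4 q5 hp0 hp1 hp2 hp3 hp4 hp5 h0 h1 h2 h3 h4 h5
    have u0 := hp0.trans h0
    have u1 := hp1.trans h1
    have u2 := hp2.trans h2
    have u3 := hp3.trans h3
    have u4 := hp4.trans h4
    have u5 := hp5.trans h5
    gcongr
  refine (prod6 _ _ _ _ _ _ _ _ _ _ _ _ (norm_nonneg _) (norm_nonneg _) (norm_nonneg _)
    (norm_nonneg _) (norm_nonneg _) (norm_nonneg _) k0 k1 k2 k3 k4 k5).trans ?_
  have e6 : ∀ E0 E1 E2 E3 E4 E5 : ℝ, C * Real.exp E0 * (C * Real.exp E3) *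
      (C * Real.exp E1 * (C * Real.exp E4)) * (C * Real.exp E2 * (C * Real.exp E5)) =
      C ^ 6 * Real.exp (E0 + E1 + E2 + E3 + E4 + E5) := by
    intro E0 E1 E2 E3 E4 E5
    simp only [Real.exp_add]
    ring
  rw [e6, mul_assoc (C ^ 6), ← Real.exp_add]
  refine mul_le_mul_of_nonneg_left (Real.exp_le_exp.2 ?_) (by positivity)
  simp only [Complex.add_re, Complex.sub_re, Complex.ofReal_re]
  -- the inequality
  set A0 : ℝ := (a 0).re + x with hA0
  set A1 : ℝ := (a 1).re - x with hA1
  have hA0' : 0 < A0 := by linarith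
  have hA1' : 0 < A1 := by linarith
  set u : ℝ := |y + τ| with hu
  set v : ℝ := |y - τ| with hv
  have i1 : u ≤ |y| + |τ| := abs_add_le y τ
  have i2 : v ≤ |y| + |τ| := abs_sub y τ
  have i3 : 2 * |τ| ≤ u + v := by
    have e7 : 2 * |τ| = |(y + τ) - (y - τ)| := by
      rw [show (y + τ) - (y - τ) = 2 * τ by ring, abs_mul, abs_two]
    rw [e7]
    exact abs_sub _ _
  have hbr : ((N : ℝ) + 1 - (a 0).re - (a 1).re) * |τ| + (N + 1) * |y| ≤
      (((N : ℝ) + 1) / 2 - A0) * u + ((N + 1) / 2 - A1) * v + ((N + 1) / 2 - (a 2).re) * |y| +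
      ((N + 1) / 2 - (b 0).re) * |y| + ((N + 1) / 2 - (b 1).re) * |y| +
      ((N + 1) / 2 - (b 2).re) * |y| := by
    have e8 : (((N : ℝ) + 1) / 2 - A0) * u + ((N + 1) / 2 - A1) * v +
      ((N + 1) / 2 - (a 2).re) * |y| +
      ((N + 1) / 2 - (b 0).re) * |y| + ((N + 1) / 2 - (b 1).re) * |y| +
      ((N + 1) / 2 - (b 2).re) * |y| - (((N : ℝ) + 1 - (a 0).re - (a 1).re) * |τ| +
        (N + 1) * |y|) = (N + 1) / 2 * (u + v - 2 * |τ|) + A0 * (|y| + |τ| - u) +
          A1 * (|y| + |τ| - v) := by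
      rw [hA0, hA1]
      linear_combination (-|y|) * hre
    have i4 : 0 ≤ ((N : ℝ) + 1) / 2 * (u + v - 2 * |τ|) :=
      mul_nonneg (by positivity) (by linarith)
    have i5 : 0 ≤ A0 * (|y| + |τ| - u) := mul_nonneg hA0'.le (by linarith)
    have i6 : 0 ≤ A1 * (|y| + |τ| - v) := mul_nonneg hA1'.le (by linarith)
    linarith
  have hfin := mul_le_mul_of_nonneg_left hbr (by positivity : 0 ≤ Real.pi / N)
  linear_combination hfin

/-- continuity of the integrand -/
lemma traF_cont (h1 : St_gN) {N : ℕ} (hN : 1 ≤ N) (a b : Fin 3 → ℂ)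
    (ha : ∀ j, 0 < (a j).re) (hb : ∀ j, 0 < (b j).re) (hs : ∑ j, (a j + b j) = N + 1)
    (t : ℂ) (h0 : 0 < (a 0 + t).re) (h3 : 0 < (a 1 - t).re) :
    Continuous (traF N a b t) ∧ ∀ y : ℝ, DifferentiableAt ℂ (fun s => traF N a b s y) t := by
  obtain ⟨hd, -⟩ := h1 N hN
  have hre : (a 0).re + (b 0).re + ((a 1).re + (b 1).re) + ((a 2).re + (b 2).re) = N + 1 := by
    have := congrArg Complex.re hs
    simpa [Fin.sum_univ_three] using this
  have a2 := ha 2
  have b0 := hb 0
  have b1 := hb 1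
  have b2 := hb 2
  have h0' := h0
  have h3' := h3
  simp only [Complex.add_re, Complex.sub_re] at h0' h3'
  constructor
  · refine bd_cont h1 hN _ b (fun j => ?_) (fun j => ⟨hb j, ?_⟩)
    · fin_cases j
      · simp only [Fin.zero_eta, Matrix.cons_val_zero, Complex.add_re]
        constructor <;> linarith
      · simp only [Fin.mk_one, Matrix.cons_val_one, Matrix.cons_val_zero, Complex.sub_re]
        constructor <;> linarith
      · simp only [Fin.reduceFinMk, Matrix.cons_val]
        constructor <;> linarith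
    · fin_cases j <;> simp only [Fin.zero_eta, Fin.mk_one, Fin.reduceFinMk] <;> linarith
  · intro y
    simp only [traF, Fin.prod_univ_three, Matrix.cons_val_zero, Matrix.cons_val_one,
      Matrix.cons_val]
    have d0 : DifferentiableAt ℂ (fun s => gN N (a 0 + s + y * Complex.I)) t := by
      refine DifferentiableAt.comp (g := gN N) (f := fun s => a 0 + s + y * Complex.I) t ?_
        (by fun_prop)
      refine hd _ ?_ ?_
      · simp only [Complex.add_re, Complex.mul_re, Complex.ofReal_re, Complex.I_re, mul_zero,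
          Complex.ofReal_im, Complex.I_im, mul_one, sub_self, add_zero]
        linarith
      · simp only [Complex.add_re, Complex.mul_re, Complex.ofReal_re, Complex.I_re, mul_zero,
          Complex.ofReal_im, Complex.I_im, mul_one, sub_self, add_zero]
        linarith
    have d1 : DifferentiableAt ℂ (fun s => gN N (a 1 - s + y * Complex.I)) t := by
      refine DifferentiableAt.comp (g := gN N) (f := fun s => a 1 - s + y * Complex.I) t ?_
        (by fun_prop)
      refine hd _ ?_ ?_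
      · simp only [Complex.add_re, Complex.sub_re, Complex.mul_re, Complex.ofReal_re,
          Complex.I_re, mul_zero, Complex.ofReal_im, Complex.I_im, mul_one, sub_self, add_zero]
        linarith
      · simp only [Complex.add_re, Complex.sub_re, Complex.mul_re, Complex.ofReal_re,
          Complex.I_re, mul_zero, Complex.ofReal_im, Complex.I_im, mul_one, sub_self, add_zero]
        linarith
    exact ((d0.mul_const _).mul (d1.mul_const _)).mul_const _

/-- keep this signature -/
theorem thm_Tra1 (h1 : St_gN) (h2 : St_gB) : St_Tra1 := by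
  intro N a b hN ha hb hs
  have hNR : (0 : ℝ) < N := by exact_mod_cast hN
  have hpi := Real.pi_pos
  have hc : 0 < (Real.pi / N) * ((N : ℝ) + 1) := by positivity
  have hre : (a 0).re + (b 0).re + ((a 1).re + (b 1).re) + ((a 2).re + (b 2).re) = N + 1 := by
    have := congrArg Complex.re hs
    simpa [Fin.sum_univ_three] using this
  constructor
  · intro t h0 h3
    have h0' := h0
    have h3' := h3
    simp only [Complex.add_re, Complex.sub_re] at h0' h3'
    set r : ℝ := min ((a 0).re + t.re) ((a 1).re - t.re) / 2 with hr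
    have hr0 : 0 < r := by
      have : 0 < min ((a 0).re + t.re) ((a 1).re - t.re) := lt_min h0' h3'
      positivity
    have r1 : 2 * r ≤ (a 0).re + t.re := by
      rw [hr]
      linarith [min_le_left ((a 0).re + t.re) ((a 1).re - t.re)]
    have r2 : 2 * r ≤ (a 1).re - t.re := by
      rw [hr]
      linarith [min_le_right ((a 0).re + t.re) ((a 1).re - t.re)]
    obtain ⟨C, hC, hbd⟩ := traF_bd h2 hN a b ha hb hs (t.re - r) (t.re + r) (by linarith)
      (by linarith)
    have hball : ∀ s ∈ ball t r, t.re - r ≤ s.re ∧ s.re ≤ t.re + r := by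
      intro s hs'
      rw [mem_ball, dist_eq_norm] at hs'
      have := (Complex.abs_re_le_norm (s - t)).trans hs'.le
      rw [Complex.sub_re, abs_le] at this
      constructor <;> linarith
    refine hol_int (α := ℝ) volume (fun s y => traF N a b s y) t r hr0
      (fun y => C * Real.exp (-((Real.pi / N) * (N + 1)) * |y|)) ((bd_exp hc).const_mul C)
      (fun s hs' => ?_) (fun y s hs' => ?_) (fun s hs' y => ?_)
    · obtain ⟨q1, q2⟩ := hball s hs'
      refine (traF_cont h1 hN a b ha hb hs s ?_ ?_).1.aestronglyMeasurable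
      · rw [Complex.add_re]
        linarith
      · rw [Complex.sub_re]
        linarith
    · obtain ⟨q1, q2⟩ := hball s hs'
      refine (traF_cont h1 hN a b ha hb hs s ?_ ?_).2 y
      · rw [Complex.add_re]
        linarith
      · rw [Complex.sub_re]
        linarith
    · obtain ⟨q1, q2⟩ := hball s hs'
      refine (hbd s q1 q2 y).trans ?_
      refine mul_le_mul_of_nonneg_right ?_ (Real.exp_pos _).le
      refine mul_le_of_le_one_right hC.le ?_
      rw [Real.exp_le_one_iff]
      have : 0 ≤ (N : ℝ) + 1 - (a 0).re - (a 1).re := by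
        have := ha 2
        have := hb 0
        have := hb 1
        have := hb 2
        linarith
      have h8 : 0 ≤ Real.pi / N * (N + 1 - (a 0).re - (a 1).re) * |s.im| := by positivity
      linarith
  · intro x₀ x₁ hx₀ hx₁
    obtain ⟨C, hC, hbd⟩ := traF_bd h2 hN a b ha hb hs x₀ x₁ hx₀ hx₁
    refine ⟨C * ∫ y : ℝ, Real.exp (-((Real.pi / N) * (N + 1)) * |y|), fun t ht0 ht1 => ?_⟩
    have h9 : ‖∫ y : ℝ, traF N a b t y‖ ≤
        ∫ y : ℝ, C * Real.exp (-(Real.pi / N) * (N + 1 - (a 0).re - (a 1).re) * |t.im|) *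
          Real.exp (-((Real.pi / N) * (N + 1)) * |y|) :=
      norm_integral_le_of_norm_le ((bd_exp hc).const_mul _)
        (Eventually.of_forall fun y => hbd t ht0 ht1 y)
    rw [integral_const_mul] at h9
    refine h9.trans (le_of_eq ?_)
    ring

end Pool.Agent.PAN
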