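import Mathlib
import Pool.Agent.PAN.Stmts
import Pool.Agent.PAN.Bd
import Pool.Agent.PAN.Tra1

set_option autoImplicit false

/-!
# PAN / Tra: transfers
-/

namespace Pool.Agent.PAN

open Finset Filter

/-- lower bound of the product -/
private lemma tra_low (h2 : St_gB) {N : ℕ} (hN : 1 ≤ N) (a b : Fin 3 → ℂ)
    (ha : ∀ j, 0 < (a j).re) (hb : ∀ j, 0 < (b j).re) (hs : ∑ j, (a j + b j) = N + 1)
    (x₀ x₁ : ℝ) (hx₀ : -(a 0).re < x₀) (hx₁ : x₁ < (a 1).re) :
    ∃ C : ℝ, 0 < C ∧ ∀ t : ℂ, x₀ ≤ t.re → t.re ≤ x₁ →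
      Real.exp (-(Real.pi / N) * (N + 1 - (a 0).re - (a 1).re + 2 * (a 2).re) * |t.im|) ≤
        C * ‖PP N (![a 0 + t, a 1 - t, a 2]) b‖ := by
  have hNR : (0 : ℝ) < N := by exact_mod_cast hN
  have hpi := Real.pi_pos
  have hre : (a 0).re + (b 0).re + ((a 1).re + (b 1).re) + ((a 2).re + (b 2).re) = N + 1 := by
    have := congrArg Complex.re hs
    simpa [Fin.sum_univ_three] using this
  have a0 := ha 0
  have a1 := ha 1
  have a2 := ha 2
  have b0 := hb 0
  have b1 := hb 1
  have b2 := hb 2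
  obtain ⟨δ₁, hδ₁, hδ₁'⟩ := tra_min (fun j => (b j).re) hb
  obtain ⟨δ₂, hδ₂, hδ₂'⟩ := tra_min ![(a 0).re + x₀, (a 1).re - x₁, (a 2).re] (by
    intro j
    fin_cases j
    · simp only [Fin.zero_eta, Matrix.cons_val_zero]
      linarith
    · simp only [Fin.mk_one, Matrix.cons_val_one, Matrix.cons_val_zero]
      linarith
    · simpa using a2)
  have m0 := hδ₂' 0
  have m1 := hδ₂' 1
  have m2 := hδ₂' 2
  have n0 := hδ₁' 0
  have n1 := hδ₁' 1
  have n2 := hδ₁' 2
  simp only [Matrix.cons_val_zero, Matrix.cons_val_one, Matrix.cons_val] at m0 m1 m2 n0 n1 n2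
  set δ : ℝ := min δ₁ δ₂ with hδdef
  have hδ : 0 < δ := lt_min hδ₁ hδ₂
  have l1 : δ ≤ δ₁ := min_le_left _ _
  have l2 : δ ≤ δ₂ := min_le_right _ _
  set M : ℝ := |(a 0).im| + |(a 1).im| + |(a 2).im| + (|(b 0).im| + |(b 1).im| + |(b 2).im|)
    with hM
  have z0 := abs_nonneg (a 0).im
  have z1 := abs_nonneg (a 1).im
  have z2 := abs_nonneg (a 2).im
  have w0 := abs_nonneg (b 0).im
  have w1 := abs_nonneg (b 1).im
  have w2 := abs_nonneg (b 2).im
  obtain ⟨C, hC, hone⟩ := bd_one h2 hN hδ M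
  set K : ℝ := ∏ k, ‖gN N (a 2 + b k)‖ with hK
  have hK0 : 0 < K := Finset.prod_pos fun k _ => norm_pos_iff.2 (Complex.exp_ne_zero _)
  refine ⟨C ^ 6 * K⁻¹, by positivity, fun t ht0 ht1 => ?_⟩
  set x : ℝ := t.re with hx
  set τ : ℝ := t.im with hτ
  have ht : t = (x : ℂ) + τ * Complex.I := (Complex.re_add_im t).symm
  have hbk : ∀ k, |(b k).im| ≤ |(b 0).im| + |(b 1).im| + |(b 2).im| := by
    intro k
    fin_cases k <;> simp only [Fin.zero_eta, Fin.mk_one, Fin.reduceFinMk] <;> linarith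
  have hbk2 : ∀ k, δ ≤ (b k).re ∧ (b k).re ≤ (b 0).re + (b 1).re + (b 2).re - 2 * δ := by
    intro k
    fin_cases k <;> simp only [Fin.zero_eta, Fin.mk_one, Fin.reduceFinMk] <;>
      constructor <;> linarith
  -- the factors
  have k0 : ∀ k, Real.exp (-(Real.pi / N) * ((N + 1) / 2 - ((a 0).re + x + (b k).re)) * |τ|) ≤
      C * ‖gN N (a 0 + t + b k)‖ := by
    intro k
    obtain ⟨q1, q2⟩ := hbk2 k
    have q3 := hbk k
    have k := (hone (a 0 + x + b k)
      (by simp only [Complex.add_re, Complex.ofReal_re]; linarith)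
      (by simp only [Complex.add_re, Complex.ofReal_re]; linarith)
      (by
        simp only [Complex.add_im, Complex.ofReal_im, add_zero]
        refine (abs_add_le _ _).trans ?_
        linarith) τ).2.2.1
    simp only [Complex.add_re, Complex.ofReal_re] at k
    refine k.trans (le_of_eq ?_)
    congr 3
    rw [ht]
    ring
  have k1 : ∀ k, Real.exp (-(Real.pi / N) * ((N + 1) / 2 - ((a 1).re - x + (b k).re)) * |τ|) ≤
      C * ‖gN N (a 1 - t + b k)‖ := by
    intro k
    obtain ⟨q1, q2⟩ := hbk2 k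
    have q3 := hbk k
    have k := (hone (a 1 - x + b k)
      (by simp only [Complex.add_re, Complex.sub_re, Complex.ofReal_re]; linarith)
      (by simp only [Complex.add_re, Complex.sub_re, Complex.ofReal_re]; linarith)
      (by
        simp only [Complex.add_im, Complex.sub_im, Complex.ofReal_im, sub_zero]
        refine (abs_add_le _ _).trans ?_
        linarith) τ).2.2.2
    simp only [Complex.add_re, Complex.sub_re, Complex.ofReal_re] at k
    refine k.trans (le_of_eq ?_)
    congr 3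
    rw [ht]
    ring
  have hprod : ‖PP N (![a 0 + t, a 1 - t, a 2]) b‖ =
      (∏ k, ‖gN N (a 0 + t + b k)‖) * (∏ k, ‖gN N (a 1 - t + b k)‖) * K := by
    simp only [PP, Fin.prod_univ_three, hK, Matrix.cons_val_zero,
      Matrix.cons_val_one, Matrix.cons_val, norm_mul]
  have g0 : ∏ k, Real.exp (-(Real.pi / N) * ((N + 1) / 2 - ((a 0).re + x + (b k).re)) * |τ|) ≤
      ∏ k, (C * ‖gN N (a 0 + t + b k)‖) :=
    Finset.prod_le_prod (fun k _ => (Real.exp_pos _).le) fun k _ => k0 k
  have g1 : ∏ k, Real.exp (-(Real.pi / N) * ((N + 1) / 2 - ((a 1).re - x + (b k).re)) * |τ|) ≤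
      ∏ k, (C * ‖gN N (a 1 - t + b k)‖) :=
    Finset.prod_le_prod (fun k _ => (Real.exp_pos _).le) fun k _ => k1 k
  rw [Finset.prod_mul_distrib, Finset.prod_const, Finset.card_univ, Fintype.card_fin] at g0 g1
  have g2 := mul_le_mul g0 g1 (Finset.prod_nonneg fun k _ => (Real.exp_pos _).le)
    (by positivity)
  have g3 : (∏ k, Real.exp (-(Real.pi / N) * ((N + 1) / 2 - ((a 0).re + x + (b k).re)) * |τ|)) *
      ∏ k, Real.exp (-(Real.pi / N) * ((N + 1) / 2 - ((a 1).re - x + (b k).re)) * |τ|) =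
      Real.exp (-(Real.pi / N) * (N + 1 - (a 0).re - (a 1).re + 2 * (a 2).re) * |τ|) := by
    rw [← Real.exp_sum, ← Real.exp_sum, ← Real.exp_add]
    congr 1
    simp only [Fin.sum_univ_three]
    linear_combination (2 * (Real.pi / N) * |τ|) * hre
  rw [g3] at g2
  rw [hprod]
  refine g2.trans (le_of_eq ?_)
  field_simp

/-- keep this signature -/
theorem thm_Tra (h1 : St_gN) (h2 : St_gB) (h3 : St_Lio) (h4 : St_Rec) (h5 : St_Tra1) :
    St_Tra := by
  intro N a b t hN ha hb hs hbig ht0 ht1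
  have hNR : (0 : ℝ) < N := by exact_mod_cast hN
  have hpi := Real.pi_pos
  obtain ⟨hd, -⟩ := h1 N hN
  have hre : (a 0).re + (b 0).re + ((a 1).re + (b 1).re) + ((a 2).re + (b 2).re) = N + 1 := by
    have := congrArg Complex.re hs
    simpa [Fin.sum_univ_three] using this
  have a0 := ha 0
  have a1 := ha 1
  have a2 := ha 2
  have b0 := hb 0
  have b1 := hb 1
  have b2 := hb 2
  rw [Complex.add_re] at hbig
  obtain ⟨hdiff, hbd⟩ := h5 N a b hN ha hb hs
  have hPne : ∀ p : Fin 3 → ℂ, PP N p b ≠ 0 := fun p =>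
    Finset.prod_ne_zero_iff.2 fun _ _ => Finset.prod_ne_zero_iff.2 fun _ _ =>
      Complex.exp_ne_zero _
  set T : ℂ → Fin 3 → ℂ := fun t => ![a 0 + t, a 1 - t, a 2] with hT
  set f : ℂ → ℂ := fun t => II N (T t) b / PP N (T t) b with hf
  -- the strip
  set ε : ℝ := ((a 0).re + (a 1).re - 1) / 2 with hε
  have hε0 : 0 < ε := by
    rw [hε]
    linarith
  set x₀ : ℝ := -(a 0).re + ε with hx₀
  have hx₀1 : -(a 0).re < x₀ := by linarith
  have hx₁1 : x₀ + 1 < (a 1).re := by
    rw [hx₀, hε]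
    linarith
  obtain ⟨C₁, hC₁⟩ := hbd x₀ (x₀ + 1) hx₀1 hx₁1
  obtain ⟨C₂, hC₂, hC₂'⟩ := tra_low h2 hN a b ha hb hs x₀ (x₀ + 1) hx₀1 hx₁1
  have hPdiff : ∀ s : ℂ, -(a 0).re < s.re → s.re < (a 1).re →
      DifferentiableAt ℂ (fun t => PP N (T t) b) s := by
    intro s hs0 hs1
    have hbk2 : ∀ k, 0 < (b k).re ∧ (b k).re ≤ (b 0).re + (b 1).re + (b 2).re := by
      intro k
      fin_cases k <;> simp only [Fin.zero_eta, Fin.mk_one, Fin.reduceFinMk] <;>
        constructor <;> linarith
    have d0 : ∀ k, DifferentiableAt ℂ (fun t => gN N (a 0 + t + b k)) s := by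
      intro k
      obtain ⟨q1, q2⟩ := hbk2 k
      refine DifferentiableAt.comp (g := gN N) (f := fun t => a 0 + t + b k) s ?_ (by fun_prop)
      refine hd _ ?_ ?_
      · simp only [Complex.add_re]
        linarith
      · simp only [Complex.add_re]
        linarith
    have d1 : ∀ k, DifferentiableAt ℂ (fun t => gN N (a 1 - t + b k)) s := by
      intro k
      obtain ⟨q1, q2⟩ := hbk2 k
      refine DifferentiableAt.comp (g := gN N) (f := fun t => a 1 - t + b k) s ?_ (by fun_prop)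
      refine hd _ ?_ ?_
      · simp only [Complex.add_re, Complex.sub_re]
        linarith
      · simp only [Complex.add_re, Complex.sub_re]
        linarith
    simp only [PP, hT, Fin.prod_univ_three, Matrix.cons_val_zero, Matrix.cons_val_one,
      Matrix.cons_val]
    exact ((((d0 0).mul (d0 1)).mul (d0 2)).mul (((d1 0).mul (d1 1)).mul (d1 2))).mul_const _
  have key := h3 (-(a 0).re) ((a 1).re) x₀ ((a 2).re / N) (C₁ * C₂) f hx₀1 hx₁1 ?_ ?_ ?_ ?_ t 0
    ?_ ?_ ?_ ?_
  · simp only [hf] at key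
    rw [div_eq_div_iff (hPne _) (hPne _)] at key
    have e0 : T 0 = a := by
      funext j
      fin_cases j <;> simp [hT]
    rw [e0] at key
    exact key
  · rw [div_lt_one hNR]
    linarith
  · intro s hs0 hs1
    refine DifferentiableAt.div ?_ (hPdiff s hs0 hs1) (hPne _)
    refine hdiff s ?_ ?_
    · rw [Complex.add_re]
      linarith
    · rw [Complex.sub_re]
      linarith
  · intro s hs0 hs1
    simp only [hf]
    rw [div_eq_div_iff (hPne _) (hPne _)]
    have q := h4 N (![a 0 + s, a 1 - s - 1, a 2]) b hN (fun j => by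
      fin_cases j
      · simp only [Fin.zero_eta, Matrix.cons_val_zero, Complex.add_re]
        linarith
      · simp only [Fin.mk_one, Matrix.cons_val_one, Matrix.cons_val_zero, Complex.sub_re,
          Complex.one_re]
        linarith
      · simpa using a2) hb (by
      rw [← add_sub_cancel_right (N : ℂ) 1, ← hs]
      simp only [Fin.sum_univ_three, Matrix.cons_val_zero, Matrix.cons_val_one,
        Matrix.cons_val]
      ring)
    have e0 : Function.update (![a 0 + s, a 1 - s - 1, a 2]) 0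
        ((![a 0 + s, a 1 - s - 1, a 2] : Fin 3 → ℂ) 0 + 1) = T (s + 1) := by
      funext j
      fin_cases j
      · simp [hT]
        ring
      · simp [hT]
        ring
      · simp [hT]
    have e1 : Function.update (![a 0 + s, a 1 - s - 1, a 2]) 1
        ((![a 0 + s, a 1 - s - 1, a 2] : Fin 3 → ℂ) 1 + 1) = T s := by
      funext j
      fin_cases j
      · simp [hT]
      · simp [hT]
      · simp [hT]
    rw [e0, e1] at q
    exact q
  · intro s hs0 hs1
    have q1 := hC₁ s hs0 hs1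
    have q2 := hC₂' s hs0 hs1
    have q3 : 0 < ‖PP N (T s) b‖ := norm_pos_iff.2 (hPne _)
    simp only [hf]
    rw [norm_div, div_le_iff₀ q3]
    have q4 : C₁ * Real.exp (-(Real.pi / N) * (N + 1 - (a 0).re - (a 1).re) * |s.im|) =
        C₁ * Real.exp (2 * Real.pi * ((a 2).re / N) * |s.im|) *
          Real.exp (-(Real.pi / N) * (N + 1 - (a 0).re - (a 1).re + 2 * (a 2).re) * |s.im|) := by
      rw [mul_assoc C₁, ← Real.exp_add]
      congr 2
      field_simp
      ring
    have hC₁0 : 0 ≤ C₁ := by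
      have := (norm_nonneg _).trans q1
      exact nonneg_of_mul_nonneg_left this (Real.exp_pos _)
    refine q1.trans ?_
    rw [q4]
    refine (mul_le_mul_of_nonneg_left q2 (by positivity)).trans (le_of_eq ?_)
    ring
  · rw [Complex.add_re] at ht0
    linarith
  · rw [Complex.sub_re] at ht1
    linarith
  · simp only [Complex.zero_re]
    linarith
  · simp only [Complex.zero_re]
    linarith

end Pool.Agent.PAN
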