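import Mathlib
import Pool.Agent.PAN.Stmts

set_option autoImplicit false

/-!
# PAN / Z2: uniform bound for the integrand of the state integral
-/

namespace Pool.Agent.PAN

open Finset Filter

private theorem z2_min {r s : ℝ} (h0 : 0 ≤ r) (h : r ≤ s) : min r (r ^ 2) ≤ min s (s ^ 2) :=
  min_le_min h (pow_le_pow_left₀ h0 h 2)

private theorem z2_sum {J : Type} [Fintype J] (y : J → Fin 3 → ℝ) :
    min ‖y‖ (‖y‖ ^ 2) ≤ ∑ t, min ‖y t‖ (‖y t‖ ^ 2) := by
  have hnn : ∀ t, 0 ≤ min ‖y t‖ (‖y t‖ ^ 2) := fun t => le_min (norm_nonneg _) (by positivity)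
  rcases isEmpty_or_nonempty J with h | h
  · have h1 : ‖y‖ ≤ 0 := (pi_norm_le_iff_of_nonneg le_rfl).2 fun t => h.elim t
    exact (min_le_left _ _).trans (h1.trans (Finset.sum_nonneg fun t _ => hnn t))
  · obtain ⟨t₀, ht₀⟩ := Finite.exists_max (fun t => ‖y t‖)
    have h1 : ‖y‖ ≤ ‖y t₀‖ := (pi_norm_le_iff_of_nonneg (norm_nonneg _)).2 ht₀
    refine (z2_min (norm_nonneg _) h1).trans ?_
    exact Finset.single_le_sum (f := fun t => min ‖y t‖ (‖y t‖ ^ 2)) (fun t _ => hnn t)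
      (Finset.mem_univ t₀)

/-- keep this signature -/
theorem thm_Z2 (h : St_I2) : St_Z2 := by
  intro J _ δ hδ
  obtain ⟨c, C, N₀, hc, hC, hN₀, hb⟩ := h δ hδ
  refine ⟨c, C ^ Fintype.card J, N₀, hc, by positivity, hN₀, fun N hN l α y hα hs hy => ?_⟩
  unfold zz
  have hchar : ‖Complex.exp (((N / Real.pi : ℝ) : ℂ) * ((l α : ℂ) + (l y : ℂ) * Complex.I))‖ =
      Real.exp (N / Real.pi * l α) := by
    rw [Complex.norm_exp]
    congr 1
    simp
  rw [norm_mul, hchar]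
  have h1 : ‖∏ t, WN N (fun i => (α t i : ℂ) + (y t i : ℂ) * Complex.I)‖ ≤
      ∏ t : J, (C * Real.exp (-(N / Real.pi) * ∑ i, Lob (α t i)) *
        Real.exp (-c * N * min ‖y t‖ (‖y t‖ ^ 2))) := by
    rw [norm_prod]
    exact Finset.prod_le_prod (fun t _ => norm_nonneg _)
      fun t _ => hb N hN (α t) (y t) (hα t) (hs t) (hy t)
  have h2 : ∏ t : J, (C * Real.exp (-(N / Real.pi) * ∑ i, Lob (α t i)) *
        Real.exp (-c * N * min ‖y t‖ (‖y t‖ ^ 2))) =
      C ^ Fintype.card J * Real.exp (-(N / Real.pi) * Vol α) *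
        Real.exp (-c * N * ∑ t, min ‖y t‖ (‖y t‖ ^ 2)) := by
    rw [Finset.prod_mul_distrib, Finset.prod_mul_distrib, Finset.prod_const, Finset.card_univ,
      ← Real.exp_sum, ← Real.exp_sum, ← Finset.mul_sum, ← Finset.mul_sum]
    rfl
  rw [h2] at h1
  have h3 : Real.exp (-c * N * ∑ t, min ‖y t‖ (‖y t‖ ^ 2)) ≤
      Real.exp (-c * N * min ‖y‖ (‖y‖ ^ 2)) := by
    rw [Real.exp_le_exp]
    have h4 := z2_sum y
    have h5 : 0 ≤ c * N := by positivity
    nlinarith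
  calc ‖∏ t, WN N (fun i => (α t i : ℂ) + (y t i : ℂ) * Complex.I)‖ * Real.exp (N / Real.pi * l α)
      ≤ (C ^ Fintype.card J * Real.exp (-(N / Real.pi) * Vol α) *
        Real.exp (-c * N * min ‖y‖ (‖y‖ ^ 2))) * Real.exp (N / Real.pi * l α) := by
        refine mul_le_mul_of_nonneg_right (h1.trans ?_) (Real.exp_pos _).le
        exact mul_le_mul_of_nonneg_left h3 (by positivity)
    _ = C ^ Fintype.card J * (Real.exp (-(N / Real.pi) * Vol α) * Real.exp (N / Real.pi * l α)) *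
        Real.exp (-c * N * min ‖y‖ (‖y‖ ^ 2)) := by ring
    _ = _ := by rw [← Real.exp_add]; ring_nf

end Pool.Agent.PAN
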