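import Mathlib
import Pool.Agent.PAN.GG
import Pool.Agent.PAN.G1M
import Pool.Agent.PAN.GL
import Pool.Agent.PAN.GB
import Pool.Agent.PAN.GV
import Pool.Agent.PAN.GNm
import Pool.Agent.PAN.GBm
import Pool.Agent.PAN.TR
import Pool.Agent.PAN.CS
import Pool.Agent.PAN.Lio
import Pool.Agent.PAN.Rec
import Pool.Agent.PAN.Tra1
import Pool.Agent.PAN.Tra
import Pool.Agent.PAN.Sym
import Pool.Agent.PAN.Star
import Pool.Agent.PAN.PhM
import Pool.Agent.PAN.D1
import Pool.Agent.PAN.D2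
import Pool.Agent.PAN.E0
import Pool.Agent.PAN.E1
import Pool.Agent.PAN.E2
import Pool.Agent.PAN.E3
import Pool.Agent.PAN.I2
import Pool.Agent.PAN.Z2
import Pool.Agent.PAN.J3
import Pool.Agent.PAN.J4

set_option autoImplicit false

/-!
# PAN: assembly
-/

namespace Pool.Agent.PAN

theorem sGG : St_GG := thm_GG
theorem sG1 : St_G1 := thm_G1 sGG
theorem sGL : St_GL := thm_GL sGG sG1
theorem sGB : St_GB := thm_GB sGG
theorem sGV : St_GV := thm_GV sG1 sGB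
theorem sgN : St_gN := thm_gN sG1 sGL
theorem sgB : St_gB := thm_gB sGV
theorem sRec : St_Rec := thm_Rec sgN sgB thm_TR thm_CS
theorem sTra : St_Tra := thm_Tra sgN sgB thm_Lio sRec (thm_Tra1 sgN sgB)
theorem sSym : St_Sym := thm_Sym sgN sgB thm_CS
theorem sStar : St_Star := thm_Star sgN sgB sTra sSym
theorem sPh : St_Ph := thm_Ph sG1 sGL
theorem sD1 : St_D1 := thm_D1 sGG sG1 sGL
theorem sD2 : St_D2 := thm_D2 sG1 sGB
theorem sE0 : St_E0 := thm_E0 sPh
theorem sE3 : St_E3 := thm_E3 thm_E2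
theorem sI2 : St_I2 := thm_I2 sD2 sE0 sE3
theorem sZ2 : St_Z2 := thm_Z2 sI2
theorem sJ3 : St_J3 := thm_J3 sgN sD1 sPh sZ2
theorem sJ4 : St_J4 := thm_J4 sgN sgB sStar sD2 sE0 thm_E1

end Pool.Agent.PAN
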