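import Mathlib
import Pool.Agent.PAN.Stmts

set_option autoImplicit false

/-!
# PAN / D2: uniform asymptotics of the modulus
-/

namespace Pool.Agent.PAN

open Finset Filter

/-- a mean over `[0,1]` cut into `N` pieces -/
theorem d2_split {ρ : ℝ → ℝ} (hρ : ContinuousOn ρ (Set.Icc 0 1)) {N : ℕ} (hN : 1 ≤ N) :
    (N : ℝ) * ∫ σ in (0 : ℝ)..1, ρ σ = ∑ k ∈ range N, ∫ τ in (0 : ℝ)..1, ρ ((k + τ) / N) := by
  have hN0 : (0 : ℝ) < N := by exact_mod_cast hN
  have h1 := intervalIntegral.sum_integral_adjacent_intervals (μ := MeasureTheory.volume)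
    (f := ρ) (a := fun k : ℕ => (k : ℝ) / N) (n := N) (fun k hk => by
      refine (hρ.mono ?_).intervalIntegrable
      have hk' : (k : ℝ) + 1 ≤ N := by exact_mod_cast hk
      rw [Set.uIcc_of_le (by gcongr; linarith)]
      intro x hx
      refine ⟨le_trans (by positivity) hx.1, hx.2.trans ?_⟩
      rw [div_le_one hN0]
      push_cast
      exact hk')
  have e0 : ((0 : ℕ) : ℝ) / N = 0 := by simp
  have e1 : ((N : ℕ) : ℝ) / N = 1 := by field_simp
  simp only [e0, e1] at h1
  rw [← h1, Finset.mul_sum]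
  refine Finset.sum_congr rfl fun k _ => ?_
  have h2 := intervalIntegral.integral_comp_div_add (a := (0 : ℝ)) (b := 1) ρ hN0.ne'
    ((k : ℝ) / N)
  have e2 : ∀ τ : ℝ, τ / N + (k : ℝ) / N = (k + τ) / N := fun τ => by ring
  have e3 : ((k : ℝ) + 0) / N = (k : ℝ) / N := by ring
  have e4 : ((k : ℝ) + 1) / N = ((k + 1 : ℕ) : ℝ) / N := by push_cast; ring
  simp only [e2] at h2
  rw [e3, e4, smul_eq_mul] at h2
  exact h2.symm

/-- keep this signature -/
theorem thm_D2 (h1 : St_G1) (h2 : St_GB) : St_D2 := by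
  intro δ hδ
  obtain ⟨C, hC, hb⟩ := h2 δ hδ
  refine ⟨3 * C, by positivity, fun N hN u hu1 hu2 => ?_⟩
  have hN0 : (0 : ℝ) < N := by exact_mod_cast hN
  have hNc : (N : ℂ) ≠ 0 := by exact_mod_cast hN0.ne'
  have hcont : ContinuousOn (fun σ : ℝ => (G1 (u + (σ : ℂ))).re) (Set.Icc 0 1) := by
    intro σ hσ
    have a1 := (h1.1 (u + (σ : ℂ)) (by simp; linarith [hσ.1]) (by simp; linarith [hσ.2])).continuousAt
    have a2 : ContinuousAt (fun σ : ℝ => u + (σ : ℂ)) σ := by fun_prop
    have a3 := ContinuousAt.comp (f := fun σ : ℝ => u + (σ : ℂ)) a1 a2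
    exact (Complex.continuous_re.continuousAt.comp a3).continuousWithinAt
  have hcontc : ContinuousOn (fun σ : ℝ => G1 (u + (σ : ℂ))) (Set.Icc 0 1) := by
    intro σ hσ
    have a1 := (h1.1 (u + (σ : ℂ)) (by simp; linarith [hσ.1]) (by simp; linarith [hσ.2])).continuousAt
    have a2 : ContinuousAt (fun σ : ℝ => u + (σ : ℂ)) σ := by fun_prop
    exact (ContinuousAt.comp (f := fun σ : ℝ => u + (σ : ℂ)) a1 a2).continuousWithinAt
  have hPh : (Ph u).re = ∫ σ in (0 : ℝ)..1, (G1 (u + (σ : ℂ))).re := by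
    unfold Ph
    have hint : IntervalIntegrable (fun σ : ℝ => G1 (u + (σ : ℂ))) MeasureTheory.volume 0 1 := by
      refine ContinuousOn.intervalIntegrable ?_
      rwa [Set.uIcc_of_le zero_le_one]
    exact (Complex.reCLM.intervalIntegral_comp_comm hint).symm
  rw [hPh, d2_split hcont hN]
  unfold LN
  rw [Complex.re_sum, ← Finset.sum_sub_distrib]
  refine (Finset.abs_sum_le_sum_abs _ _).trans ?_
  have e6 : 3 * C * (1 + |u.im|) = ∑ k ∈ range N, 3 * C * (1 + |u.im|) / N := by
    rw [Finset.sum_const, Finset.card_range, nsmul_eq_mul]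
    field_simp
  rw [e6]
  refine Finset.sum_le_sum fun k hk => ?_
  have hk' : (k : ℝ) + 1 ≤ N := by exact_mod_cast Finset.mem_range.1 hk
  have hk0 : (0 : ℝ) ≤ k := by positivity
  -- one term
  have hterm : ∀ τ ∈ Set.Icc (0 : ℝ) 1,
      |(G1 (((N + 1) * u + k) / N)).re - (G1 (u + (((k + τ) / N : ℝ) : ℂ))).re| ≤
        3 * C * (1 + |u.im|) / N := by
    intro τ hτ
    set Q : ℂ := u + (((k + τ) / N : ℝ) : ℂ) with hQ
    set D : ℂ := (u - τ) / N with hD
    have hP : ((N + 1) * u + k) / N = Q + ((1 : ℝ) : ℂ) * D := by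
      rw [hQ, hD]
      push_cast
      field_simp
      ring
    have hDre : D.re = (u.re - τ) / N := by
      rw [hD, Complex.div_natCast_re]; simp
    have hDim : D.im = u.im / N := by
      rw [hD, Complex.div_natCast_im]; simp
    have hQre : Q.re = u.re + (k + τ) / N := by rw [hQ]; simp
    have hQim : Q.im = u.im := by rw [hQ]; simp
    have hre : ∀ r ∈ Set.Icc (0 : ℝ) 1, δ ≤ (Q + (r : ℂ) * D).re ∧
        (Q + (r : ℂ) * D).re ≤ 2 - δ := by
      intro r hr
      have e : (Q + (r : ℂ) * D).re = u.re + (k + (1 - r) * τ + r * u.re) / N := by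
        rw [Complex.add_re, Complex.re_ofReal_mul, hQre, hDre]
        field_simp
        ring
      rw [e]
      have h3 : 0 ≤ (1 - r) * τ + r * u.re := by
        have : 0 ≤ (1 - r) * τ := mul_nonneg (by linarith [hr.2]) hτ.1
        have : 0 ≤ r * u.re := mul_nonneg hr.1 (by linarith)
        linarith
      have h4 : (1 - r) * τ + r * u.re ≤ 1 := by nlinarith [hr.1, hr.2, hτ.1, hτ.2]
      have h5 : 0 ≤ (k + (1 - r) * τ + r * u.re) / N := by
        refine div_nonneg ?_ hN0.le
        linarith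
      have h6 : (k + (1 - r) * τ + r * u.re) / N ≤ 1 := by
        rw [div_le_one hN0]; linarith
      constructor <;> linarith
    have him : ∀ r ∈ Set.Icc (0 : ℝ) 1, |(Q + (r : ℂ) * D).im| ≤ 2 * |u.im| := by
      intro r hr
      have e : (Q + (r : ℂ) * D).im = u.im * (1 + r / N) := by
        rw [Complex.add_im, Complex.im_ofReal_mul, hQim, hDim]
        ring
      rw [e, abs_mul, mul_comm]
      refine mul_le_mul_of_nonneg_right ?_ (abs_nonneg _)
      have h3 : 0 ≤ r / N := div_nonneg hr.1 hN0.le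
      have h4 : r / N ≤ 1 := by
        rw [div_le_one hN0]; linarith [hr.2]
      rw [abs_of_nonneg (by linarith)]
      linarith
    have hmv := norm_image_sub_le_of_norm_deriv_le_segment_01'
      (f := fun r : ℝ => (G1 (Q + (r : ℂ) * D)).re)
      (f' := fun r : ℝ => (gg (Q + (r : ℂ) * D) * D).re) (C := 3 * C * (1 + |u.im|) / N)
      (fun r hr => by
        obtain ⟨b1, b2⟩ := hre r hr
        have a1 := h1.1 (Q + (r : ℂ) * D) (by linarith) (by linarith)
        have a2 : HasDerivAt (fun r : ℝ => Q + (r : ℂ) * D) D r := by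
          have a3 : HasDerivAt (fun r : ℝ => (r : ℂ)) 1 r := Complex.ofRealCLM.hasDerivAt
          simpa using (a3.mul_const D).const_add Q
        have a4 := HasDerivAt.comp r a1 a2
        exact (Complex.reCLM.hasFDerivAt.comp_hasDerivAt r a4).hasDerivWithinAt)
      (fun r hr => by
        have hr' : r ∈ Set.Icc (0 : ℝ) 1 := ⟨hr.1, hr.2.le⟩
        obtain ⟨b1, b2⟩ := hre r hr'
        obtain ⟨g1, g2, -⟩ := hb (Q + (r : ℂ) * D) b1 b2
        have g3 := him r hr'
        rw [Real.norm_eq_abs, Complex.mul_re, hDre, hDim]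
        have g4 : |(u.re - τ) / N| ≤ 1 / N := by
          rw [abs_div, abs_of_pos hN0]
          refine div_le_div_of_nonneg_right ?_ hN0.le
          rw [abs_le]; constructor <;> linarith [hτ.1, hτ.2]
        have g5 : |u.im / N| = |u.im| / N := by rw [abs_div, abs_of_pos hN0]
        calc |(gg (Q + (r : ℂ) * D)).re * ((u.re - τ) / N) - (gg (Q + (r : ℂ) * D)).im * (u.im / N)|
            ≤ |(gg (Q + (r : ℂ) * D)).re * ((u.re - τ) / N)| +
              |(gg (Q + (r : ℂ) * D)).im * (u.im / N)| := abs_sub _ _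
          _ ≤ (C * (1 + 2 * |u.im|)) * (1 / N) + C * (|u.im| / N) := by
              rw [abs_mul, abs_mul, g5]
              refine add_le_add ?_ ?_
              · refine mul_le_mul (g2.trans ?_) g4 (abs_nonneg _) (by positivity)
                refine mul_le_mul_of_nonneg_left ?_ hC.le
                linarith
              · exact mul_le_mul_of_nonneg_right g1 (by positivity)
          _ ≤ 3 * C * (1 + |u.im|) / N := by
              rw [show (C * (1 + 2 * |u.im|)) * (1 / (N : ℝ)) + C * (|u.im| / N) =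
                C * (1 + 3 * |u.im|) / N by ring]
              refine div_le_div_of_nonneg_right ?_ hN0.le
              nlinarith [abs_nonneg u.im])
    rw [Real.norm_eq_abs] at hmv
    have e0 : Q + ((0 : ℝ) : ℂ) * D = Q := by simp
    simp only [e0] at hmv
    rw [hP]
    exact hmv
  -- integrate
  have hcq : ContinuousOn (fun τ : ℝ => (G1 (u + (((k + τ) / N : ℝ) : ℂ))).re)
      (Set.Icc 0 1) := by
    refine hcont.comp (by fun_prop) ?_
    intro τ hτ
    refine ⟨div_nonneg (by linarith [hτ.1]) hN0.le, ?_⟩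
    rw [div_le_one hN0]; linarith [hτ.2]
  have hint : IntervalIntegrable (fun τ : ℝ => (G1 (u + (((k + τ) / N : ℝ) : ℂ))).re)
      MeasureTheory.volume 0 1 := by
    refine ContinuousOn.intervalIntegrable ?_
    rwa [Set.uIcc_of_le zero_le_one]
  have e7 : (G1 (((N + 1) * u + k) / N)).re -
      ∫ τ in (0 : ℝ)..1, (G1 (u + (((k + τ) / N : ℝ) : ℂ))).re =
      ∫ τ in (0 : ℝ)..1, ((G1 (((N + 1) * u + k) / N)).re -
        (G1 (u + (((k + τ) / N : ℝ) : ℂ))).re) := by
    rw [intervalIntegral.integral_sub intervalIntegrable_const hint]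
    simp
  rw [e7]
  have h8 := intervalIntegral.norm_integral_le_of_norm_le_const (a := (0 : ℝ)) (b := 1)
    (C := 3 * C * (1 + |u.im|) / N) (f := fun τ : ℝ => (G1 (((N + 1) * u + k) / N)).re -
        (G1 (u + (((k + τ) / N : ℝ) : ℂ))).re) (fun τ hτ => by
      rw [Set.uIoc_of_le zero_le_one] at hτ
      exact hterm τ ⟨hτ.1.le, hτ.2⟩)
  simpa using h8

end Pool.Agent.PAN
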